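import Mathlib
import Pool.Agent.H33.G.R_seed8.H499R2.CO.B

set_option autoImplicit false

namespace Pool.Agent.H499R2.CO

open Finset

/-! A proper function superharmonic outside a finite set. -/

/-- The exponent of `2` in `3 ^ i - 1`. -/
def v (i : ℕ) : ℕ := padicValNat 2 (3 ^ i - 1)

theorem three_pow_sub_ne {i : ℕ} (hi : 1 ≤ i) : 3 ^ i - 1 ≠ 0 := by
  have : 3 ^ 1 ≤ 3 ^ i := Nat.pow_le_pow_right (by norm_num) hi
  omega

theorem v_dvd {i : ℕ} : (2 : ℤ) ^ v i ∣ 3 ^ i - 1 := by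
  have h : 2 ^ v i ∣ 3 ^ i - 1 := pow_padicValNat_dvd
  have h' : ((2 ^ v i : ℕ) : ℤ) ∣ ((3 ^ i - 1 : ℕ) : ℤ) := by exact_mod_cast h
  have e : ((3 ^ i - 1 : ℕ) : ℤ) = 3 ^ i - 1 := by
    rw [Nat.cast_sub (Nat.one_le_pow _ _ (by norm_num))]
    push_cast; ring
  rw [e] at h'
  exact_mod_cast h'

theorem v_not_dvd {i : ℕ} (hi : 1 ≤ i) : ¬ (2 : ℤ) ^ (v i + 1) ∣ 3 ^ i - 1 := by
  intro h
  have e : ((3 ^ i - 1 : ℕ) : ℤ) = 3 ^ i - 1 := by
    rw [Nat.cast_sub (Nat.one_le_pow _ _ (by norm_num))]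
    push_cast; ring
  rw [← e] at h
  have h' : 2 ^ (v i + 1) ∣ 3 ^ i - 1 := by exact_mod_cast h
  exact pow_succ_padicValNat_not_dvd (three_pow_sub_ne hi) h'

theorem v_pos {i : ℕ} (hi : 1 ≤ i) : 1 ≤ v i := by
  by_contra hcon
  have h0 : v i = 0 := by omega
  apply v_not_dvd hi
  rw [h0, zero_add, pow_one]
  have h3 : Odd ((3 : ℤ) ^ i) := Odd.pow (by decide)
  obtain ⟨m, hm⟩ := h3
  exact ⟨m, by rw [hm]; ring⟩

theorem v_le {i : ℕ} : v i ≤ 2 * i := by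
  rcases Nat.eq_zero_or_pos i with rfl | hi
  · simp [v]
  have h : 2 ^ v i ∣ 3 ^ i - 1 := pow_padicValNat_dvd
  have h1 : 2 ^ v i ≤ 3 ^ i - 1 := Nat.le_of_dvd (Nat.pos_of_ne_zero (three_pow_sub_ne hi)) h
  have h2 : 3 ^ i ≤ 2 ^ (2 * i) := by
    rw [pow_mul]; exact Nat.pow_le_pow_left (by norm_num) i
  have h3 : 2 ^ v i ≤ 2 ^ (2 * i) := by omega
  exact (Nat.pow_le_pow_iff_right (by norm_num)).1 h3

/-- Bound for the expected time until `r` becomes odd. -/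
def H (i : ℕ) (r : ℤ) : ℕ :=
  if i = 0 then 0 else #{t ∈ Icc 1 (v i - 1) | (2 : ℤ) ^ t ∣ r} + if (2 : ℤ) ^ v i ∣ r then 2 else 0

theorem H_le (i : ℕ) (r : ℤ) : H i r ≤ 2 * i + 1 := by
  unfold H
  rcases Nat.eq_zero_or_pos i with rfl | hi
  · simp
  rw [if_neg hi.ne']
  have h1 : #{t ∈ Icc 1 (v i - 1) | (2 : ℤ) ^ t ∣ r} ≤ v i - 1 := by
    refine (card_filter_le _ _).trans ?_
    simp
  have h2 := v_le (i := i)
  have h3 := v_pos hi
  split_ifs <;> omega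


/-- While `r` is even the potential `H` decreases by one on average. -/
theorem H_even {i : ℕ} (hi : 1 ≤ i) {r : ℤ} (hr : r % 2 = 0) :
    H i (r / 2) + H i ((3 * r + 1 - 3 ^ i) / 2) + 2 ≤ 2 * H i r := by
  obtain ⟨a, ha⟩ : ∃ a, r = 2 * a := ⟨r / 2, by omega⟩
  have hodd : Odd ((3 : ℤ) ^ i) := Odd.pow (by decide)
  obtain ⟨m, hm⟩ := hodd
  have e1 : r / 2 = a := by omega
  have e2 : (3 * r + 1 - 3 ^ i) / 2 = 3 * a - m := by rw [hm, ha]; omega
  rw [e1, e2]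
  have hv := v_pos hi
  have hvd := v_dvd (i := i)
  have hvn := v_not_dvd hi
  have d1 : ∀ t : ℕ, (2 : ℤ) ^ t ∣ a ↔ (2 : ℤ) ^ (t + 1) ∣ r := by
    intro t
    rw [ha, pow_succ, mul_comm (2 : ℤ) a]
    exact (mul_dvd_mul_iff_right (by norm_num)).symm
  have d2 : ∀ t : ℕ, (2 : ℤ) ^ t ∣ 3 * a - m ↔ (2 : ℤ) ^ (t + 1) ∣ 3 * r - (3 ^ i - 1) := by
    intro t
    have : 3 * r - (3 ^ i - 1) = (3 * a - m) * 2 := by rw [hm, ha]; ring
    rw [this, pow_succ]
    exact (mul_dvd_mul_iff_right (by norm_num)).symm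
  have c3 : ∀ t : ℕ, IsCoprime ((2 : ℤ) ^ t) 3 := fun t => IsCoprime.pow_left (by norm_num)
  have d3 : ∀ t : ℕ, t + 1 ≤ v i → ((2 : ℤ) ^ t ∣ 3 * a - m ↔ (2 : ℤ) ^ (t + 1) ∣ r) := by
    intro t ht
    rw [d2]
    have hdv : (2 : ℤ) ^ (t + 1) ∣ 3 ^ i - 1 := (pow_dvd_pow 2 ht).trans hvd
    constructor
    · intro h
      have h2 : (2 : ℤ) ^ (t + 1) ∣ 3 * r := by
        have := dvd_add h hdv
        simpa using this
      exact (c3 (t + 1)).dvd_of_dvd_mul_left h2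
    · intro h
      exact dvd_sub (h.mul_left 3) hdv
  -- counts
  have hcard : ∀ s : ℤ, (∀ t : ℕ, t + 1 ≤ v i → ((2 : ℤ) ^ t ∣ s ↔ (2 : ℤ) ^ (t + 1) ∣ r)) →
      #{t ∈ Icc 1 (v i - 1) | (2 : ℤ) ^ t ∣ s} + 1 ≤
        #{t ∈ Icc 1 (v i - 1) | (2 : ℤ) ^ t ∣ r} + if (2 : ℤ) ^ v i ∣ r then 1 else 0 := by
    intro s hs
    have hsub : insert 1 (({t ∈ Icc 1 (v i - 1) | (2 : ℤ) ^ t ∣ s}).image (· + 1)) ⊆
        {t ∈ Icc 1 (v i) | (2 : ℤ) ^ t ∣ r} := by
      intro t ht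
      rw [mem_insert, mem_image] at ht
      rw [mem_filter, mem_Icc]
      rcases ht with rfl | ⟨u, hu, rfl⟩
      · refine ⟨⟨le_rfl, hv⟩, ?_⟩
        rw [pow_one]; exact ⟨a, ha⟩
      · rw [mem_filter, mem_Icc] at hu
        exact ⟨⟨by omega, by omega⟩, (hs u (by omega)).1 hu.2⟩
    have h1 := card_le_card hsub
    have h2 : #(insert 1 (({t ∈ Icc 1 (v i - 1) | (2 : ℤ) ^ t ∣ s}).image (· + 1))) =
        #{t ∈ Icc 1 (v i - 1) | (2 : ℤ) ^ t ∣ s} + 1 := by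
      rw [card_insert_of_notMem, card_image_of_injective _ (add_left_injective 1)]
      rw [mem_image]
      rintro ⟨u, hu, hu'⟩
      rw [mem_filter, mem_Icc] at hu
      omega
    have h3 : #{t ∈ Icc 1 (v i) | (2 : ℤ) ^ t ∣ r} ≤
        #{t ∈ Icc 1 (v i - 1) | (2 : ℤ) ^ t ∣ r} + if (2 : ℤ) ^ v i ∣ r then 1 else 0 := by
      have hI : Icc 1 (v i) = insert (v i) (Icc 1 (v i - 1)) := by
        ext t; simp only [mem_Icc, mem_insert]; omega
      rw [hI, filter_insert]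
      split_ifs with h
      · exact card_insert_le _ _
      · simp
    omega
  have k1 := hcard a (fun t _ => d1 t)
  have k2 := hcard (3 * a - m) d3
  have k3 : (if (2 : ℤ) ^ v i ∣ a then 2 else 0) + (if (2 : ℤ) ^ v i ∣ 3 * a - m then 2 else 0) ≤
      if (2 : ℤ) ^ v i ∣ r then 2 else 0 := by
    by_cases p1 : (2 : ℤ) ^ v i ∣ a
    · have q1 := (d1 _).1 p1
      have p3 : (2 : ℤ) ^ v i ∣ r := (pow_dvd_pow 2 (Nat.le_succ _)).trans q1
      have p2 : ¬ (2 : ℤ) ^ v i ∣ 3 * a - m := by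
        intro h
        have h' := (d2 _).1 h
        apply hvn
        have := dvd_sub (q1.mul_left 3) h'
        simpa using this
      rw [if_pos p1, if_neg p2, if_pos p3]
    · rw [if_neg p1]
      by_cases p2 : (2 : ℤ) ^ v i ∣ 3 * a - m
      · have h' := (d2 _).1 p2
        have h2 : (2 : ℤ) ^ v i ∣ 3 * r - (3 ^ i - 1) := (pow_dvd_pow 2 (Nat.le_succ _)).trans h'
        have h3 : (2 : ℤ) ^ v i ∣ 3 * r := by
          have := dvd_add h2 hvd
          simpa using this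
        have p3 : (2 : ℤ) ^ v i ∣ r := (c3 _).dvd_of_dvd_mul_left h3
        rw [if_pos p2, if_pos p3]
      · rw [if_neg p2]; simp
  have hi0 : i ≠ 0 := by omega
  simp only [H, hi0, if_false]
  have k4 : ((if (2 : ℤ) ^ v i ∣ r then 1 else 0) : ℕ) * 2 = if (2 : ℤ) ^ v i ∣ r then 2 else 0 := by
    split_ifs <;> rfl
  omega


/-- Partial sums of the harmonic series. -/
noncomputable def g (i : ℕ) : ℝ := ∑ m ∈ range i, 1 / ((m : ℝ) + 1)

theorem g_nonneg (i : ℕ) : 0 ≤ g i := Finset.sum_nonneg (fun m _ => by positivity)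

theorem g_succ (i : ℕ) : g (i + 1) = g i + 1 / ((i : ℝ) + 1) := by
  rw [g, sum_range_succ]; rfl

theorem g_mono : Monotone g := monotone_nat_of_le_succ (fun i => by
  rw [g_succ]; have : (0 : ℝ) ≤ 1 / ((i : ℝ) + 1) := by positivity
  linarith)

theorem g_tendsto : Filter.Tendsto g Filter.atTop Filter.atTop :=
  Real.tendsto_sum_range_one_div_nat_succ_atTop

/-- `√ |r|`. -/
noncomputable def w (r : ℤ) : ℝ := √ |(r : ℝ)|

theorem w_nonneg (r : ℤ) : 0 ≤ w r := Real.sqrt_nonneg _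

theorem sqrt_half_le : √ (1 / 2 : ℝ) ≤ 0.7072 := by
  rw [Real.sqrt_le_left (by norm_num)]; norm_num

theorem sqrt_three_half_le : √ (3 / 2 : ℝ) ≤ 1.2248 := by
  rw [Real.sqrt_le_left (by norm_num)]; norm_num

theorem w_half_le {r a : ℤ} (h : 2 * |(a : ℝ)| ≤ |(r : ℝ)|) : w a ≤ 0.7072 * w r := by
  unfold w
  have h1 : √ |(a : ℝ)| ≤ √ (1 / 2 * |(r : ℝ)|) := Real.sqrt_le_sqrt (by linarith)
  rw [Real.sqrt_mul (by norm_num)] at h1
  have := mul_le_mul_of_nonneg_right sqrt_half_le (Real.sqrt_nonneg |(r : ℝ)|)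
  linarith

theorem sqrt_add_le' {x y : ℝ} (hx : 0 ≤ x) (hy : 0 ≤ y) : √ (x + y) ≤ √ x + √ y := by
  rw [Real.sqrt_le_left (by positivity)]
  nlinarith [Real.sq_sqrt hx, Real.sq_sqrt hy, mul_nonneg (Real.sqrt_nonneg x) (Real.sqrt_nonneg y)]

/-- Growth of `w` under `a = (m r + c) / 2`. -/
theorem w_le {r a : ℤ} {m c : ℝ} (hc : 0 ≤ c) (hm : 0 ≤ m)
    (h : 2 * |(a : ℝ)| ≤ m * |(r : ℝ)| + c) : w a ≤ √ (m / 2) * w r + 0.7072 * √ c := by
  unfold w
  have h1 : √ |(a : ℝ)| ≤ √ (m / 2 * |(r : ℝ)| + 1 / 2 * c) := Real.sqrt_le_sqrt (by linarith)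
  have h2 : √ (m / 2 * |(r : ℝ)| + 1 / 2 * c) ≤ √ (m / 2 * |(r : ℝ)|) + √ (1 / 2 * c) :=
    sqrt_add_le' (by positivity) (by positivity)
  rw [Real.sqrt_mul (by positivity), Real.sqrt_mul (by norm_num)] at h2
  have := mul_le_mul_of_nonneg_right sqrt_half_le (Real.sqrt_nonneg c)
  linarith

theorem lam_rho (i : ℕ) : (11 / 20 : ℝ) ^ i * √ ((3 : ℝ) ^ i) ≤ (24 / 25 : ℝ) ^ i := by
  have h : √ ((3 : ℝ) ^ i) ≤ (96 / 55 : ℝ) ^ i := by
    rw [Real.sqrt_le_left (by positivity), ← pow_mul, mul_comm, pow_mul]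
    exact pow_le_pow_left₀ (by norm_num) (by norm_num) i
  calc (11 / 20 : ℝ) ^ i * √ ((3 : ℝ) ^ i) ≤ (11 / 20 : ℝ) ^ i * (96 / 55 : ℝ) ^ i :=
        mul_le_mul_of_nonneg_left h (by positivity)
    _ = (24 / 25 : ℝ) ^ i := by rw [← mul_pow]; norm_num

/-- The potential. -/
noncomputable def W (s : ℕ × ℤ) : ℝ :=
  g s.1 + (11 / 20 : ℝ) ^ s.1 * w s.2 + (24 / 25 : ℝ) ^ s.1 * H s.1 s.2

theorem W_nonneg (s : ℕ × ℤ) : 0 ≤ W s := by
  unfold W
  have := g_nonneg s.1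
  have := w_nonneg s.2
  positivity

theorem abs_cast_half {a b : ℤ} (h : 2 * a = b) : 2 * |(a : ℝ)| = |(b : ℝ)| := by
  rw [← h]; push_cast; rw [abs_mul]; norm_num

theorem W_even {i : ℕ} (hi : 1 ≤ i) {r : ℤ} (hr : r % 2 = 0) :
    W (step (i, r) false) + W (step (i, r) true) < 2 * W (i, r) := by
  rw [step_ef hr, step_et hr]
  have hodd : Odd ((3 : ℤ) ^ i) := Odd.pow (by decide)
  obtain ⟨m, hm⟩ := hodd
  have h1 : w (r / 2) ≤ 0.7072 * w r := by
    apply w_half_le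
    rw [abs_cast_half (show 2 * (r / 2) = r by omega)]
  have h2 : w ((3 * r + 1 - 3 ^ i) / 2) ≤ 1.2248 * w r + 0.7072 * √ ((3 : ℝ) ^ i) := by
    have h := w_le (r := r) (a := (3 * r + 1 - 3 ^ i) / 2) (m := 3) (c := 3 ^ i) (by positivity)
      (by norm_num) (by
        rw [abs_cast_half (show 2 * ((3 * r + 1 - 3 ^ i) / 2) = 3 * r + 1 - 3 ^ i by rw [hm]; omega)]
        push_cast
        have h3 : (1 : ℝ) ≤ 3 ^ i := one_le_pow₀ (by norm_num)
        rw [abs_le]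
        constructor <;> rcases abs_cases (r : ℝ) with ⟨h, _⟩ | ⟨h, _⟩ <;> rw [h] <;> linarith)
    refine h.trans ?_
    have := mul_le_mul_of_nonneg_right sqrt_three_half_le (w_nonneg r)
    linarith
  have h3 := H_even hi hr
  have h3' : (H i (r / 2) : ℝ) + H i ((3 * r + 1 - 3 ^ i) / 2) + 2 ≤ 2 * H i r := by exact_mod_cast h3
  have h4 := lam_rho i
  have hl : (0 : ℝ) < (11 / 20) ^ i := by positivity
  have hρ : (0 : ℝ) < (24 / 25) ^ i := by positivity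
  have hw := w_nonneg r
  simp only [W]
  have e1 : (11 / 20 : ℝ) ^ i * w (r / 2) ≤ (11 / 20 : ℝ) ^ i * (0.7072 * w r) :=
    mul_le_mul_of_nonneg_left h1 hl.le
  have e2 : (11 / 20 : ℝ) ^ i * w ((3 * r + 1 - 3 ^ i) / 2) ≤
      (11 / 20 : ℝ) ^ i * (1.2248 * w r + 0.7072 * √ ((3 : ℝ) ^ i)) :=
    mul_le_mul_of_nonneg_left h2 hl.le
  have e3 : (24 / 25 : ℝ) ^ i * ((H i (r / 2) : ℝ) + H i ((3 * r + 1 - 3 ^ i) / 2) + 2) ≤
      (24 / 25 : ℝ) ^ i * (2 * H i r) := mul_le_mul_of_nonneg_left h3' hρ.le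
  have e4 : 0 ≤ (11 / 20 : ℝ) ^ i * w r := by positivity
  nlinarith

theorem W_even_zero {r : ℤ} (hr : r % 2 = 0) (h0 : r ≠ 0) :
    W (step (0, r) false) + W (step (0, r) true) < 2 * W (0, r) := by
  rw [step_ef hr, step_et hr]
  have h1 : w (r / 2) ≤ 0.7072 * w r := by
    apply w_half_le
    rw [abs_cast_half (show 2 * (r / 2) = r by omega)]
  have h2 : w ((3 * r + 1 - 3 ^ 0) / 2) ≤ 1.2248 * w r := by
    have h := w_le (r := r) (a := (3 * r + 1 - 3 ^ 0) / 2) (m := 3) (c := 0) (by positivity)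
      (by norm_num) (by
        rw [abs_cast_half (show 2 * ((3 * r + 1 - 3 ^ 0) / 2) = 3 * r by omega)]
        push_cast
        rw [abs_mul]; norm_num)
    refine h.trans ?_
    have := mul_le_mul_of_nonneg_right sqrt_three_half_le (w_nonneg r)
    simp only [Real.sqrt_zero, mul_zero, add_zero]
    linarith
  have hw : 0 < w r := by
    unfold w
    apply Real.sqrt_pos.2
    exact abs_pos.2 (by exact_mod_cast h0)
  simp only [W, H]
  simp
  simp only [pow_zero] at h2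
  have h2' : w ((3 * r + 1 - 1) / 2) ≤ 1.2248 * w r := h2
  have e : (3 * r + 1 - 1) / 2 = 3 * r / 2 := by ring_nf
  rw [e] at h2'
  linarith

theorem W_odd {j : ℕ} {r : ℤ} (hr : r % 2 = 1) :
    W (step (j + 1, r) false) + W (step (j + 1, r) true) ≤ 2 * W (j + 1, r)
      - 1 / (((j : ℝ) + 1) * ((j : ℝ) + 2)) - 0.04 * (11 / 20 : ℝ) ^ (j + 1) * w r
      + (24 / 25 : ℝ) ^ j * (4 * j + 8) := by
  rw [step_sf hr, step_st hr]
  have hodd : Odd ((3 : ℤ) ^ j) := Odd.pow (by decide)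
  obtain ⟨m, hm⟩ := hodd
  have h1 : w ((3 * r + 1) / 2) ≤ 1.2248 * w r + 0.7072 := by
    have h := w_le (r := r) (a := (3 * r + 1) / 2) (m := 3) (c := 1) (by positivity)
      (by norm_num) (by
        rw [abs_cast_half (show 2 * ((3 * r + 1) / 2) = 3 * r + 1 by omega)]
        push_cast
        rw [abs_le]
        constructor <;> rcases abs_cases (r : ℝ) with ⟨h, _⟩ | ⟨h, _⟩ <;> rw [h] <;> linarith)
    refine h.trans ?_
    have := mul_le_mul_of_nonneg_right sqrt_three_half_le (w_nonneg r)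
    rw [Real.sqrt_one]
    linarith
  have h2 : w ((r - 3 ^ j) / 2) ≤ 0.7072 * w r + 0.7072 * √ ((3 : ℝ) ^ j) := by
    have h := w_le (r := r) (a := (r - 3 ^ j) / 2) (m := 1) (c := 3 ^ j) (by positivity)
      (by norm_num) (by
        rw [abs_cast_half (show 2 * ((r - 3 ^ j) / 2) = r - 3 ^ j by rw [hm]; omega)]
        push_cast
        have h3 : (1 : ℝ) ≤ 3 ^ j := one_le_pow₀ (by norm_num)
        rw [abs_le]
        constructor <;> rcases abs_cases (r : ℝ) with ⟨h, _⟩ | ⟨h, _⟩ <;> rw [h] <;> linarith)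
    refine h.trans ?_
    have := mul_le_mul_of_nonneg_right sqrt_half_le (w_nonneg r)
    linarith
  have h4 := lam_rho j
  have hl : (0 : ℝ) < (11 / 20) ^ j := by positivity
  have hl1 : (11 / 20 : ℝ) ^ j ≤ (24 / 25 : ℝ) ^ j := pow_le_pow_left₀ (by norm_num) (by norm_num) j
  have hρ : (0 : ℝ) < (24 / 25) ^ j := by positivity
  have hw := w_nonneg r
  have hH1 : (H (j + 2) ((3 * r + 1) / 2) : ℝ) ≤ 2 * j + 5 := by
    have := H_le (j + 2) ((3 * r + 1) / 2)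
    have h' : (H (j + 2) ((3 * r + 1) / 2) : ℝ) ≤ ((2 * (j + 2) + 1 : ℕ) : ℝ) := by exact_mod_cast this
    push_cast at h'; linarith
  have hH2 : (H j ((r - 3 ^ j) / 2) : ℝ) ≤ 2 * j + 1 := by
    have := H_le j ((r - 3 ^ j) / 2)
    have h' : (H j ((r - 3 ^ j) / 2) : ℝ) ≤ ((2 * j + 1 : ℕ) : ℝ) := by exact_mod_cast this
    push_cast at h'; linarith
  have hH3 : (0 : ℝ) ≤ H (j + 1) r := by positivity
  have hg : g (j + 2) + g j = 2 * g (j + 1) - 1 / (((j : ℝ) + 1) * ((j : ℝ) + 2)) := by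
    have a1 := g_succ (j + 1)
    have a2 := g_succ j
    have e : (1 : ℝ) / (((j : ℝ) + 1) * ((j : ℝ) + 2)) = 1 / ((j : ℝ) + 1) - 1 / ((j : ℝ) + 2) := by
      field_simp; ring
    have e2 : (((j + 1 : ℕ) : ℝ) + 1) = (j : ℝ) + 2 := by push_cast; ring
    rw [e2] at a1
    rw [e, show j + 2 = j + 1 + 1 from rfl, a1]
    linarith
  simp only [W]
  have p2 : (11 / 20 : ℝ) ^ (j + 2) = (11 / 20) ^ j * (121 / 400) := by rw [pow_add]; norm_num
  have p1 : (11 / 20 : ℝ) ^ (j + 1) = (11 / 20) ^ j * (11 / 20) := by rw [pow_succ]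
  have r2 : (24 / 25 : ℝ) ^ (j + 2) = (24 / 25) ^ j * (576 / 625) := by rw [pow_add]; norm_num
  have e1 : (11 / 20 : ℝ) ^ (j + 2) * w ((3 * r + 1) / 2) ≤
      (11 / 20 : ℝ) ^ (j + 2) * (1.2248 * w r + 0.7072) := mul_le_mul_of_nonneg_left h1 (by positivity)
  have e2 : (11 / 20 : ℝ) ^ j * w ((r - 3 ^ j) / 2) ≤
      (11 / 20 : ℝ) ^ j * (0.7072 * w r + 0.7072 * √ ((3 : ℝ) ^ j)) :=
    mul_le_mul_of_nonneg_left h2 hl.le
  have e3 : (24 / 25 : ℝ) ^ (j + 2) * (H (j + 2) ((3 * r + 1) / 2) : ℝ) ≤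
      (24 / 25) ^ j * (2 * j + 5) := by
    rw [r2]
    have : (0 : ℝ) ≤ H (j + 2) ((3 * r + 1) / 2) := by positivity
    nlinarith [mul_nonneg hρ.le this]
  have e4 : (24 / 25 : ℝ) ^ j * (H j ((r - 3 ^ j) / 2) : ℝ) ≤ (24 / 25) ^ j * (2 * j + 1) :=
    mul_le_mul_of_nonneg_left hH2 hρ.le
  have e5 : 0 ≤ (24 / 25 : ℝ) ^ (j + 1) * (H (j + 1) r : ℝ) := by positivity
  have e6 : 0 ≤ (11 / 20 : ℝ) ^ j * w r := by positivity
  rw [p2] at e1 ⊢
  rw [p1]
  nlinarith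

theorem W_odd_zero {r : ℤ} (hr : r % 2 = 1) :
    W (step (0, r) false) + W (step (0, r) true) ≤ 1.35 * w r + 9 := by
  rw [step_0f hr, step_0t hr]
  have h1 : w ((3 * r + 1) / 2) ≤ 1.2248 * w r + 0.7072 := by
    have h := w_le (r := r) (a := (3 * r + 1) / 2) (m := 3) (c := 1) (by positivity)
      (by norm_num) (by
        rw [abs_cast_half (show 2 * ((3 * r + 1) / 2) = 3 * r + 1 by omega)]
        push_cast
        rw [abs_le]
        constructor <;> rcases abs_cases (r : ℝ) with ⟨h, _⟩ | ⟨h, _⟩ <;> rw [h] <;> linarith)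
    refine h.trans ?_
    have := mul_le_mul_of_nonneg_right sqrt_three_half_le (w_nonneg r)
    rw [Real.sqrt_one]
    linarith
  have h2 : w ((1 - 3 * r) / 2) ≤ 1.2248 * w r + 0.7072 := by
    have h := w_le (r := r) (a := (1 - 3 * r) / 2) (m := 3) (c := 1) (by positivity)
      (by norm_num) (by
        rw [abs_cast_half (show 2 * ((1 - 3 * r) / 2) = 1 - 3 * r by omega)]
        push_cast
        rw [abs_le]
        constructor <;> rcases abs_cases (r : ℝ) with ⟨h, _⟩ | ⟨h, _⟩ <;> rw [h] <;> linarith)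
    refine h.trans ?_
    have := mul_le_mul_of_nonneg_right sqrt_three_half_le (w_nonneg r)
    rw [Real.sqrt_one]
    linarith
  have hH1 : (H 1 ((3 * r + 1) / 2) : ℝ) ≤ 3 := by exact_mod_cast H_le 1 ((3 * r + 1) / 2)
  have hH2 : (H 1 ((1 - 3 * r) / 2) : ℝ) ≤ 3 := by exact_mod_cast H_le 1 ((1 - 3 * r) / 2)
  have hg : g 1 = 1 := by rw [g_succ]; simp [g]
  have hw := w_nonneg r
  simp only [W, hg, pow_one]
  linarith

theorem exists_J : ∃ J : ℕ, ∀ j : ℕ, J ≤ j →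
    (24 / 25 : ℝ) ^ j * (4 * j + 8) < 1 / (((j : ℝ) + 1) * ((j : ℝ) + 2)) := by
  have h := tendsto_pow_const_mul_const_pow_of_abs_lt_one 3 (r := (24 / 25 : ℝ))
    (by rw [abs_of_nonneg] <;> norm_num)
  have h' : Filter.Tendsto (fun j : ℕ => ((j + 2 : ℕ) : ℝ) ^ 3 * (24 / 25 : ℝ) ^ (j + 2))
      Filter.atTop (nhds 0) := h.comp (Filter.tendsto_add_atTop_nat 2)
  have h2 := h'.eventually (gt_mem_nhds (show (0 : ℝ) < 1 / 5 by norm_num))
  obtain ⟨J, hJ⟩ := Filter.eventually_atTop.1 h2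
  refine ⟨J, fun j hj => ?_⟩
  have h3 := hJ j hj
  rw [lt_div_iff₀ (by positivity)]
  have h4 : (24 / 25 : ℝ) ^ (j + 2) = (24 / 25) ^ j * (576 / 625) := by rw [pow_add]; norm_num
  rw [h4] at h3
  push_cast at h3
  have h5 : (0 : ℝ) < (24 / 25) ^ j := by positivity
  have h6 : (4 * (j : ℝ) + 8) * (((j : ℝ) + 1) * ((j : ℝ) + 2)) ≤ 4 * ((j : ℝ) + 2) ^ 3 := by
    have : (0 : ℝ) ≤ j := by positivity
    nlinarith [sq_nonneg ((j : ℝ) + 2)]
  calc (24 / 25 : ℝ) ^ j * (4 * j + 8) * (((j : ℝ) + 1) * ((j : ℝ) + 2))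
      = (24 / 25 : ℝ) ^ j * ((4 * (j : ℝ) + 8) * (((j : ℝ) + 1) * ((j : ℝ) + 2))) := by ring
    _ ≤ (24 / 25 : ℝ) ^ j * (4 * ((j : ℝ) + 2) ^ 3) := mul_le_mul_of_nonneg_left h6 h5.le
    _ < 1 := by nlinarith

theorem W_finite (M : ℝ) : {s : ℕ × ℤ | W s ≤ M}.Finite := by
  obtain ⟨I, hI⟩ := (Filter.tendsto_atTop.1 g_tendsto (M + 1)).exists_forall_of_atTop
  obtain ⟨B, hB⟩ := exists_nat_ge ((M / (11 / 20 : ℝ) ^ I) ^ 2)
  refine Set.Finite.subset ((Set.finite_Iic I).prod (Set.finite_Icc (-(B : ℤ)) B)) ?_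
  rintro ⟨i, r⟩ hs
  simp only [Set.mem_setOf_eq, W] at hs
  have hg := g_nonneg i
  have hw := w_nonneg r
  have hH : 0 ≤ (24 / 25 : ℝ) ^ i * (H i r : ℝ) := by positivity
  have hlw : 0 ≤ (11 / 20 : ℝ) ^ i * w r := by positivity
  have hi : i ≤ I := by
    by_contra hcon
    push Not at hcon
    have := hI i hcon.le
    linarith
  refine Set.mem_prod.2 ⟨hi, ?_⟩
  have h1 : (11 / 20 : ℝ) ^ I * w r ≤ M := by
    have h2 : (11 / 20 : ℝ) ^ I ≤ (11 / 20) ^ i := pow_le_pow_of_le_one (by norm_num) (by norm_num) hi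
    have := mul_le_mul_of_nonneg_right h2 hw
    linarith
  have h2 : w r ≤ M / (11 / 20 : ℝ) ^ I := by
    rw [le_div_iff₀ (by positivity)]; linarith
  have h3 : |(r : ℝ)| ≤ (M / (11 / 20 : ℝ) ^ I) ^ 2 := by
    have e : |(r : ℝ)| = w r ^ 2 := (Real.sq_sqrt (abs_nonneg _)).symm
    rw [e]; exact pow_le_pow_left₀ hw h2 2
  have h4 : |(r : ℝ)| ≤ B := h3.trans hB
  have h5 : |r| ≤ (B : ℤ) := by exact_mod_cast h4
  exact Set.mem_Icc.2 (abs_le.1 h5)

theorem W_drift : ∃ F : Set (ℕ × ℤ), F.Finite ∧ ∀ s, s ∉ F → s ≠ (0, 0) →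
    W (step s false) + W (step s true) < 2 * W s := by
  obtain ⟨J, hJ⟩ := exists_J
  set K : ℝ := (4 * J + 8) / (0.04 * (11 / 20 : ℝ) ^ (J + 1)) with hK
  obtain ⟨B, hB⟩ := exists_nat_ge (K ^ 2)
  refine ⟨(Set.Iic (J + 1)) ×ˢ (Set.Icc (-(B : ℤ)) B),
    (Set.finite_Iic (J + 1)).prod (Set.finite_Icc (-(B : ℤ)) B), ?_⟩
  rintro ⟨i, r⟩ hF h0
  have hK0 : 200 ≤ K := by
    rw [hK, le_div_iff₀ (by positivity)]
    have h1 : (11 / 20 : ℝ) ^ (J + 1) ≤ 1 := pow_le_one₀ (by norm_num) (by norm_num)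
    have : (0 : ℝ) ≤ J := by positivity
    linarith
  rcases Int.emod_two_eq_zero_or_one r with hr | hr
  · rcases Nat.eq_zero_or_pos i with rfl | hi
    · exact W_even_zero hr (fun h => h0 (by rw [h]))
    · exact W_even hi hr
  · -- odd
    by_cases hi : i ≤ J + 1
    · have hr2 : ¬ (r ∈ Set.Icc (-(B : ℤ)) B) := fun h => hF (Set.mem_prod.2 ⟨hi, h⟩)
      have hr3 : (B : ℝ) < |(r : ℝ)| := by
        have : (B : ℤ) < |r| := by
          by_contra hcon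
          push Not at hcon
          exact hr2 (Set.mem_Icc.2 (abs_le.1 hcon))
        exact_mod_cast this
      have hw : K < w r := by
        unfold w
        rw [Real.lt_sqrt (by linarith)]
        linarith
      rcases i with _ | j
      · have h := W_odd_zero hr
        have hW : w r ≤ W (0, r) := by
          simp only [W]
          have := g_nonneg 0
          have : (0 : ℝ) ≤ H 0 r := by positivity
          simp only [pow_zero, one_mul]; linarith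
        linarith
      · have h := W_odd (j := j) hr
        have h1 : (24 / 25 : ℝ) ^ j * (4 * j + 8) ≤ 4 * J + 8 := by
          have a1 : (24 / 25 : ℝ) ^ j ≤ 1 := pow_le_one₀ (by norm_num) (by norm_num)
          have a2 : (j : ℝ) ≤ J := by exact_mod_cast (by omega : j ≤ J)
          have a3 : (0 : ℝ) ≤ j := by positivity
          nlinarith
        have h2 : 4 * J + 8 < 0.04 * (11 / 20 : ℝ) ^ (j + 1) * w r := by
          have a1 : (11 / 20 : ℝ) ^ (J + 1) ≤ (11 / 20) ^ (j + 1) :=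
            pow_le_pow_of_le_one (by norm_num) (by norm_num) (by omega)
          have a2 : 4 * J + 8 = 0.04 * (11 / 20 : ℝ) ^ (J + 1) * K := by
            rw [hK]; field_simp
          have a3 : (0 : ℝ) < 0.04 * (11 / 20 : ℝ) ^ (J + 1) := by positivity
          have a4 : 0.04 * (11 / 20 : ℝ) ^ (J + 1) * K < 0.04 * (11 / 20 : ℝ) ^ (J + 1) * w r :=
            mul_lt_mul_of_pos_left hw a3
          have a5 := w_nonneg r
          have a6 : 0.04 * (11 / 20 : ℝ) ^ (J + 1) * w r ≤ 0.04 * (11 / 20 : ℝ) ^ (j + 1) * w r := by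
            apply mul_le_mul_of_nonneg_right _ a5
            linarith
          linarith
        have h3 : (0 : ℝ) < 1 / (((j : ℝ) + 1) * ((j : ℝ) + 2)) := by positivity
        linarith
    · obtain ⟨j, rfl⟩ : ∃ j, i = j + 1 := ⟨i - 1, by omega⟩
      have h := W_odd (j := j) hr
      have h1 := hJ j (by omega)
      have h2 : 0 ≤ 0.04 * (11 / 20 : ℝ) ^ (j + 1) * w r := by
        have := w_nonneg r
        positivity
      linarith

/-- From every state the pair coalesces with probability one. -/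
theorem q_lim (s : ℕ × ℤ) : Filter.Tendsto (fun k => q step (0, 0) k s) Filter.atTop (nhds 0) := by
  obtain ⟨F, hF, hd⟩ := W_drift
  exact q_tendsto step (0, 0) W F hF W_nonneg W_finite hd (fun s => reach_all s.1 s.2) s

end Pool.Agent.H499R2.CO
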