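import Mathlib
import Pool.Agent.H33.G.R_seed8.H499R2.CO.C

set_option autoImplicit false

namespace Pool.Agent.H499R2.CO

open Finset

/-! From the chain to the integers. -/

/-- The `3x+d` map. -/
def Tz (d x : ℤ) : ℤ := if x % 2 = 0 then x / 2 else (3 * x + d) / 2

/-- The new smaller partner of the pair `x`, `3 ^ i x + d r`. -/
def nx (d : ℤ) (s : ℕ × ℤ) (x : ℤ) : ℤ :=
  if s.1 = 0 ∧ s.2 % 2 = 1 ∧ x % 2 = 1 then (x + d * s.2) / 2 else Tz d x

/-- The pair has not coalesced within `k` steps. -/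
def surv (d : ℤ) : ℕ → ℕ × ℤ → ℤ → Prop
  | 0, s, _ => s ≠ (0, 0)
  | k + 1, s, x => s ≠ (0, 0) ∧ surv d k (step s (decide (x % 2 = 1))) (nx d s x)

theorem surv_succ (d : ℤ) (k : ℕ) (s : ℕ × ℤ) (x : ℤ) :
    surv d (k + 1) s x ↔ s ≠ (0, 0) ∧ surv d k (step s (decide (x % 2 = 1))) (nx d s x) := Iff.rfl

theorem odd3 (i : ℕ) : ((3 : ℤ) ^ i) % 2 = 1 := by
  have h : Odd ((3 : ℤ) ^ i) := Odd.pow (by decide)
  obtain ⟨m, hm⟩ := h
  omega

theorem odd_mul {a b : ℤ} (ha : a % 2 = 1) (hb : b % 2 = 1) : (a * b) % 2 = 1 := by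
  rw [Int.mul_emod, ha, hb]; norm_num

theorem even_mul {a b : ℤ} (hb : b % 2 = 0) : (a * b) % 2 = 0 := by
  rw [Int.mul_emod, hb]; norm_num

/-- One step of the pair. -/
theorem pair_step {d : ℤ} (hd : d % 2 = 1) (i : ℕ) (r x : ℤ) :
    (nx d (i, r) x = Tz d x ∧
      (3 : ℤ) ^ (step (i, r) (decide (x % 2 = 1))).1 * Tz d x + d * (step (i, r) (decide (x % 2 = 1))).2
        = Tz d (3 ^ i * x + d * r) ∧
      ((step (i, r) (decide (x % 2 = 1))).1 : ℤ) = i + (3 ^ i * x + d * r) % 2 - x % 2) ∨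
    (nx d (i, r) x = Tz d (3 ^ i * x + d * r) ∧
      (3 : ℤ) ^ (step (i, r) (decide (x % 2 = 1))).1 * Tz d (3 ^ i * x + d * r)
        + d * (step (i, r) (decide (x % 2 = 1))).2 = Tz d x ∧
      i = 0 ∧ (step (i, r) (decide (x % 2 = 1))).1 = 1 ∧ x % 2 = 1 ∧ (3 ^ i * x + d * r) % 2 = 0) := by
  obtain ⟨e, he⟩ : ∃ e, d = 2 * e + 1 := ⟨d / 2, by omega⟩
  obtain ⟨p, hp⟩ : ∃ p, (3 : ℤ) ^ i = 2 * p + 1 := ⟨3 ^ i / 2, by have := odd3 i; omega⟩
  rcases Int.emod_two_eq_zero_or_one r with hr | hr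
  · -- `r` even
    obtain ⟨a, ha⟩ : ∃ a, r = 2 * a := ⟨r / 2, by omega⟩
    rcases Int.emod_two_eq_zero_or_one x with hx | hx
    · obtain ⟨u, hu⟩ : ∃ u, x = 2 * u := ⟨x / 2, by omega⟩
      left
      have h1 : decide (x % 2 = 1) = false := by simp [hx]
      have hy : (3 ^ i * x + d * r) = 2 * (3 ^ i * u + d * a) := by rw [hu, ha]; ring
      rw [h1, step_ef hr]
      refine ⟨by simp [nx, hr], ?_, ?_⟩
      · simp only [Tz]
        rw [if_pos hx, if_pos (by omega), hy]
        have e1 : x / 2 = u := by omega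
        have e2 : r / 2 = a := by omega
        have e3 : 2 * (3 ^ i * u + d * a) / 2 = 3 ^ i * u + d * a := by omega
        rw [e1, e2, e3]
      · simp only; omega
    · obtain ⟨u, hu⟩ : ∃ u, x = 2 * u + 1 := ⟨x / 2, by omega⟩
      left
      have h1 : decide (x % 2 = 1) = true := by simp [hx]
      have hy : (3 ^ i * x + d * r) = 2 * (3 ^ i * u + d * a + p) + 1 := by rw [hu, ha]; rw [hp]; ring
      rw [h1, step_et hr]
      refine ⟨by simp [nx, hr], ?_, ?_⟩
      · simp only [Tz]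
        rw [if_neg (by omega), if_neg (by omega)]
        have e1 : (3 * x + d) / 2 = 3 * u + 2 + e := by rw [hu, he]; omega
        have e2 : (3 * r + 1 - 3 ^ i) / 2 = 3 * a - p := by rw [ha, hp]; omega
        have e3 : (3 * (3 ^ i * x + d * r) + d) / 2 = 3 * (3 ^ i * u + d * a + p) + 2 + e := by
          rw [hy, he]; omega
        rw [e1, e2, e3, he, hp]; ring
      · simp only; omega
  · obtain ⟨a, ha⟩ : ∃ a, r = 2 * a + 1 := ⟨r / 2, by omega⟩
    rcases Int.emod_two_eq_zero_or_one x with hx | hx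
    · obtain ⟨u, hu⟩ : ∃ u, x = 2 * u := ⟨x / 2, by omega⟩
      left
      have h1 : decide (x % 2 = 1) = false := by simp [hx]
      have hy : (3 ^ i * x + d * r) = 2 * (3 ^ i * u + d * a + e) + 1 := by rw [hu, ha, he]; ring
      have hst : step (i, r) false = (i + 1, (3 * r + 1) / 2) := by
        rcases i with _ | i
        · exact step_0f hr
        · exact step_sf hr
      rw [h1, hst]
      refine ⟨?_, ?_, ?_⟩
      · simp [nx, hx]
      · simp only [Tz]
        rw [if_pos hx, if_neg (by omega)]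
        have e1 : x / 2 = u := by omega
        have e2 : (3 * r + 1) / 2 = 3 * a + 2 := by rw [ha]; omega
        have e3 : (3 * (3 ^ i * x + d * r) + d) / 2 = 3 * (3 ^ i * u + d * a + e) + 2 + e := by
          rw [hy, he]; omega
        rw [e1, e2, e3, he, pow_succ]; ring
      · simp only; push_cast; omega
    · obtain ⟨u, hu⟩ : ∃ u, x = 2 * u + 1 := ⟨x / 2, by omega⟩
      have h1 : decide (x % 2 = 1) = true := by simp [hx]
      have hy : (3 ^ i * x + d * r) = 2 * (3 ^ i * u + d * a + e + p + 1) := by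
        rw [hu, ha, hp, he]; ring
      rcases i with _ | j
      · right
        rw [h1, step_0t hr]
        have hp0 : p = 0 := by simp at hp; omega
        have hy' : 3 ^ 0 * x + d * r = 2 * (u + d * a + e + 1) := by rw [hy, hp0]; ring
        refine ⟨?_, ?_, rfl, rfl, hx, by omega⟩
        · simp only [nx, Tz, true_and]
          rw [if_pos ⟨hr, hx⟩, if_pos (by omega)]
          simp
        · simp only [Tz]
          rw [if_pos (by omega), if_neg (by omega)]
          have e1 : (3 * x + d) / 2 = 3 * u + 2 + e := by rw [hu, he]; omega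
          have e2 : (1 - 3 * r) / 2 = -3 * a - 1 := by rw [ha]; omega
          have e3 : (3 ^ 0 * x + d * r) / 2 = u + d * a + e + 1 := by rw [hy']; omega
          rw [e1, e2, e3, he]; ring
      · left
        rw [h1, step_st hr]
        obtain ⟨c, hc⟩ : ∃ c, (3 : ℤ) ^ j = 2 * c + 1 := ⟨3 ^ j / 2, by have := odd3 j; omega⟩
        refine ⟨by simp [nx], ?_, ?_⟩
        · simp only [Tz]
          rw [if_neg (by omega), if_pos (by omega)]
          have e1 : (3 * x + d) / 2 = 3 * u + 2 + e := by rw [hu, he]; omega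
          have e2 : (r - 3 ^ j) / 2 = a - c := by rw [ha, hc]; omega
          have e3 : (3 ^ (j + 1) * x + d * r) / 2 = 3 ^ (j + 1) * u + d * a + e + p + 1 := by rw [hy]; omega
          have hpc : p = 3 * c + 1 := by rw [pow_succ, hc] at hp; omega
          rw [e1, e2, e3, hpc, he, pow_succ, hc]; ring
        · simp only; push_cast; omega

/-- If the pair does not survive, the trajectories coalesce. -/
theorem coal {d : ℤ} (hd : d % 2 = 1) : ∀ (k i : ℕ) (r x : ℤ), ¬ surv d k (i, r) x →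
    ∃ t ≤ k, (Tz d)^[t] x = (Tz d)^[t] (3 ^ i * x + d * r) := by
  intro k
  induction k with
  | zero =>
    intro i r x h
    simp only [surv, ne_eq, not_not, Prod.mk.injEq] at h
    obtain ⟨rfl, rfl⟩ := h
    exact ⟨0, le_rfl, by simp⟩
  | succ k ih =>
    intro i r x h
    by_cases h0 : (i, r) = ((0 : ℕ), (0 : ℤ))
    · rw [Prod.mk.injEq] at h0
      obtain ⟨rfl, rfl⟩ := h0
      exact ⟨0, by omega, by simp⟩
    · have h' : ¬ surv d k (step (i, r) (decide (x % 2 = 1))) (nx d (i, r) x) := by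
        intro h2; exact h ⟨h0, h2⟩
      rcases pair_step hd i r x with ⟨e1, e2, _⟩ | ⟨e1, e2, _⟩
      · rw [e1] at h'
        obtain ⟨t, ht, hh⟩ := ih (step (i, r) (decide (x % 2 = 1))).1 (step (i, r) (decide (x % 2 = 1))).2 _ h'
        rw [e2] at hh
        exact ⟨t + 1, by omega, hh⟩
      · rw [e1] at h'
        obtain ⟨t, ht, hh⟩ := ih (step (i, r) (decide (x % 2 = 1))).1 (step (i, r) (decide (x % 2 = 1))).2 _ h'
        rw [e2] at hh
        exact ⟨t + 1, by omega, hh.symm⟩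

/-- The Collatz map. -/
def Cz (x : ℤ) : ℤ := if x % 2 = 0 then x / 2 else 3 * x + 1

theorem Cz_even {x : ℤ} (h : x % 2 = 0) : Cz^[1] x = Tz 1 x := by
  simp [Cz, Tz, h]

theorem Cz_odd {x : ℤ} (h : x % 2 = 1) : Cz^[2] x = Tz 1 x := by
  have h1 : Cz x = 3 * x + 1 := by simp [Cz, h]
  have h2 : (3 * x + 1) % 2 = 0 := by omega
  simp only [Function.iterate_succ, Function.iterate_zero, Function.comp, id, h1, Tz]
  rw [if_neg (by omega)]
  simp [Cz, h2]

theorem Cz_T (x : ℤ) : Cz^[(1 + x % 2).toNat] x = Tz 1 x := by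
  rcases Int.emod_two_eq_zero_or_one x with h | h
  · rw [h]; exact Cz_even h
  · rw [h]; exact Cz_odd h

/-- Coalescence for the Collatz map. -/
theorem coalC : ∀ (k i : ℕ) (r x : ℤ), ¬ surv 1 k (i, r) x →
    ∃ a b : ℕ, a ≤ 2 * k ∧ b ≤ 2 * k ∧ a = b + i ∧ Cz^[a] x = Cz^[b] (3 ^ i * x + r) := by
  intro k
  induction k with
  | zero =>
    intro i r x h
    simp only [surv, ne_eq, not_not, Prod.mk.injEq] at h
    obtain ⟨rfl, rfl⟩ := h
    exact ⟨0, 0, le_rfl, le_rfl, rfl, by simp⟩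
  | succ k ih =>
    intro i r x h
    by_cases h0 : (i, r) = ((0 : ℕ), (0 : ℤ))
    · rw [Prod.mk.injEq] at h0
      obtain ⟨rfl, rfl⟩ := h0
      exact ⟨0, 0, by omega, by omega, rfl, by simp⟩
    · have h' : ¬ surv 1 k (step (i, r) (decide (x % 2 = 1))) (nx 1 (i, r) x) := by
        intro h2; exact h ⟨h0, h2⟩
      have hx := Cz_T x
      have hy := Cz_T (3 ^ i * x + r)
      have m1 : x % 2 = 0 ∨ x % 2 = 1 := Int.emod_two_eq_zero_or_one x
      have m2 : (3 ^ i * x + r) % 2 = 0 ∨ (3 ^ i * x + r) % 2 = 1 := Int.emod_two_eq_zero_or_one _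
      rcases pair_step (d := 1) (by norm_num) i r x with ⟨e1, e2, e3⟩ | ⟨e1, e2, e3, e4, e5, e6⟩
      · rw [e1] at h'
        rw [one_mul, one_mul] at e2
        rw [one_mul] at e3
        obtain ⟨a, b, ha, hb, hab, hh⟩ := ih (step (i, r) (decide (x % 2 = 1))).1 (step (i, r) (decide (x % 2 = 1))).2 _ h'
        rw [e2, ← hx, ← hy, ← Function.iterate_add_apply, ← Function.iterate_add_apply] at hh
        exact ⟨_, _, by omega, by omega, by omega, hh⟩
      · rw [e1] at h'
        rw [one_mul] at h' e2 e6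
        rw [one_mul] at e2
        obtain ⟨a, b, ha, hb, hab, hh⟩ := ih (step (i, r) (decide (x % 2 = 1))).1 (step (i, r) (decide (x % 2 = 1))).2 _ h'
        rw [e2, ← hx, ← hy, ← Function.iterate_add_apply, ← Function.iterate_add_apply] at hh
        exact ⟨_, _, by omega, by omega, by omega, hh.symm⟩

end Pool.Agent.H499R2.CO
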