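import Mathlib
import Pool.Agent.H33.G.R_seed8.H499R2.CO.E

set_option autoImplicit false

namespace Pool.Agent.H499R2.CO

open Finset Filter Topology

/-! Almost all `n` coalesce with `n + h`. -/

theorem exists_k (h : ℤ) {ε : ℝ} (hε : 0 < ε) : ∃ k0 : ℕ, ∀ k ≥ k0, q step (0, 0) k (0, h) ≤ ε := by
  have h1 := (q_lim (0, h)).eventually (gt_mem_nhds hε)
  obtain ⟨k0, hk⟩ := eventually_atTop.1 h1
  exact ⟨k0, fun k hk' => (hk k hk').le⟩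

open Classical in
theorem coalT_count {d : ℤ} (hd : d % 2 = 1) (h : ℤ) {ε : ℝ} (hε : 0 < ε) : ∃ k : ℕ, ∀ N : ℕ,
    (#{n ∈ Icc 1 N | ¬ ∃ t ≤ k, (Tz d)^[t] ((n : ℕ) : ℤ) = (Tz d)^[t] ((n : ℤ) + d * h)} : ℝ) ≤
      ε * (N + 2 ^ k + 1) := by
  obtain ⟨k, hk⟩ := exists_k h hε
  refine ⟨k, fun N => ?_⟩
  have h1 := count_le hd k (0, h) N
  have h2 : (#{n ∈ Icc 1 N | ¬ ∃ t ≤ k, (Tz d)^[t] ((n : ℕ) : ℤ) = (Tz d)^[t] ((n : ℤ) + d * h)} : ℝ) ≤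
      #{n ∈ Icc 1 N | surv d k (0, h) ((n : ℕ) : ℤ)} := by
    have : #{n ∈ Icc 1 N | ¬ ∃ t ≤ k, (Tz d)^[t] ((n : ℕ) : ℤ) = (Tz d)^[t] ((n : ℤ) + d * h)} ≤
      #{n ∈ Icc 1 N | surv d k (0, h) ((n : ℕ) : ℤ)} := by
      apply card_le_card
      intro n hn
      rw [mem_filter] at hn ⊢
      refine ⟨hn.1, ?_⟩
      by_contra hcon
      apply hn.2
      have := coal hd k 0 h n hcon
      simpa using this
    exact_mod_cast this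
  have h3 := hk k le_rfl
  have h4 : ((N : ℝ) + 2 ^ k + 1) * q step (0, 0) k (0, h) ≤ ε * (N + 2 ^ k + 1) := by
    rw [mul_comm]
    exact mul_le_mul_of_nonneg_right h3 (by positivity)
  linarith

open Classical in
theorem coalC_count (h : ℤ) {ε : ℝ} (hε : 0 < ε) : ∃ k : ℕ, ∀ N : ℕ,
    (#{n ∈ Icc 1 N | ¬ ∃ t ≤ k, Cz^[t] ((n : ℕ) : ℤ) = Cz^[t] ((n : ℤ) + h)} : ℝ) ≤
      ε * (N + 2 ^ k + 1) := by
  obtain ⟨k, hk⟩ := exists_k h hε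
  refine ⟨2 * k, fun N => ?_⟩
  have h1 := count_le (d := 1) (by norm_num) k (0, h) N
  have h2 : (#{n ∈ Icc 1 N | ¬ ∃ t ≤ 2 * k, Cz^[t] ((n : ℕ) : ℤ) = Cz^[t] ((n : ℤ) + h)} : ℝ) ≤
      #{n ∈ Icc 1 N | surv 1 k (0, h) ((n : ℕ) : ℤ)} := by
    have : #{n ∈ Icc 1 N | ¬ ∃ t ≤ 2 * k, Cz^[t] ((n : ℕ) : ℤ) = Cz^[t] ((n : ℤ) + h)} ≤
      #{n ∈ Icc 1 N | surv 1 k (0, h) ((n : ℕ) : ℤ)} := by
      apply card_le_card
      intro n hn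
      rw [mem_filter] at hn ⊢
      refine ⟨hn.1, ?_⟩
      by_contra hcon
      apply hn.2
      obtain ⟨a, b, ha, hb, hab, hh⟩ := coalC k 0 h n hcon
      refine ⟨a, ha, ?_⟩
      rw [add_zero] at hab
      subst hab
      simpa using hh
    exact_mod_cast this
  have h3 := hk k le_rfl
  have h4 : ((N : ℝ) + 2 ^ k + 1) * q step (0, 0) k (0, h) ≤ ε * (N + 2 ^ (2 * k) + 1) := by
    have hp : (2 : ℝ) ^ k ≤ 2 ^ (2 * k) := pow_le_pow_right₀ (by norm_num) (by omega)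
    calc ((N : ℝ) + 2 ^ k + 1) * q step (0, 0) k (0, h) ≤ ((N : ℝ) + 2 ^ k + 1) * ε :=
          mul_le_mul_of_nonneg_left h3 (by positivity)
      _ ≤ ε * (N + 2 ^ (2 * k) + 1) := by
          rw [mul_comm]
          exact mul_le_mul_of_nonneg_left (by linarith) hε.le
  linarith

/-- A counting criterion for natural density one. -/
theorem density_one (P : ℕ → Prop) [DecidablePred P]
    (hP : ∀ ε : ℝ, 0 < ε → ∃ C : ℝ, ∀ N : ℕ, (#{n ∈ Icc 1 N | ¬ P n} : ℝ) ≤ ε * N + C) :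
    Tendsto (fun N : ℕ => (#{n ∈ Icc 1 N | P n} : ℝ) / N) atTop (𝓝 1) := by
  have hle : ∀ N : ℕ, (#{n ∈ Icc 1 N | P n} : ℝ) / N ≤ 1 := by
    intro N
    apply div_le_one_of_le₀ _ (by positivity)
    have : #{n ∈ Icc 1 N | P n} ≤ N := by
      refine (card_filter_le _ _).trans ?_
      simp
    exact_mod_cast this
  rw [Metric.tendsto_atTop]
  intro ε hε
  obtain ⟨C, hC⟩ := hP (ε / 2) (by positivity)
  obtain ⟨N0, hN0⟩ := exists_nat_gt (2 * |C| / ε + 1)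
  refine ⟨N0, fun N hN => ?_⟩
  have hNr : 2 * |C| / ε + 1 < N := lt_of_lt_of_le hN0 (by exact_mod_cast hN)
  have hNpos : (0 : ℝ) < N := lt_of_le_of_lt (by positivity) hNr
  have h1 : #{n ∈ Icc 1 N | P n} + #{n ∈ Icc 1 N | ¬ P n} = N := by
    rw [card_filter_add_card_filter_not]; simp
  have h2 : (#{n ∈ Icc 1 N | P n} : ℝ) + #{n ∈ Icc 1 N | ¬ P n} = N := by exact_mod_cast h1
  have h3 := hC N
  have h4 : |C| < ε / 2 * N := by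
    have : 2 * |C| / ε < N := by linarith
    rw [div_lt_iff₀ hε] at this
    linarith
  have h5 : 1 - ε < (#{n ∈ Icc 1 N | P n} : ℝ) / N := by
    rw [lt_div_iff₀ hNpos]
    have := le_abs_self C
    nlinarith
  rw [Real.dist_eq, abs_lt]
  constructor
  · linarith
  · have := hle N; linarith

open Classical in
/-- GAO'S QUESTION, for every shift. -/
theorem gao (h : ℤ) :
    Tendsto (fun N : ℕ => (#{n ∈ Icc 1 N | ∃ t, 1 ≤ t ∧ 2 ^ t ≤ n ∧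
      Cz^[t] ((n : ℕ) : ℤ) = Cz^[t] ((n : ℤ) + h)} : ℝ) / N) atTop (𝓝 1) := by
  apply density_one
  intro ε hε
  obtain ⟨k, hk⟩ := coalC_count h hε
  refine ⟨ε * (2 ^ k + 1) + 2 ^ (k + 1), fun N => ?_⟩
  have h1 : #{n ∈ Icc 1 N | ¬ ∃ t, 1 ≤ t ∧ 2 ^ t ≤ n ∧ Cz^[t] ((n : ℕ) : ℤ) = Cz^[t] ((n : ℤ) + h)} ≤
      #{n ∈ Icc 1 N | ¬ ∃ t ≤ k, Cz^[t] ((n : ℕ) : ℤ) = Cz^[t] ((n : ℤ) + h)} + 2 ^ (k + 1) := by
    have hsub : ({n ∈ Icc 1 N | ¬ ∃ t, 1 ≤ t ∧ 2 ^ t ≤ n ∧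
        Cz^[t] ((n : ℕ) : ℤ) = Cz^[t] ((n : ℤ) + h)} : Finset ℕ) ⊆
        {n ∈ Icc 1 N | ¬ ∃ t ≤ k, Cz^[t] ((n : ℕ) : ℤ) = Cz^[t] ((n : ℤ) + h)} ∪ range (2 ^ (k + 1)) := by
      intro n hn
      rw [mem_filter] at hn
      rw [mem_union, mem_filter, mem_range]
      by_cases hnk : n < 2 ^ (k + 1)
      · exact Or.inr hnk
      · left
        refine ⟨hn.1, ?_⟩
        rintro ⟨t, ht, hh⟩
        apply hn.2
        refine ⟨t + 1, by omega, ?_, ?_⟩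
        · calc 2 ^ (t + 1) ≤ 2 ^ (k + 1) := Nat.pow_le_pow_right (by norm_num) (by omega)
            _ ≤ n := by omega
        · rw [Function.iterate_succ_apply', Function.iterate_succ_apply', hh]
    refine (card_le_card hsub).trans ((card_union_le _ _).trans ?_)
    rw [card_range]
  have h2 : (#{n ∈ Icc 1 N | ¬ ∃ t, 1 ≤ t ∧ 2 ^ t ≤ n ∧
      Cz^[t] ((n : ℕ) : ℤ) = Cz^[t] ((n : ℤ) + h)} : ℝ) ≤
      #{n ∈ Icc 1 N | ¬ ∃ t ≤ k, Cz^[t] ((n : ℕ) : ℤ) = Cz^[t] ((n : ℤ) + h)} + 2 ^ (k + 1) := by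
    exact_mod_cast h1
  have h3 := hk N
  linarith

end Pool.Agent.H499R2.CO
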