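import Mathlib
import Pool.Agent.H33.G.R_seed8.H499R2.CO.F

set_option autoImplicit false

namespace Pool.Agent.H499R2.CO

open Finset Filter Topology

/-! The positive integers. -/

/-- The Collatz map on the natural numbers. -/
def Cn (n : ℕ) : ℕ := if n % 2 = 0 then n / 2 else 3 * n + 1

theorem Cz_cast (n : ℕ) : Cz (n : ℤ) = ((Cn n : ℕ) : ℤ) := by
  unfold Cz Cn
  rcases Nat.mod_two_eq_zero_or_one n with h | h
  · rw [if_pos h, if_pos (by omega)]; omega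
  · rw [if_neg (by omega), if_neg (by omega)]; push_cast; ring

theorem Cz_iter_cast (k : ℕ) : ∀ n : ℕ, Cz^[k] (n : ℤ) = ((Cn^[k] n : ℕ) : ℤ) := by
  induction k with
  | zero => intro n; rfl
  | succ k ih =>
    intro n
    rw [Function.iterate_succ_apply, Function.iterate_succ_apply, Cz_cast, ih]

open Classical in
theorem gao_count (h : ℕ) {ε : ℝ} (hε : 0 < ε) : ∃ k : ℕ, ∀ N : ℕ,
    (#{n ∈ Icc 1 N | ¬ ∃ t ≤ k, Cn^[t] n = Cn^[t] (n + h)} : ℝ) ≤ ε * (N + 2 ^ k + 1) := by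
  obtain ⟨k, hk⟩ := coalC_count h hε
  refine ⟨k, fun N => ?_⟩
  have := hk N
  have e : ∀ n : ℕ, (∃ t ≤ k, Cn^[t] n = Cn^[t] (n + h)) ↔
      (∃ t ≤ k, Cz^[t] ((n : ℕ) : ℤ) = Cz^[t] ((n : ℤ) + h)) := by
    intro n
    have h1 : ((n : ℤ) + h) = ((n + h : ℕ) : ℤ) := by push_cast; ring
    rw [h1]
    simp only [Cz_iter_cast, Nat.cast_inj]
  simp only [e]
  exact this

open Classical in
theorem gao_f (h : ℕ) (f : ℕ → ℝ) (hf : Tendsto f atTop atTop) :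
    Tendsto (fun N : ℕ => (#{n ∈ Icc 1 N | ∃ t : ℕ, 1 ≤ t ∧ (t : ℝ) ≤ f n ∧
      Cn^[t] n = Cn^[t] (n + h)} : ℝ) / N) atTop (𝓝 1) := by
  apply density_one
  intro ε hε
  obtain ⟨k, hk⟩ := gao_count h hε
  obtain ⟨n0, hn0⟩ := eventually_atTop.1 (tendsto_atTop.1 hf (k + 1))
  refine ⟨ε * (2 ^ k + 1) + n0, fun N => ?_⟩
  have h1 : #{n ∈ Icc 1 N | ¬ ∃ t : ℕ, 1 ≤ t ∧ (t : ℝ) ≤ f n ∧ Cn^[t] n = Cn^[t] (n + h)} ≤
      #{n ∈ Icc 1 N | ¬ ∃ t ≤ k, Cn^[t] n = Cn^[t] (n + h)} + n0 := by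
    have hsub : ({n ∈ Icc 1 N | ¬ ∃ t : ℕ, 1 ≤ t ∧ (t : ℝ) ≤ f n ∧ Cn^[t] n = Cn^[t] (n + h)} : Finset ℕ) ⊆
        {n ∈ Icc 1 N | ¬ ∃ t ≤ k, Cn^[t] n = Cn^[t] (n + h)} ∪ range n0 := by
      intro n hn
      rw [mem_filter] at hn
      rw [mem_union, mem_filter, mem_range]
      by_cases hnk : n < n0
      · exact Or.inr hnk
      · left
        refine ⟨hn.1, ?_⟩
        rintro ⟨t, ht, hh⟩
        apply hn.2
        refine ⟨t + 1, by omega, ?_, ?_⟩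
        · have h2 := hn0 n (by omega)
          have h3 : ((t + 1 : ℕ) : ℝ) ≤ (k : ℝ) + 1 := by
            push_cast
            have : (t : ℝ) ≤ k := by exact_mod_cast ht
            linarith
          linarith
        · rw [Function.iterate_succ_apply', Function.iterate_succ_apply', hh]
    refine (card_le_card hsub).trans ((card_union_le _ _).trans ?_)
    rw [card_range]
  have h2 : (#{n ∈ Icc 1 N | ¬ ∃ t : ℕ, 1 ≤ t ∧ (t : ℝ) ≤ f n ∧ Cn^[t] n = Cn^[t] (n + h)} : ℝ) ≤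
      #{n ∈ Icc 1 N | ¬ ∃ t ≤ k, Cn^[t] n = Cn^[t] (n + h)} + n0 := by
    exact_mod_cast h1
  have h3 := hk N
  linarith

theorem gao_ncard (h : ℕ) (f : ℕ → ℝ) (hf : Tendsto f atTop atTop) :
    Tendsto (fun N : ℕ => (({n : ℕ | ∃ t : ℕ, 1 ≤ t ∧ (t : ℝ) ≤ f n ∧ Cn^[t] n = Cn^[t] (n + h)} ∩
      Set.Icc 1 N).ncard : ℝ) / N) atTop (𝓝 1) := by
  classical
  refine (gao_f h f hf).congr fun N => ?_
  congr 2
  rw [← Set.ncard_coe_finset]
  congr 1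
  ext n
  simp only [coe_filter, mem_Icc, Set.mem_setOf_eq, Set.mem_inter_iff, Set.mem_Icc]
  tauto

end Pool.Agent.H499R2.CO
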