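import Mathlib
import Pool.Agent.H33.G.R_seed8.H499R2.CO.Q2

set_option autoImplicit false

namespace Pool.Agent.H499R2.CO

open Finset

/-! Quantitative potential theory: hitting estimate. -/

/-- Superharmonic off `FF`, at least the level. -/
noncomputable def V (s : ℕ × ℤ) : ℝ := (s.1 : ℝ) + Vp s

theorem V_nonneg (s : ℕ × ℤ) : 0 ≤ V s := by
  unfold V
  have := Vp_nonneg s
  positivity

theorem V_drift {s : ℕ × ℤ} (hs : s ∉ FF) : P V s ≤ V s := by
  obtain ⟨i, r⟩ := s
  unfold P
  rcases Nat.eq_zero_or_pos i with rfl | hi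
  · have hb : ¬ |r| ≤ 10 ^ 9 := fun h => hs ⟨rfl, h⟩
    have h := Vp_zero hb
    rcases Int.emod_two_eq_zero_or_one r with hr | hr
    · rw [step_ef hr, step_et hr] at h ⊢
      simp only [V]; push_cast; linarith
    · rw [step_0f hr, step_0t hr] at h ⊢
      simp only [V]; push_cast; linarith
  · rcases Int.emod_two_eq_zero_or_one r with hr | hr
    · have h := Vp_even hi hr
      rw [step_ef hr, step_et hr] at h ⊢
      simp only [V]; linarith
    · obtain ⟨j, rfl⟩ : ∃ j, i = j + 1 := ⟨i - 1, by omega⟩
      have h := Vp_odd (j := j) hr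
      rw [step_sf hr, step_st hr] at h ⊢
      simp only [V]; push_cast; linarith

/-- The potential for the time. -/
noncomputable def U (M : ℕ) (s : ℕ × ℤ) : ℝ :=
  f M s.1 + 2 * H s.1 s.2 + (2 * D M + 10) * Vp s

theorem U_nonneg (M : ℕ) (s : ℕ × ℤ) : 0 ≤ U M s := by
  unfold U
  have := f_nonneg M s.1
  have := Vp_nonneg s
  positivity

theorem U_drift {M : ℕ} {s : ℕ × ℤ} (hs : s ∉ FF) (hM : s.1 < M) : P (U M) s ≤ U M s - 1 := by
  obtain ⟨i, r⟩ := s
  simp only at hM
  unfold P
  have hD : (0 : ℝ) ≤ D M := by positivity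
  rcases Nat.eq_zero_or_pos i with rfl | hi
  · have hb : ¬ |r| ≤ 10 ^ 9 := fun h => hs ⟨rfl, h⟩
    have h := Vp_zero hb
    have h' : (2 * (D M : ℝ) + 10) * (Vp (step (0, r) false) + Vp (step (0, r) true)) ≤
        (2 * (D M : ℝ) + 10) * (2 * Vp (0, r) - 4) := mul_le_mul_of_nonneg_left h (by positivity)
    have hf0 : f M 0 = 0 := by simp [f]
    have hf1 := f_one M
    rcases Int.emod_two_eq_zero_or_one r with hr | hr
    · rw [step_ef hr, step_et hr] at h' ⊢
      simp only [U, H, hf0, if_true]
      push_cast; linarith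
    · rw [step_0f hr, step_0t hr] at h' ⊢
      have v1 : v 1 = 1 := by simp [v]
      have H1 : (H 1 ((3 * r + 1) / 2) : ℝ) ≤ 2 := by
        have := H_le_v 1 ((3 * r + 1) / 2)
        rw [v1] at this
        exact_mod_cast this
      have H2 : (H 1 ((1 - 3 * r) / 2) : ℝ) ≤ 2 := by
        have := H_le_v 1 ((1 - 3 * r) / 2)
        rw [v1] at this
        exact_mod_cast this
      have H0 : (0 : ℝ) ≤ H 0 r := by positivity
      simp only [U, hf0]
      linarith
  · rcases Int.emod_two_eq_zero_or_one r with hr | hr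
    · have h := Vp_even hi hr
      have h' : (2 * (D M : ℝ) + 10) * (Vp (step (i, r) false) + Vp (step (i, r) true)) ≤
        (2 * (D M : ℝ) + 10) * (2 * Vp (i, r)) := mul_le_mul_of_nonneg_left h (by positivity)
      have h3 := H_even hi hr
      have h3' : (H i (r / 2) : ℝ) + H i ((3 * r + 1 - 3 ^ i) / 2) + 2 ≤ 2 * H i r := by exact_mod_cast h3
      rw [step_ef hr, step_et hr] at h' ⊢
      simp only [U]; linarith
    · obtain ⟨j, rfl⟩ : ∃ j, i = j + 1 := ⟨i - 1, by omega⟩
      have h := Vp_odd (j := j) hr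
      have h' : (2 * (D M : ℝ) + 10) * (Vp (step (j + 1, r) false) + Vp (step (j + 1, r) true)) ≤
        (2 * (D M : ℝ) + 10) * (2 * Vp (j + 1, r)) := mul_le_mul_of_nonneg_left h (by positivity)
      have hf := f_second (M := M) (j := j) (by omega)
      have H1 : (H (j + 2) ((3 * r + 1) / 2) : ℝ) ≤ v (j + 2) + 1 := by
        exact_mod_cast H_le_v (j + 2) ((3 * r + 1) / 2)
      have H2 : (H j ((r - 3 ^ j) / 2) : ℝ) ≤ v j + 1 := by exact_mod_cast H_le_v j ((r - 3 ^ j) / 2)
      have H0 : (0 : ℝ) ≤ H (j + 1) r := by positivity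
      have hc : (c (j + 1) : ℝ) = v (j + 2) + v j + 4 := by
        unfold c
        rw [show j + 1 + 1 = j + 2 from rfl, show j + 1 - 1 = j from rfl]
        push_cast; ring
      rw [step_sf hr, step_st hr] at h' ⊢
      simp only [U]
      linarith

/-- Hitting estimate: once the states of `FF` are good, all states of small potential are. -/
theorem hit {ε : ℝ} (hε : 0 ≤ ε) {m M : ℕ} (hM : 0 < M)
    (hF : ∀ m', m ≤ m' → ∀ s ∈ FF, q step (0, 0) m' s ≤ ε) :
    ∀ (t : ℕ) (s : ℕ × ℤ), q step (0, 0) (t + m) s ≤ ε + V s / M + U M s / (t + 1) := by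
  have hMr : (0 : ℝ) < M := by exact_mod_cast hM
  have hVM : ∀ s : ℕ × ℤ, 0 ≤ V s / M := fun s => div_nonneg (V_nonneg s) hMr.le
  have hUt : ∀ (t : ℕ) (s : ℕ × ℤ), 0 ≤ U M s / ((t : ℝ) + 1) := fun t s =>
    div_nonneg (U_nonneg M s) (by positivity)
  have hbig : ∀ s : ℕ × ℤ, ¬ s.1 < M → 1 ≤ V s / M := by
    intro s hs
    push Not at hs
    rw [le_div_iff₀ hMr, one_mul]
    have h1 : (M : ℝ) ≤ s.1 := by exact_mod_cast hs
    have := Vp_nonneg s
    unfold V; linarith
  intro t
  induction t with
  | zero =>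
    intro s
    have h1 := q_le_one step ((0 : ℕ), (0 : ℤ)) (0 + m) s
    have h2 := hVM s
    have h3 := hUt 0 s
    by_cases hsF : s ∈ FF
    · have := hF (0 + m) (by omega) s hsF
      linarith
    by_cases hsM : s.1 < M
    · have h4 := U_drift hsF hsM
      have h5 : 0 ≤ P (U M) s := by
        unfold P
        have := U_nonneg M (step s false)
        have := U_nonneg M (step s true)
        linarith
      have h6 : (1 : ℝ) ≤ U M s / ((0 : ℕ) + 1) := by
        push_cast
        rw [zero_add, div_one]; linarith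
      linarith
    · have := hbig s hsM
      linarith
  | succ t ih =>
    intro s
    have h1 := q_le_one step ((0 : ℕ), (0 : ℤ)) (t + 1 + m) s
    have h2 := hVM s
    have h3 := hUt (t + 1) s
    by_cases hsF : s ∈ FF
    · have := hF (t + 1 + m) (by omega) s hsF
      linarith
    by_cases hsM : s.1 < M
    · have hne : s ≠ (0, 0) := by
        rintro rfl
        exact hsF ⟨rfl, by norm_num⟩
      rw [show t + 1 + m = (t + m) + 1 by ring, q_succ _ _ hne]
      have e1 := ih (step s false)
      have e2 := ih (step s true)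
      have e3 := V_drift hsF
      have e4 := U_drift hsF hsM
      unfold P at e3 e4
      have e5 : (V (step s false) / M + V (step s true) / M) / 2 ≤ V s / M := by
        rw [← add_div, div_div, mul_comm (M : ℝ) 2, ← div_div]
        exact div_le_div_of_nonneg_right e3 hMr.le
      have e6 : (U M (step s false) / ((t : ℝ) + 1) + U M (step s true) / ((t : ℝ) + 1)) / 2 ≤
          (U M s - 1) / ((t : ℝ) + 1) := by
        rw [← add_div, div_div, mul_comm ((t : ℝ) + 1) 2, ← div_div]
        exact div_le_div_of_nonneg_right e4 (by positivity)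
      have hq : (q step (0, 0) (t + m) (step s false) + q step (0, 0) (t + m) (step s true)) / 2 ≤ 1 := by
        have := q_le_one step ((0 : ℕ), (0 : ℤ)) (t + m) (step s false)
        have := q_le_one step ((0 : ℕ), (0 : ℤ)) (t + m) (step s true)
        linarith
      by_cases hU : U M s ≤ (t : ℝ) + 2
      · have e7 : (U M s - 1) / ((t : ℝ) + 1) ≤ U M s / (((t + 1 : ℕ) : ℝ) + 1) := by
          push_cast
          rw [div_le_div_iff₀ (by positivity) (by positivity)]
          have : (0 : ℝ) ≤ t := by positivity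
          nlinarith
        linarith
      · push Not at hU
        have e7 : (1 : ℝ) ≤ U M s / (((t + 1 : ℕ) : ℝ) + 1) := by
          push_cast
          rw [le_div_iff₀ (by positivity)]
          linarith
        linarith
    · have := hbig s hsM
      linarith

end Pool.Agent.H499R2.CO
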