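import Mathlib
import Pool.Agent.H33.G.R_seed8.H499R2.CO.Q3

set_option autoImplicit false

namespace Pool.Agent.H499R2.CO

open Finset

/-! Quantitative potential theory: shifts of polynomial size. -/

theorem q_succ_le (n : ℕ) (s : ℕ × ℤ) : q step (0, 0) (n + 1) s ≤ P (fun s => q step (0, 0) n s) s := by
  by_cases h : s = (0, 0)
  · subst h
    rw [q_o]
    unfold P
    have := q_nonneg step ((0 : ℕ), (0 : ℤ)) n (step (0, 0) false)
    have := q_nonneg step ((0 : ℕ), (0 : ℤ)) n (step (0, 0) true)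
    linarith
  · rw [q_succ _ _ h]; exact le_rfl

theorem P_iter_mono (k : ℕ) : ∀ {F G : ℕ × ℤ → ℝ}, (∀ s, F s ≤ G s) → ∀ s, (P^[k] F) s ≤ (P^[k] G) s := by
  induction k with
  | zero => intro F G h s; exact h s
  | succ k ih =>
    intro F G h s
    rw [Function.iterate_succ_apply, Function.iterate_succ_apply]
    exact ih (fun s => P_mono h s) s

theorem q_add_le (n : ℕ) : ∀ (k : ℕ) (s : ℕ × ℤ),
    q step (0, 0) (k + n) s ≤ (P^[k] (fun s => q step (0, 0) n s)) s := by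
  intro k
  induction k with
  | zero => intro s; rw [zero_add]; exact le_rfl
  | succ k ih =>
    intro s
    rw [Function.iterate_succ_apply', show k + 1 + n = (k + n) + 1 by ring]
    exact (q_succ_le _ s).trans (P_mono ih s)

theorem P_sq (s : ℕ × ℤ) : P (fun s => (s.1 : ℝ) ^ 2) s ≤ (s.1 : ℝ) ^ 2 + 1 := by
  obtain ⟨i, r⟩ := s
  unfold P
  rcases Int.emod_two_eq_zero_or_one r with hr | hr
  · rw [step_ef hr, step_et hr]; simp only; linarith
  · rcases i with _ | j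
    · rw [step_0f hr, step_0t hr]; norm_num
    · rw [step_sf hr, step_st hr]; push_cast; nlinarith

theorem P_iter_lin {b : ℝ} (hb : 0 ≤ b) : ∀ (k : ℕ) (a c : ℝ), 0 ≤ c → ∀ s : ℕ × ℤ,
    (P^[k] (fun s => a + b * (s.1 : ℝ) ^ 2 + c * pw s)) s ≤
      a + b * ((s.1 : ℝ) ^ 2 + k) + c * (0.98 ^ k * pw s + 37.5 * (1 - 0.98 ^ k)) := by
  intro k
  induction k with
  | zero => intro a c _ s; simp
  | succ k ih =>
    intro a c hc s
    rw [Function.iterate_succ_apply]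
    have h1 : ∀ s, P (fun s => a + b * (s.1 : ℝ) ^ 2 + c * pw s) s ≤
        (a + b + 0.75 * c) + b * (s.1 : ℝ) ^ 2 + (0.98 * c) * pw s := by
      intro s
      have h2 := P_sq s
      have h3 := P_pw s
      unfold P at h2 h3 ⊢
      have e1 := mul_le_mul_of_nonneg_left h2 hb
      have e2 := mul_le_mul_of_nonneg_left h3 hc
      linarith
    refine (P_iter_mono k h1 s).trans ((ih _ _ (by positivity) s).trans (le_of_eq ?_))
    push_cast
    ring

/-- First moment of the level. -/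
theorem P_iter_lin1 {b c A : ℝ} (hb : 0 ≤ b) (hc : 0 ≤ c) (hA : 0 < A) (a : ℝ) (k : ℕ) (hk : (k : ℝ) ≤ A ^ 2)
    (r : ℤ) :
    (P^[k] (fun s => a + b * (s.1 : ℝ) + c * pw s)) (0, r) ≤ a + b * A + c * (0.98 ^ k * w r + 37.5) := by
  have h1 : ∀ s : ℕ × ℤ, a + b * (s.1 : ℝ) + c * pw s ≤
      (a + b * A / 2) + b / (2 * A) * (s.1 : ℝ) ^ 2 + c * pw s := by
    intro s
    have : (s.1 : ℝ) ≤ A / 2 + (s.1 : ℝ) ^ 2 / (2 * A) := by
      rw [div_add_div _ _ (by norm_num) (by positivity), le_div_iff₀ (by positivity)]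
      nlinarith [sq_nonneg ((s.1 : ℝ) - A)]
    have h2 := mul_le_mul_of_nonneg_left this hb
    have h3 : b * (A / 2 + (s.1 : ℝ) ^ 2 / (2 * A)) = b * A / 2 + b / (2 * A) * (s.1 : ℝ) ^ 2 := by
      field_simp
    linarith
  refine (P_iter_mono k h1 (0, r)).trans ((P_iter_lin (by positivity) k _ _ hc (0, r)).trans ?_)
  have h4 : b / (2 * A) * (((0 : ℕ) : ℝ) ^ 2 + k) ≤ b * A / 2 := by
    have : b / (2 * A) * (((0 : ℕ) : ℝ) ^ 2 + k) = b * k / (2 * A) := by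
      push_cast; field_simp; ring
    rw [this, div_le_div_iff₀ (by positivity) (by norm_num)]
    nlinarith [mul_le_mul_of_nonneg_left hk hb]
  have h5 : pw (0, r) = w r := by simp [pw]
  have h6 : (0 : ℝ) ≤ 0.98 ^ k := by positivity
  simp only at h4 ⊢
  rw [h5]
  have h7 : c * (0.98 ^ k * w r + 37.5 * (1 - 0.98 ^ k)) ≤ c * (0.98 ^ k * w r + 37.5) := by
    apply mul_le_mul_of_nonneg_left _ hc
    linarith
  linarith

theorem rho_H (i : ℕ) (r : ℤ) : (24 / 25 : ℝ) ^ i * H i r ≤ 48 := by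
  have h1 : (1 : ℝ) + i * (1 / 24) ≤ (1 + 1 / 24) ^ i := one_add_mul_le_pow (by norm_num) i
  have h2 : (H i r : ℝ) ≤ 2 * i + 1 := by exact_mod_cast H_le i r
  have h3 : (24 / 25 : ℝ) ^ i * (1 + 1 / 24) ^ i = 1 := by rw [← mul_pow]; norm_num
  have h4 : (0 : ℝ) < (24 / 25) ^ i := by positivity
  have h5 : (H i r : ℝ) ≤ 48 * (1 + 1 / 24) ^ i := by linarith
  calc (24 / 25 : ℝ) ^ i * H i r ≤ (24 / 25 : ℝ) ^ i * (48 * (1 + 1 / 24) ^ i) :=
        mul_le_mul_of_nonneg_left h5 h4.le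
    _ = 48 * ((24 / 25 : ℝ) ^ i * (1 + 1 / 24) ^ i) := by ring
    _ = 48 := by rw [h3]; norm_num

theorem Vp_le (s : ℕ × ℤ) : Vp s ≤ pw s + 480048 := by
  have h := rho_H s.1 s.2
  unfold Vp part pw
  have : (0 : ℝ) < (49 / 50) ^ s.1 := by positivity
  linarith

theorem U_le {M : ℕ} (hM : 1 ≤ M) (s : ℕ × ℤ) :
    U M s ≤ 40 * (M : ℝ) ^ 2 + 2 + 24002400 * M + 4 * (s.1 : ℝ) + 50 * M * pw s := by
  have hMr : (1 : ℝ) ≤ M := by exact_mod_cast hM
  have h1 := f_le M s.1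
  have h2 : (D M : ℝ) ≤ 10 * (M + 1) := by exact_mod_cast D_le M
  have h3 : (H s.1 s.2 : ℝ) ≤ 2 * s.1 + 1 := by exact_mod_cast H_le s.1 s.2
  have h4 := Vp_le s
  have h5 := Vp_nonneg s
  have h6 : (2 * (D M : ℝ) + 10) ≤ 50 * M := by linarith
  have h7 : (2 * (D M : ℝ) + 10) * Vp s ≤ 50 * M * (pw s + 480048) := by
    calc (2 * (D M : ℝ) + 10) * Vp s ≤ 50 * M * Vp s := mul_le_mul_of_nonneg_right h6 h5
      _ ≤ 50 * M * (pw s + 480048) := mul_le_mul_of_nonneg_left h4 (by positivity)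
  have h8 : 2 * (M : ℝ) * D M ≤ 40 * (M : ℝ) ^ 2 := by
    have : (D M : ℝ) ≤ 20 * M := by linarith
    nlinarith
  unfold U
  linarith

/-- The bound at the start. -/
theorem q_bound {ε : ℝ} (hε : 0 ≤ ε) {m M : ℕ} (hM : 1 ≤ M)
    (hF : ∀ m', m ≤ m' → ∀ s ∈ FF, q step (0, 0) m' s ≤ ε) (k t : ℕ) {A : ℝ} (hA : 0 < A)
    (hk : (k : ℝ) ≤ A ^ 2) (r : ℤ) (hr : 0.98 ^ k * w r ≤ 1) :
    q step (0, 0) (k + (t + m)) (0, r) ≤ ε + (A + 480087) / M +
      (40 * (M : ℝ) ^ 2 + 24004400 * M + 4 * A + 2) / (t + 1) := by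
  have hMr : (1 : ℝ) ≤ M := by exact_mod_cast hM
  have hT : (0 : ℝ) < (t : ℝ) + 1 := by positivity
  have h1 := q_add_le (t + m) k (0, r)
  have h2 := hit hε (by omega : 0 < M) hF t
  set a : ℝ := ε + 480048 / M + (40 * (M : ℝ) ^ 2 + 2 + 24002400 * M) / (t + 1) with ha
  set b : ℝ := 1 / M + 4 / (t + 1) with hb
  set c : ℝ := 1 / M + 50 * M / (t + 1) with hc
  have h3 : ∀ s : ℕ × ℤ, q step (0, 0) (t + m) s ≤ a + b * (s.1 : ℝ) + c * pw s := by
    intro s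
    refine (h2 s).trans ?_
    have e1 : V s / M ≤ ((s.1 : ℝ) + (pw s + 480048)) / M := by
      apply div_le_div_of_nonneg_right _ (by positivity)
      unfold V
      have := Vp_le s
      linarith
    have e2 : U M s / (t + 1) ≤
        (40 * (M : ℝ) ^ 2 + 2 + 24002400 * M + 4 * (s.1 : ℝ) + 50 * M * pw s) / (t + 1) :=
      div_le_div_of_nonneg_right (U_le hM s) hT.le
    have e3 : a + b * (s.1 : ℝ) + c * pw s = ε + ((s.1 : ℝ) + (pw s + 480048)) / M +
        (40 * (M : ℝ) ^ 2 + 2 + 24002400 * M + 4 * (s.1 : ℝ) + 50 * M * pw s) / (t + 1) := by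
      rw [ha, hb, hc]; ring
    rw [e3]; linarith
  have h4 := P_iter_mono k h3 (0, r)
  have hb0 : 0 ≤ b := by rw [hb]; positivity
  have hc0 : 0 ≤ c := by rw [hc]; positivity
  have h5 := P_iter_lin1 hb0 hc0 hA a k hk r
  have h6 : c * (0.98 ^ k * w r + 37.5) ≤ c * 39 := mul_le_mul_of_nonneg_left (by linarith) hc0
  have h7 : a + b * A + c * 39 ≤ ε + (A + 480087) / M +
      (40 * (M : ℝ) ^ 2 + 24004400 * M + 4 * A + 2) / (t + 1) := by
    have e : ε + (A + 480087) / M + (40 * (M : ℝ) ^ 2 + 24004400 * M + 4 * A + 2) / (t + 1)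
        - (a + b * A + c * 39) = 50 * M / (t + 1) := by
      rw [ha, hb, hc]; field_simp; ring
    have : (0 : ℝ) ≤ 50 * M / (t + 1) := by positivity
    linarith
  exact h1.trans (h4.trans (h5.trans (by linarith)))

end Pool.Agent.H499R2.CO
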