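import Mathlib
import Pool.Agent.H33.G.R_seed8.H499R2.CO.Q5
import Pool.Agent.H33.G.R_seed8.H499R2.CO.G

set_option autoImplicit false

namespace Pool.Agent.H499R2.CO

open Finset Filter Topology

/-! Shifts up to `N ^ θ`. -/

/-- Parameters: `k = ⌊log₂ N / 2⌋`. -/
theorem exists_param {ε : ℝ} (hε : 0 < ε) : ∃ θ : ℝ, 0 < θ ∧ ∃ N0 : ℕ, ∀ N ≥ N0, ∃ k : ℕ, 2 ^ (2 * k) ≤ N ∧
    ∀ h : ℤ, |(h : ℝ)| ≤ (N : ℝ) ^ θ → ((N : ℝ) + 2 ^ k + 1) * q step (0, 0) k (0, h) ≤ ε * N := by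
  obtain ⟨θ, hθ, k0, hk0⟩ := q_quant (ε := min (ε / 3) 1) (by positivity) (min_le_right _ _)
  refine ⟨θ / 4, by positivity, 2 ^ (2 * (k0 + 1)), fun N hN => ?_⟩
  have hN0 : N ≠ 0 := by
    have : 0 < 2 ^ (2 * (k0 + 1)) := by positivity
    omega
  set L := Nat.log 2 N with hL
  have hL1 : 2 ^ L ≤ N := Nat.pow_log_le_self 2 hN0
  have hL2 : N < 2 ^ (L + 1) := Nat.lt_pow_succ_log_self (by norm_num) N
  have hLk : 2 * (k0 + 1) ≤ L := (Nat.le_log_iff_pow_le (by norm_num) hN0).2 hN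
  set k := L / 2 with hk
  have hkk : k0 + 1 ≤ k := by omega
  refine ⟨k, (Nat.pow_le_pow_right (by norm_num) (by omega : 2 * k ≤ L)).trans hL1, fun h hh => ?_⟩
  have hNr : (1 : ℝ) ≤ N := by exact_mod_cast Nat.one_le_iff_ne_zero.2 hN0
  have h1 : |(h : ℝ)| ≤ (2 : ℝ) ^ (θ * k) := by
    refine hh.trans ?_
    have h2 : (N : ℝ) ≤ (2 : ℝ) ^ ((L : ℝ) + 1) := by
      have h3 : (N : ℝ) ≤ (2 : ℝ) ^ (L + 1) := by exact_mod_cast hL2.le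
      calc (N : ℝ) ≤ (2 : ℝ) ^ (L + 1) := h3
        _ = (2 : ℝ) ^ ((L : ℝ) + 1) := by rw [← Real.rpow_natCast]; push_cast; rfl
    calc (N : ℝ) ^ (θ / 4) ≤ ((2 : ℝ) ^ ((L : ℝ) + 1)) ^ (θ / 4) :=
          Real.rpow_le_rpow (by positivity) h2 (by positivity)
      _ = (2 : ℝ) ^ (((L : ℝ) + 1) * (θ / 4)) := by rw [← Real.rpow_mul (by norm_num)]
      _ ≤ (2 : ℝ) ^ (θ * k) := by
          apply Real.rpow_le_rpow_of_exponent_le (by norm_num)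
          have h4 : L + 1 ≤ 4 * k := by omega
          have h5 : (L : ℝ) + 1 ≤ 4 * k := by exact_mod_cast h4
          calc ((L : ℝ) + 1) * (θ / 4) ≤ (4 * k) * (θ / 4) := mul_le_mul_of_nonneg_right h5 (by positivity)
            _ = θ * k := by ring
  have h6 := hk0 k (by omega) h h1
  have h7 : q step (0, 0) k (0, h) ≤ ε / 3 := h6.trans (min_le_left _ _)
  have h8 : (2 : ℝ) ^ k ≤ N := by
    have : 2 ^ k ≤ N := (Nat.pow_le_pow_right (by norm_num) (by omega : k ≤ L)).trans hL1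
    exact_mod_cast this
  calc ((N : ℝ) + 2 ^ k + 1) * q step (0, 0) k (0, h) ≤ (3 * N) * (ε / 3) := by
        apply mul_le_mul _ h7 (q_nonneg _ _ _ _) (by positivity)
        linarith
    _ = ε * N := by ring

open Classical in
/-- For the `3x+d` map. -/
theorem solidT {ε : ℝ} (hε : 0 < ε) : ∃ θ : ℝ, 0 < θ ∧ ∃ N0 : ℕ, ∀ N ≥ N0, ∀ d : ℤ, d % 2 = 1 →
    ∀ h : ℤ, |(h : ℝ)| ≤ (N : ℝ) ^ θ →
    (#{n ∈ Icc 1 N | ¬ ∃ t, 2 ^ t ≤ N ∧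
      (Tz d)^[t] ((n : ℕ) : ℤ) = (Tz d)^[t] ((n : ℤ) + d * h)} : ℝ) ≤ ε * N := by
  obtain ⟨θ, hθ, N0, hN0⟩ := exists_param hε
  refine ⟨θ, hθ, N0, fun N hN d hd h hh => ?_⟩
  obtain ⟨k, hk, hkq⟩ := hN0 N hN
  refine le_trans ?_ ((count_le hd k (0, h) N).trans (hkq h hh))
  have : #{n ∈ Icc 1 N | ¬ ∃ t, 2 ^ t ≤ N ∧ (Tz d)^[t] ((n : ℕ) : ℤ) = (Tz d)^[t] ((n : ℤ) + d * h)} ≤
      #{n ∈ Icc 1 N | surv d k (0, h) ((n : ℕ) : ℤ)} := by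
    apply card_le_card
    intro n hn
    rw [mem_filter] at hn ⊢
    refine ⟨hn.1, ?_⟩
    by_contra hcon
    apply hn.2
    obtain ⟨t, ht, hh⟩ := coal hd k 0 h n hcon
    exact ⟨t, (Nat.pow_le_pow_right (by norm_num) (by omega)).trans hk, by simpa using hh⟩
  exact_mod_cast this

open Classical in
/-- For the Collatz map. -/
theorem solidC {ε : ℝ} (hε : 0 < ε) : ∃ θ : ℝ, 0 < θ ∧ ∃ N0 : ℕ, ∀ N ≥ N0,
    ∀ h : ℕ, (h : ℝ) ≤ (N : ℝ) ^ θ →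
    (#{n ∈ Icc 1 N | ¬ ∃ t, 2 ^ t ≤ N ∧ Cn^[t] n = Cn^[t] (n + h)} : ℝ) ≤ ε * N := by
  obtain ⟨θ, hθ, N0, hN0⟩ := exists_param hε
  refine ⟨θ, hθ, N0, fun N hN h hh => ?_⟩
  obtain ⟨k, hk, hkq⟩ := hN0 N hN
  have hh' : |((h : ℤ) : ℝ)| ≤ (N : ℝ) ^ θ := by
    rw [abs_of_nonneg (by positivity)]
    exact_mod_cast hh
  refine le_trans ?_ ((count_le (d := 1) (by norm_num) k (0, (h : ℤ)) N).trans (hkq h hh'))
  have : #{n ∈ Icc 1 N | ¬ ∃ t, 2 ^ t ≤ N ∧ Cn^[t] n = Cn^[t] (n + h)} ≤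
      #{n ∈ Icc 1 N | surv 1 k (0, (h : ℤ)) ((n : ℕ) : ℤ)} := by
    apply card_le_card
    intro n hn
    rw [mem_filter] at hn ⊢
    refine ⟨hn.1, ?_⟩
    by_contra hcon
    apply hn.2
    obtain ⟨a, b, ha, hb, hab, hh⟩ := coalC k 0 h n hcon
    rw [add_zero] at hab
    subst hab
    refine ⟨a, (Nat.pow_le_pow_right (by norm_num) (by omega)).trans hk, ?_⟩
    have e : (3 : ℤ) ^ 0 * (n : ℤ) + (h : ℤ) = ((n + h : ℕ) : ℤ) := by push_cast; ring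
    rw [e, Cz_iter_cast, Cz_iter_cast] at hh
    exact_mod_cast hh
  exact_mod_cast this

/-- Markov's inequality. -/
theorem markov (N Hh : ℕ) (R : ℕ → ℕ → Prop) [∀ a b, Decidable (R a b)] {ε κ : ℝ} (hε : 0 ≤ ε) (hκ : 0 < κ)
    (h : ∀ j ∈ Icc 1 Hh, (#{n ∈ Icc 1 N | R n j} : ℝ) ≤ ε * κ * N) :
    (#{n ∈ Icc 1 N | κ * Hh < #{j ∈ Icc 1 Hh | R n j}} : ℝ) ≤ ε * N := by
  classical
  rcases Nat.eq_zero_or_pos Hh with rfl | hH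
  · simp only [Nat.cast_zero, mul_zero]
    have h0 : ({n ∈ Icc 1 N | (0 : ℝ) < #{j ∈ Icc 1 0 | R n j}} : Finset ℕ) = ∅ := by
      apply filter_eq_empty_iff.2
      intro n _
      simp
    rw [h0]
    simp only [card_empty, Nat.cast_zero]
    positivity
  have hHr : (0 : ℝ) < Hh := by exact_mod_cast hH
  have h1 : ∑ n ∈ Icc 1 N, (#{j ∈ Icc 1 Hh | R n j} : ℝ) ≤ Hh * (ε * κ * N) := by
    have e : ∑ n ∈ Icc 1 N, (#{j ∈ Icc 1 Hh | R n j} : ℝ) = ∑ j ∈ Icc 1 Hh, (#{n ∈ Icc 1 N | R n j} : ℝ) := by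
      simp only [card_filter]
      push_cast
      exact sum_comm
    rw [e]
    calc ∑ j ∈ Icc 1 Hh, (#{n ∈ Icc 1 N | R n j} : ℝ) ≤ ∑ j ∈ Icc 1 Hh, (ε * κ * N) := sum_le_sum h
      _ = Hh * (ε * κ * N) := by rw [sum_const, Nat.card_Icc, nsmul_eq_mul]; norm_num
  have h2 : (#{n ∈ Icc 1 N | κ * Hh < #{j ∈ Icc 1 Hh | R n j}} : ℝ) * (κ * Hh) ≤
      ∑ n ∈ Icc 1 N, (#{j ∈ Icc 1 Hh | R n j} : ℝ) := by
    calc (#{n ∈ Icc 1 N | κ * Hh < #{j ∈ Icc 1 Hh | R n j}} : ℝ) * (κ * Hh)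
        = ∑ n ∈ Icc 1 N with κ * Hh < (#{j ∈ Icc 1 Hh | R n j} : ℝ), (κ * Hh) := by
          rw [sum_const, nsmul_eq_mul]
      _ ≤ ∑ n ∈ Icc 1 N with κ * Hh < (#{j ∈ Icc 1 Hh | R n j} : ℝ), (#{j ∈ Icc 1 Hh | R n j} : ℝ) := by
          apply sum_le_sum
          intro n hn
          rw [mem_filter] at hn
          exact hn.2.le
      _ ≤ ∑ n ∈ Icc 1 N, (#{j ∈ Icc 1 Hh | R n j} : ℝ) := by
          apply sum_le_sum_of_subset_of_nonneg (filter_subset _ _)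
          intro n _ _; positivity
  have h3 : (#{n ∈ Icc 1 N | κ * Hh < #{j ∈ Icc 1 Hh | R n j}} : ℝ) * (κ * Hh) ≤ (ε * N) * (κ * Hh) := by
    calc _ ≤ (Hh : ℝ) * (ε * κ * N) := h2.trans h1
      _ = (ε * N) * (κ * Hh) := by ring
  exact le_of_mul_le_mul_right h3 (by positivity)

open Classical in
/-- Most of the integers in most short intervals coalesce. -/
theorem solid_n {ε κ : ℝ} (hε : 0 < ε) (hκ : 0 < κ) : ∃ θ : ℝ, 0 < θ ∧ ∃ N0 : ℕ, ∀ N ≥ N0,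
    (#{n ∈ Icc 1 N | κ * ⌊(N : ℝ) ^ θ⌋₊ <
      (#{j ∈ Icc 1 ⌊(N : ℝ) ^ θ⌋₊ | ¬ ∃ t, 2 ^ t ≤ N ∧ Cn^[t] n = Cn^[t] (n + j)} : ℝ)} : ℝ) ≤ ε * N := by
  obtain ⟨θ, hθ, N0, hN0⟩ := solidC (ε := ε * κ) (by positivity)
  refine ⟨θ, hθ, N0, fun N hN => ?_⟩
  apply markov N ⌊(N : ℝ) ^ θ⌋₊ (fun n j => ¬ ∃ t, 2 ^ t ≤ N ∧ Cn^[t] n = Cn^[t] (n + j)) hε.le hκ
  intro j hj
  rw [mem_Icc] at hj
  apply hN0 N hN j
  have h1 : (j : ℝ) ≤ ⌊(N : ℝ) ^ θ⌋₊ := by exact_mod_cast hj.2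
  exact h1.trans (Nat.floor_le (by positivity))

end Pool.Agent.H499R2.CO
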