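import Mathlib
import Pool.Agent.H33.G.R_seed8.H499R2.CO.Q5

set_option autoImplicit false

namespace Pool.Agent.H499R2.CO

open Finset Filter Topology

/-! The near-optimal rate: avoiding `FF` and high levels. -/

theorem P_add_smul (F G : ℕ × ℤ → ℝ) (a b : ℝ) (s : ℕ × ℤ) :
    P (fun s => a * F s + b * G s) s = a * P F s + b * P G s := by
  unfold P; ring

open Classical in
/-- The probability of avoiding `FF` and the levels `≥ M` up to time `t`. -/
noncomputable def sv (M : ℕ) : ℕ → ℕ × ℤ → ℝ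
  | 0, s => if s ∉ FF ∧ s.1 < M then 1 else 0
  | t + 1, s => if s ∉ FF ∧ s.1 < M then P (sv M t) s else 0

theorem sv_zero_alive {M : ℕ} {s : ℕ × ℤ} (h : s ∉ FF ∧ s.1 < M) : sv M 0 s = 1 := by
  rw [sv, if_pos h]

theorem sv_succ_alive {M t : ℕ} {s : ℕ × ℤ} (h : s ∉ FF ∧ s.1 < M) : sv M (t + 1) s = P (sv M t) s := by
  rw [sv, if_pos h]

theorem sv_dead {M t : ℕ} {s : ℕ × ℤ} (h : ¬ (s ∉ FF ∧ s.1 < M)) : sv M t s = 0 := by
  rcases t with _ | t
  · rw [sv, if_neg h]
  · rw [sv, if_neg h]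

theorem P_nonneg {F : ℕ × ℤ → ℝ} (h : ∀ s, 0 ≤ F s) (s : ℕ × ℤ) : 0 ≤ P F s := by
  unfold P
  have := h (step s false); have := h (step s true); linarith

theorem sv_nonneg (M : ℕ) : ∀ (t : ℕ) (s : ℕ × ℤ), 0 ≤ sv M t s := by
  intro t
  induction t with
  | zero => intro s; rw [sv]; split_ifs <;> norm_num
  | succ t ih =>
    intro s
    by_cases h : s ∉ FF ∧ s.1 < M
    · rw [sv_succ_alive h]; exact P_nonneg ih s
    · rw [sv_dead h]

theorem sv_le_one (M : ℕ) : ∀ (t : ℕ) (s : ℕ × ℤ), sv M t s ≤ 1 := by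
  intro t
  induction t with
  | zero => intro s; rw [sv]; split_ifs <;> norm_num
  | succ t ih =>
    intro s
    by_cases h : s ∉ FF ∧ s.1 < M
    · rw [sv_succ_alive h]; unfold P
      have := ih (step s false); have := ih (step s true); linarith
    · rw [sv_dead h]; norm_num

theorem sv_le_U (M : ℕ) : ∀ (t : ℕ) (s : ℕ × ℤ), sv M t s ≤ U M s / (t + 1) := by
  have hUt : ∀ (t : ℕ) (s : ℕ × ℤ), 0 ≤ U M s / ((t : ℝ) + 1) := fun t s =>
    div_nonneg (U_nonneg M s) (by positivity)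
  intro t
  induction t with
  | zero =>
    intro s
    by_cases h : s ∉ FF ∧ s.1 < M
    · rw [sv_zero_alive h]
      have h4 := U_drift h.1 h.2
      have h5 : 0 ≤ P (U M) s := P_nonneg (U_nonneg M) s
      push_cast
      rw [zero_add, div_one]; linarith
    · rw [sv_dead h]; exact hUt 0 s
  | succ t ih =>
    intro s
    by_cases h : s ∉ FF ∧ s.1 < M
    · by_cases hU : U M s ≤ (t : ℝ) + 2
      · rw [sv_succ_alive h]
        have e1 := ih (step s false)
        have e2 := ih (step s true)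
        have e4 := U_drift h.1 h.2
        unfold P at e4 ⊢
        have e6 : (U M (step s false) / ((t : ℝ) + 1) + U M (step s true) / ((t : ℝ) + 1)) / 2 ≤
            (U M s - 1) / ((t : ℝ) + 1) := by
          rw [← add_div, div_div, mul_comm ((t : ℝ) + 1) 2, ← div_div]
          exact div_le_div_of_nonneg_right e4 (by positivity)
        have e7 : (U M s - 1) / ((t : ℝ) + 1) ≤ U M s / (((t + 1 : ℕ) : ℝ) + 1) := by
          push_cast
          rw [div_le_div_iff₀ (by positivity) (by positivity)]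
          have : (0 : ℝ) ≤ t := by positivity
          nlinarith
        linarith
      · push Not at hU
        have e7 : (1 : ℝ) ≤ U M s / (((t + 1 : ℕ) : ℝ) + 1) := by
          push_cast
          rw [le_div_iff₀ (by positivity)]
          linarith
        exact (sv_le_one M _ s).trans e7
    · rw [sv_dead h]; exact hUt _ s

theorem sv_add {M b : ℕ} {c0 c1 : ℝ} (hc1 : 0 ≤ c1)
    (hG : ∀ s, sv M b s ≤ c0 + c1 * pw s) (hc0 : 0 ≤ c0) : ∀ (a : ℕ) (s : ℕ × ℤ),
    sv M (a + b) s ≤ c0 * sv M a s + c1 * (0.98 ^ a * pw s + 37.5 * (1 - 0.98 ^ a)) := by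
  have hrest : ∀ (a : ℕ) (s : ℕ × ℤ), 0 ≤ c1 * (0.98 ^ a * pw s + 37.5 * (1 - (0.98 : ℝ) ^ a)) := by
    intro a s
    have h1 : (0.98 : ℝ) ^ a ≤ 1 := pow_le_one₀ (by norm_num) (by norm_num)
    have h2 := pw_nonneg s
    have h3 : (0 : ℝ) ≤ 0.98 ^ a := by positivity
    apply mul_nonneg hc1
    have : 0 ≤ 0.98 ^ a * pw s := mul_nonneg h3 h2
    linarith
  intro a
  induction a with
  | zero =>
    intro s
    rw [zero_add]
    by_cases h : s ∉ FF ∧ s.1 < M
    · rw [sv_zero_alive h]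
      have := hG s
      simp only [pow_zero]
      linarith
    · rw [sv_dead h, sv_dead h, mul_zero, zero_add]; exact hrest 0 s
  | succ a ih =>
    intro s
    by_cases h : s ∉ FF ∧ s.1 < M
    · rw [show a + 1 + b = (a + b) + 1 by ring, sv_succ_alive h, sv_succ_alive h]
      have e1 := ih (step s false)
      have e2 := ih (step s true)
      have e3 := P_pw s
      unfold P at e3 ⊢
      have h3 : (0 : ℝ) ≤ 0.98 ^ a := by positivity
      have e4 : c1 * (0.98 ^ a * ((pw (step s false) + pw (step s true)) / 2)) ≤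
          c1 * (0.98 ^ a * (0.98 * pw s + 0.75)) :=
        mul_le_mul_of_nonneg_left (mul_le_mul_of_nonneg_left e3 h3) hc1
      have e5 : c1 * (0.98 ^ a * (0.98 * pw s + 0.75)) + c1 * (37.5 * (1 - 0.98 ^ a)) =
          c1 * (0.98 ^ (a + 1) * pw s + 37.5 * (1 - 0.98 ^ (a + 1))) := by ring
      linarith
    · rw [sv_dead h, sv_dead h, mul_zero, zero_add]; exact hrest _ s

/-- Survival over blocks of length `49000000 M ^ 2`. -/
theorem sv_block {M : ℕ} (hM : 1 ≤ M) : ∀ (b : ℕ) (s : ℕ × ℤ),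
    sv M (49000000 * M ^ 2 * b) s ≤ ((1 / 2 : ℝ) ^ b + 75 / M) + 1 / M * pw s := by
  have hMr : (1 : ℝ) ≤ M := by exact_mod_cast hM
  have hM0 : (0 : ℝ) < M := by linarith
  intro b
  induction b with
  | zero =>
    intro s
    have h1 := sv_le_one M (49000000 * M ^ 2 * 0) s
    have h2 := pw_nonneg s
    have h3 : (0 : ℝ) ≤ 1 / M * pw s := by positivity
    have h4 : (0 : ℝ) ≤ 75 / M := by positivity
    rw [pow_zero]; linarith
  | succ b ih =>
    intro s
    have h2 := pw_nonneg s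
    have h4 : (0 : ℝ) ≤ 75 / M := by positivity
    have hb : (0 : ℝ) ≤ (1 / 2) ^ b := by positivity
    have hb1 : (0 : ℝ) ≤ (1 / 2) ^ (b + 1) := by positivity
    by_cases hpw : pw s ≤ M
    · by_cases h : s ∉ FF ∧ s.1 < M
      · have h5 := sv_add (M := M) (b := 49000000 * M ^ 2 * b) (c0 := (1 / 2 : ℝ) ^ b + 75 / M)
          (c1 := 1 / M) (by positivity) ih (by positivity) (49000000 * M ^ 2) s
        rw [show 49000000 * M ^ 2 + 49000000 * M ^ 2 * b = 49000000 * M ^ 2 * (b + 1) by ring] at h5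
        refine h5.trans ?_
        have h6 : sv M (49000000 * M ^ 2) s ≤ 1 / 2 := by
          refine (sv_le_U M _ s).trans ?_
          rw [div_le_iff₀ (by positivity)]
          refine (U_le hM s).trans ?_
          push_cast
          have h7 : (s.1 : ℝ) ≤ M := by exact_mod_cast h.2.le
          have h8 : 50 * (M : ℝ) * pw s ≤ 50 * M * M := mul_le_mul_of_nonneg_left hpw (by positivity)
          nlinarith
        have h9 : (0.98 : ℝ) ^ (49000000 * M ^ 2) ≤ 1 := pow_le_one₀ (by norm_num) (by norm_num)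
        have h10 : (0 : ℝ) ≤ 0.98 ^ (49000000 * M ^ 2) := by positivity
        have h11 : 0.98 ^ (49000000 * M ^ 2) * pw s ≤ 1 * pw s := mul_le_mul_of_nonneg_right h9 h2
        have h12 : 1 / (M : ℝ) * (0.98 ^ (49000000 * M ^ 2) * pw s + 37.5 * (1 - 0.98 ^ (49000000 * M ^ 2)))
            ≤ 1 / M * (pw s + 37.5) := by
          apply mul_le_mul_of_nonneg_left _ (by positivity)
          linarith
        have h13 : ((1 / 2 : ℝ) ^ b + 75 / M) * sv M (49000000 * M ^ 2) s ≤
            ((1 / 2 : ℝ) ^ b + 75 / M) * (1 / 2) := mul_le_mul_of_nonneg_left h6 (by positivity)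
        have h14 : ((1 / 2 : ℝ) ^ b + 75 / M) * (1 / 2) + 1 / M * (pw s + 37.5) =
            ((1 / 2 : ℝ) ^ (b + 1) + 75 / M) + 1 / M * pw s := by
          rw [pow_succ]; ring
        linarith
      · rw [sv_dead h]; positivity
    · push Not at hpw
      have h5 := sv_le_one M (49000000 * M ^ 2 * (b + 1)) s
      have h6 : (1 : ℝ) ≤ 1 / M * pw s := by
        rw [one_div, inv_mul_eq_div, le_div_iff₀ hM0]; linarith
      linarith

/-- Hitting estimate through `sv`. -/
theorem hit2 {ε : ℝ} (hε : 0 ≤ ε) {m M : ℕ} (hM : 0 < M)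
    (hF : ∀ m', m ≤ m' → ∀ s ∈ FF, q step (0, 0) m' s ≤ ε) :
    ∀ (t : ℕ) (s : ℕ × ℤ), q step (0, 0) (t + m) s ≤ ε + V s / M + sv M t s := by
  have hMr : (0 : ℝ) < M := by exact_mod_cast hM
  have hVM : ∀ s : ℕ × ℤ, 0 ≤ V s / M := fun s => div_nonneg (V_nonneg s) hMr.le
  have hbig : ∀ s : ℕ × ℤ, ¬ s.1 < M → 1 ≤ V s / M := by
    intro s hs
    push Not at hs
    rw [le_div_iff₀ hMr, one_mul]
    have h1 : (M : ℝ) ≤ s.1 := by exact_mod_cast hs
    have := Vp_nonneg s
    unfold V; linarith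
  intro t
  induction t with
  | zero =>
    intro s
    have h1 := q_le_one step ((0 : ℕ), (0 : ℤ)) (0 + m) s
    have h2 := hVM s
    have h3 := sv_nonneg M 0 s
    by_cases hsF : s ∈ FF
    · have := hF (0 + m) (by omega) s hsF
      linarith
    by_cases hsM : s.1 < M
    · rw [sv_zero_alive ⟨hsF, hsM⟩]; linarith
    · have := hbig s hsM
      linarith
  | succ t ih =>
    intro s
    have h1 := q_le_one step ((0 : ℕ), (0 : ℤ)) (t + 1 + m) s
    have h2 := hVM s
    have h3 := sv_nonneg M (t + 1) s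
    by_cases hsF : s ∈ FF
    · have := hF (t + 1 + m) (by omega) s hsF
      linarith
    by_cases hsM : s.1 < M
    · have hne : s ≠ (0, 0) := by
        rintro rfl
        exact hsF ⟨rfl, by norm_num⟩
      rw [show t + 1 + m = (t + m) + 1 by ring, q_succ _ _ hne, sv_succ_alive ⟨hsF, hsM⟩]
      have e1 := ih (step s false)
      have e2 := ih (step s true)
      have e3 := V_drift hsF
      unfold P at e3 ⊢
      have e5 : (V (step s false) / M + V (step s true) / M) / 2 ≤ V s / M := by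
        rw [← add_div, div_div, mul_comm (M : ℝ) 2, ← div_div]
        exact div_le_div_of_nonneg_right e3 hMr.le
      linarith
    · have := hbig s hsM
      linarith

/-- The linear bound. -/
theorem hit3 {ε : ℝ} (hε : 0 ≤ ε) {m : ℕ} (hF : ∀ m', m ≤ m' → ∀ s ∈ FF, q step (0, 0) m' s ≤ ε)
    (b : ℕ) (s : ℕ × ℤ) : q step (0, 0) (49000000 * (2 ^ b) ^ 2 * b + m) s ≤
      (ε + 480124 / 2 ^ b) + 1 / 2 ^ b * (s.1 : ℝ) + 2 / 2 ^ b * pw s := by
  have hM : 1 ≤ 2 ^ b := Nat.one_le_two_pow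
  have h1 := hit2 hε (by omega : 0 < 2 ^ b) hF (49000000 * (2 ^ b) ^ 2 * b) s
  have h2 := sv_block hM b s
  have h3 := Vp_le s
  push_cast at h1 h2
  have h4 : (0 : ℝ) < 2 ^ b := by positivity
  have h5 : V s / 2 ^ b ≤ ((s.1 : ℝ) + (pw s + 480048)) / 2 ^ b := by
    apply div_le_div_of_nonneg_right _ h4.le
    unfold V; linarith
  have h6 : ((1 : ℝ) / 2) ^ b = 1 / 2 ^ b := by rw [div_pow, one_pow]
  rw [h6] at h2
  have h7 : (ε + 480124 / 2 ^ b) + 1 / 2 ^ b * (s.1 : ℝ) + 2 / 2 ^ b * pw s =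
      ε + ((s.1 : ℝ) + (pw s + 480048)) / 2 ^ b + ((1 / 2 ^ b + 75 / 2 ^ b) + 1 / 2 ^ b * pw s)
        := by ring
  linarith

/-- First moment of the level, from any start. -/
theorem P_iter_lin2 {b c A : ℝ} (hb : 0 ≤ b) (hc : 0 ≤ c) (hA : 0 < A) (a : ℝ) (k : ℕ) (s : ℕ × ℤ)
    (hk : (s.1 : ℝ) ^ 2 + k ≤ A ^ 2) :
    (P^[k] (fun s => a + b * (s.1 : ℝ) + c * pw s)) s ≤ a + b * A + c * (0.98 ^ k * pw s + 37.5) := by
  have h1 : ∀ s : ℕ × ℤ, a + b * (s.1 : ℝ) + c * pw s ≤
      (a + b * A / 2) + b / (2 * A) * (s.1 : ℝ) ^ 2 + c * pw s := by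
    intro s
    have : (s.1 : ℝ) ≤ A / 2 + (s.1 : ℝ) ^ 2 / (2 * A) := by
      rw [div_add_div _ _ (by norm_num) (by positivity), le_div_iff₀ (by positivity)]
      nlinarith [sq_nonneg ((s.1 : ℝ) - A)]
    have h2 := mul_le_mul_of_nonneg_left this hb
    have h3 : b * (A / 2 + (s.1 : ℝ) ^ 2 / (2 * A)) = b * A / 2 + b / (2 * A) * (s.1 : ℝ) ^ 2 := by
      field_simp
    linarith
  refine (P_iter_mono k h1 s).trans ((P_iter_lin (by positivity) k _ _ hc s).trans ?_)
  have h4 : b / (2 * A) * ((s.1 : ℝ) ^ 2 + k) ≤ b * A / 2 := by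
    have : b / (2 * A) * ((s.1 : ℝ) ^ 2 + k) = b * ((s.1 : ℝ) ^ 2 + k) / (2 * A) := by ring
    rw [this, div_le_div_iff₀ (by positivity) (by norm_num)]
    nlinarith [mul_le_mul_of_nonneg_left hk hb]
  have h6 : (0 : ℝ) ≤ 0.98 ^ k := by positivity
  have h7 : c * (0.98 ^ k * pw s + 37.5 * (1 - 0.98 ^ k)) ≤ c * (0.98 ^ k * pw s + 37.5) := by
    apply mul_le_mul_of_nonneg_left _ hc
    linarith
  linarith

end Pool.Agent.H499R2.CO
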