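import Mathlib
import Pool.Agent.H33.G.R_seed8.H499R2.CO.R1

set_option autoImplicit false

namespace Pool.Agent.H499R2.CO

open Finset Filter Topology

/-- The rate. -/
noncomputable def rho (k : ℕ) : ℝ := √ (Real.log (k + 1) / k)

theorem log_pos' {k : ℕ} (hk : 1 ≤ k) : 0.69 < Real.log ((k : ℝ) + 1) := by
  have h1 : (2 : ℝ) ≤ (k : ℝ) + 1 := by
    have : (1 : ℝ) ≤ k := by exact_mod_cast hk
    linarith
  have h2 := Real.log_le_log (by norm_num) h1
  have h3 := Real.log_two_gt_d9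
  linarith

theorem rho_nonneg (k : ℕ) : 0 ≤ rho k := Real.sqrt_nonneg _

theorem rho_sq {k : ℕ} (hk : 1 ≤ k) : rho k ^ 2 = Real.log (k + 1) / k := by
  unfold rho
  apply Real.sq_sqrt
  have := log_pos' hk
  positivity

theorem rho_pos {k : ℕ} (hk : 1 ≤ k) : 0 < rho k := by
  unfold rho
  have := log_pos' hk
  have h2 : (0 : ℝ) < k := by exact_mod_cast hk
  apply Real.sqrt_pos.2
  apply div_pos _ h2
  linarith

/-- Comparison of the rate at `m` and `k`. -/
theorem rho_le {m k : ℕ} {c : ℝ} (hm : 1 ≤ m) (hmk : m ≤ k) (hc : 0 ≤ c) (h : (k : ℝ) ≤ c ^ 2 * m) :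
    rho m ≤ c * rho k := by
  have hk : 1 ≤ k := hm.trans hmk
  have hmr : (0 : ℝ) < m := by exact_mod_cast hm
  have hkr : (0 : ℝ) < k := by exact_mod_cast hk
  have hl := log_pos' hk
  have h1 : Real.log ((m : ℝ) + 1) ≤ Real.log ((k : ℝ) + 1) := by
    apply Real.log_le_log (by positivity)
    have : (m : ℝ) ≤ k := by exact_mod_cast hmk
    linarith
  unfold rho
  rw [← Real.sqrt_sq hc, ← Real.sqrt_mul (by positivity)]
  apply Real.sqrt_le_sqrt
  rw [div_le_iff₀ hmr]
  have h2 : c ^ 2 * (Real.log ((k : ℝ) + 1) / k) * m = Real.log ((k : ℝ) + 1) * ((c ^ 2 * m) / k) := by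
    ring
  rw [h2]
  have h3 : 1 ≤ (c ^ 2 * m) / k := by rw [le_div_iff₀ hkr]; linarith
  calc Real.log ((m : ℝ) + 1) ≤ Real.log ((k : ℝ) + 1) * 1 := by rw [mul_one]; exact h1
    _ ≤ Real.log ((k : ℝ) + 1) * ((c ^ 2 * m) / k) := mul_le_mul_of_nonneg_left h3 (by linarith)

/-- The number of blocks. -/
theorem exists_b {k : ℕ} (hk : 1 ≤ k) : ∃ b : ℕ, 49000000 * (2 ^ b) ^ 2 * b ≤ k / 2 ∧
    (1 : ℝ) / 2 ^ b ≤ 28000 * rho k := by
  classical
  have hex : ∃ b : ℕ, ¬ (49000000 * (2 ^ (b + 1)) ^ 2 * (b + 1) ≤ k / 2) := by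
    refine ⟨k, ?_⟩
    push Not
    have h1 : 1 ≤ (2 ^ (k + 1)) ^ 2 := Nat.one_le_pow _ _ (by positivity)
    calc k / 2 < 1 * (k + 1) := by omega
      _ ≤ (49000000 * (2 ^ (k + 1)) ^ 2) * (k + 1) := Nat.mul_le_mul_right _ (by omega)
  set b := Nat.find hex with hb
  have hb1 : ¬ (49000000 * (2 ^ (b + 1)) ^ 2 * (b + 1) ≤ k / 2) := Nat.find_spec hex
  have hb2 : 49000000 * (2 ^ b) ^ 2 * b ≤ k / 2 := by
    rcases Nat.eq_zero_or_pos b with h | h
    · rw [h]; simp
    · have h1 := Nat.find_min hex (m := b - 1) (by omega)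
      rw [not_not, show b - 1 + 1 = b by omega] at h1
      exact h1
  refine ⟨b, hb2, ?_⟩
  have hkr : (0 : ℝ) < k := by exact_mod_cast hk
  have hl := log_pos' hk
  have h3 : (b : ℝ) + 1 ≤ 2 * Real.log (k + 1) := by
    rcases Nat.eq_zero_or_pos b with h | h
    · rw [h]; push_cast; linarith
    · have h4 : 4 ^ b ≤ k := by
        have e : (2 ^ b) ^ 2 = 4 ^ b := by rw [← pow_mul, mul_comm, pow_mul]; norm_num
        rw [e] at hb2
        have h5 : 4 ^ b * 1 ≤ 49000000 * 4 ^ b * b := by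
          apply Nat.mul_le_mul _ h
          omega
        omega
      have h5 : (4 : ℝ) ^ b ≤ k := by exact_mod_cast h4
      have h6 := Real.log_le_log (by positivity) h5
      rw [Real.log_pow] at h6
      have h7 : Real.log 4 = 2 * Real.log 2 := by
        rw [show (4 : ℝ) = 2 ^ 2 by norm_num, Real.log_pow]; norm_num
      have h8 := Real.log_two_gt_d9
      have h9 : Real.log (k : ℝ) ≤ Real.log ((k : ℝ) + 1) := Real.log_le_log hkr (by linarith)
      have h10 : (1 : ℝ) ≤ b := by exact_mod_cast h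
      rw [h7] at h6
      nlinarith
  have h4 : (k : ℝ) ≤ 2 * (49000000 * (2 ^ (b + 1)) ^ 2 * (b + 1)) := by
    push Not at hb1
    have : k ≤ 2 * (49000000 * (2 ^ (b + 1)) ^ 2 * (b + 1)) := by omega
    exact_mod_cast this
  have h5 : ((1 : ℝ) / 2 ^ b) ^ 2 ≤ (28000 * rho k) ^ 2 := by
    rw [mul_pow, rho_sq hk, div_pow, one_pow]
    rw [div_le_iff₀ (by positivity)]
    have h6 : (28000 : ℝ) ^ 2 * (Real.log (k + 1) / k) * (2 ^ b) ^ 2 =
        (784000000 * (2 ^ b) ^ 2 * Real.log (k + 1)) / k := by ring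
    rw [h6, le_div_iff₀ hkr, one_mul]
    have h7 : 2 * (49000000 * ((2 : ℝ) ^ (b + 1)) ^ 2 * (b + 1)) =
        (392000000 * (2 ^ b) ^ 2) * (b + 1) := by rw [pow_succ]; ring
    rw [h7] at h4
    have h8 : (392000000 * ((2 : ℝ) ^ b) ^ 2) * (b + 1) ≤ (392000000 * (2 ^ b) ^ 2) * (2 * Real.log (k + 1)) :=
      mul_le_mul_of_nonneg_left h3 (by positivity)
    linarith
  exact le_of_sq_le_sq h5 (by have := rho_nonneg k; positivity)

/-- States reachable in exactly `k` steps. -/
def RS : ℕ → ℕ × ℤ → Set (ℕ × ℤ)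
  | 0, s => {s}
  | k + 1, s => RS k (step s false) ∪ RS k (step s true)

theorem RS_finite : ∀ (k : ℕ) (s : ℕ × ℤ), (RS k s).Finite := by
  intro k
  induction k with
  | zero => intro s; exact Set.finite_singleton s
  | succ k ih => intro s; exact (ih _).union (ih _)

theorem q_mul_le {n : ℕ} {B : ℝ} : ∀ (k : ℕ) (s : ℕ × ℤ),
    (∀ s' ∈ RS k s, q step (0, 0) n s' ≤ B) → q step (0, 0) (k + n) s ≤ q step (0, 0) k s * B := by
  intro k
  induction k with
  | zero =>
    intro s h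
    by_cases hs : s = (0, 0)
    · subst hs; rw [q_o, q_o]; simp
    · rw [q_zero_ne _ _ hs, zero_add, one_mul]
      exact h s rfl
  | succ k ih =>
    intro s h
    by_cases hs : s = (0, 0)
    · subst hs; rw [q_o, q_o]; simp
    · rw [show k + 1 + n = (k + n) + 1 by ring, q_succ _ _ hs, q_succ _ _ hs]
      have h1 := ih (step s false) (fun s' hs' => h s' (Or.inl hs'))
      have h2 := ih (step s true) (fun s' hs' => h s' (Or.inr hs'))
      linarith

/-- Rate on the finite set. -/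
theorem rate_FF : ∃ B : ℝ, 0 < B ∧ ∀ n : ℕ, 1 ≤ n → ∀ s ∈ FF, q step (0, 0) n s ≤ B * rho n := by
  have hfin : ∀ᶠ k in atTop, ∀ s ∈ FF, q step (0, 0) k s ≤ 1 / 4 := by
    rw [eventually_all_finite FF_finite]
    intro s _
    filter_upwards [(q_lim s).eventually (gt_mem_nhds (show (0 : ℝ) < 1 / 4 by norm_num))] with k hk
    exact hk.le
  obtain ⟨m0, hm0⟩ := hfin.exists
  set G : Set (ℕ × ℤ) := ⋃ s ∈ FF, RS m0 s with hG
  have hGfin : G.Finite := FF_finite.biUnion (fun s _ => RS_finite m0 s)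
  obtain ⟨K, hK⟩ : ∃ K : ℝ, ∀ s ∈ G, 480124 + (s.1 : ℝ) + 2 * pw s ≤ K :=
    (hGfin.image (fun s => 480124 + (s.1 : ℝ) + 2 * pw s)).bddAbove.imp
      (fun K hK s hs => hK (Set.mem_image_of_mem _ hs))
  set K' := max K 0 with hK'
  have hK0 : 0 ≤ K' := le_max_right _ _
  set N1 : ℕ := 8 * (m0 + 2) with hN1
  have hN1' : 1 ≤ N1 := by omega
  set B : ℝ := max (K' * 28000 + 1) (N1 / 0.69 + 1) with hB
  have hBK : K' * 28000 ≤ B := by
    have := le_max_left (K' * 28000 + 1) ((N1 : ℝ) / 0.69 + 1)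
    linarith
  have hB0 : 0 < B := by
    have := le_max_left (K' * 28000 + 1) ((N1 : ℝ) / 0.69 + 1)
    have h2 : 0 < K' * 28000 + 1 := by positivity
    linarith
  refine ⟨B, hB0, ?_⟩
  intro n
  induction n using Nat.strong_induction_on with
  | _ n ih =>
    intro hn s hs
    have hnr : (0 : ℝ) < n := by exact_mod_cast hn
    have hρ := rho_pos hn
    rcases Nat.lt_or_ge N1 n with h | h
    · obtain ⟨b, hb1, hb2⟩ := exists_b hn
      set n' := n - n / 2 - m0 with hn'
      have h3 : 1 ≤ n' := by omega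
      have h4 : n' ≤ n := by omega
      have h5 : n ≤ 4 * n' := by omega
      have hρ' : rho n' ≤ 2 * rho n := by
        apply rho_le h3 h4 (by norm_num)
        have : (n : ℝ) ≤ 4 * n' := by exact_mod_cast h5
        linarith
      have hlt : n' < n := by omega
      have hF : ∀ m', n' ≤ m' → ∀ s ∈ FF, q step (0, 0) m' s ≤ B * rho n' := fun m' hm' s hs =>
        (q_anti' s hm').trans (ih n' hlt h3 s hs)
      have hq1 : ∀ s' ∈ RS m0 s, q step (0, 0) (49000000 * (2 ^ b) ^ 2 * b + n') s' ≤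
          B * rho n' + K' / 2 ^ b := by
        intro s' hs'
        have h6 := hit3 (mul_nonneg hB0.le (rho_nonneg n')) hF b s'
        have h7 : 480124 + (s'.1 : ℝ) + 2 * pw s' ≤ K' :=
          (hK s' (Set.mem_biUnion hs hs')).trans (le_max_left _ _)
        have h8 : (B * rho n' + 480124 / 2 ^ b) + 1 / 2 ^ b * (s'.1 : ℝ) + 2 / 2 ^ b * pw s' =
            B * rho n' + (480124 + (s'.1 : ℝ) + 2 * pw s') / 2 ^ b := by ring
        have h9 : (480124 + (s'.1 : ℝ) + 2 * pw s') / 2 ^ b ≤ K' / 2 ^ b :=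
          div_le_div_of_nonneg_right h7 (by positivity)
        linarith
      have hq2 := q_mul_le (B := B * rho n' + K' / 2 ^ b) m0 s hq1
      have h10 : m0 + (49000000 * (2 ^ b) ^ 2 * b + n') ≤ n := by omega
      have hq3 : q step (0, 0) n s ≤ q step (0, 0) (m0 + (49000000 * (2 ^ b) ^ 2 * b + n')) s :=
        q_anti' s h10
      have hnn : 0 ≤ B * rho n' + K' / 2 ^ b := by
        have := rho_nonneg n'
        positivity
      have h11 : q step (0, 0) m0 s * (B * rho n' + K' / 2 ^ b) ≤ 1 / 4 * (B * rho n' + K' / 2 ^ b) :=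
        mul_le_mul_of_nonneg_right (hm0 s hs) hnn
      have h12 : K' / 2 ^ b ≤ B * rho n := by
        calc K' / 2 ^ b = K' * (1 / 2 ^ b) := by ring
          _ ≤ K' * (28000 * rho n) := mul_le_mul_of_nonneg_left hb2 hK0
          _ = (K' * 28000) * rho n := by ring
          _ ≤ B * rho n := mul_le_mul_of_nonneg_right hBK hρ.le
      have h13 : B * rho n' ≤ B * (2 * rho n) := mul_le_mul_of_nonneg_left hρ' hB0.le
      have h14 : 0 < B * rho n := mul_pos hB0 hρ
      linarith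
    · have h4 := q_le_one step ((0 : ℕ), (0 : ℤ)) n s
      have h5 : (1 : ℝ) ≤ B * rho n := by
        have h6 : (N1 : ℝ) / 0.69 + 1 ≤ B := le_max_right _ _
        have h7 : (n : ℝ) ≤ N1 := by exact_mod_cast h
        have hl := log_pos' hn
        have h8 : 0.69 / (n : ℝ) ≤ rho n := by
          unfold rho
          apply Real.le_sqrt_of_sq_le
          rw [div_pow, div_le_div_iff₀ (by positivity) hnr]
          have h9 : (1 : ℝ) ≤ n := by exact_mod_cast hn
          have h10 : (n : ℝ) ≤ (n : ℝ) ^ 2 := by nlinarith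
          nlinarith
        have h9 : (n : ℝ) / 0.69 ≤ B := by
          have : (n : ℝ) / 0.69 ≤ N1 / 0.69 := div_le_div_of_nonneg_right h7 (by norm_num)
          linarith
        calc (1 : ℝ) = (n : ℝ) / 0.69 * (0.69 / n) := by field_simp
          _ ≤ B * rho n := mul_le_mul h9 h8 (by positivity) hB0.le
      linarith

/-- THE RATE OF COALESCENCE. -/
theorem q_rate : ∃ C : ℝ, 0 < C ∧ ∀ (k : ℕ), 1 ≤ k → ∀ (i u : ℕ) (r : ℤ), |(r : ℝ)| ≤ 4 ^ u →
    q step (0, 0) k (i, r) ≤ C * √ (1 + (i : ℝ) ^ 2 + u) * rho k := by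
  obtain ⟨B, hB, hrate⟩ := rate_FF
  set C : ℝ := 3 * B + 480207 * 28000 + 100 with hC
  have hC0 : 0 < C := by positivity
  refine ⟨C, hC0, fun k hk i u r hr => ?_⟩
  have hkr : (0 : ℝ) < k := by exact_mod_cast hk
  have hρ := rho_pos hk
  set L : ℝ := 1 + (i : ℝ) ^ 2 + u with hL
  have hL1 : 1 ≤ L := by rw [hL]; have : (0 : ℝ) ≤ (i : ℝ) ^ 2 + u := by positivity
                         linarith
  have hsL : 1 ≤ √ L := Real.one_le_sqrt.2 hL1
  have hsL0 : 0 < √ L := by linarith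
  by_cases hbig : 280 * L ≤ k
  · -- main case
    set k1 : ℕ := 35 * u with hk1
    have hiu : (0 : ℝ) ≤ (i : ℝ) ^ 2 := by positivity
    have huL : (u : ℝ) ≤ L - 1 := by rw [hL]; linarith
    have h1 : 8 * k1 ≤ k := by
      have : (8 : ℝ) * (35 * u) ≤ k := by linarith
      rw [hk1]; exact_mod_cast this
    have hk280 : 280 ≤ k := by
      have : (280 : ℝ) ≤ k := by linarith
      exact_mod_cast this
    set m : ℕ := k / 4 with hm
    have hm1 : 1 ≤ m := by omega
    obtain ⟨b, hb1, hb2⟩ := exists_b hk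
    have hsum : k1 + (49000000 * (2 ^ b) ^ 2 * b + m) ≤ k := by omega
    have hρm : rho m ≤ 3 * rho k := by
      apply rho_le hm1 (by omega) (by norm_num)
      have h2 : k ≤ 9 * m := by omega
      have : (k : ℝ) ≤ 9 * m := by exact_mod_cast h2
      linarith
    have hF : ∀ m', m ≤ m' → ∀ s ∈ FF, q step (0, 0) m' s ≤ B * rho m := fun m' hm' s hs =>
      (q_anti' s hm').trans (hrate m hm1 s hs)
    have h3 := hit3 (mul_nonneg hB.le (rho_nonneg m)) hF b
    have h4 := q_add_le (49000000 * (2 ^ b) ^ 2 * b + m) k1 (i, r)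
    have h5 := P_iter_mono k1 h3 (i, r)
    have hA0 : (0 : ℝ) < 6 * √ L := by positivity
    have hkA : (((i, r) : ℕ × ℤ).1 : ℝ) ^ 2 + k1 ≤ (6 * √ L) ^ 2 := by
      rw [mul_pow, Real.sq_sqrt (by linarith), hk1]
      push_cast
      rw [hL]
      have hu0 : (0 : ℝ) ≤ u := by positivity
      linarith
    have h6 := P_iter_lin2 (b := 1 / 2 ^ b) (c := 2 / 2 ^ b) (by positivity) (by positivity) hA0
      (B * rho m + 480124 / 2 ^ b) k1 (i, r) hkA
    have hw : 0.98 ^ k1 * pw (i, r) ≤ 1 := by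
      have h7 : w r ≤ 2 ^ u := by
        unfold w
        rw [Real.sqrt_le_left (by positivity)]
        calc |(r : ℝ)| ≤ 4 ^ u := hr
          _ = (2 ^ u) ^ 2 := by rw [← pow_mul, mul_comm, pow_mul]; norm_num
      have h8 : (0.98 : ℝ) ^ k1 ≤ (1 / 2) ^ u := by
        rw [hk1, pow_mul]
        exact pow_le_pow_left₀ (by positivity) pow_098 u
      have h9 : pw (i, r) ≤ w r := by
        unfold pw
        have : (11 / 20 : ℝ) ^ i ≤ 1 := pow_le_one₀ (by norm_num) (by norm_num)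
        calc (11 / 20 : ℝ) ^ i * w r ≤ 1 * w r := mul_le_mul_of_nonneg_right this (w_nonneg r)
          _ = w r := one_mul _
      calc 0.98 ^ k1 * pw (i, r) ≤ (1 / 2) ^ u * 2 ^ u :=
            mul_le_mul h8 (h9.trans h7) (pw_nonneg _) (by positivity)
        _ = 1 := by rw [← mul_pow]; norm_num
    have h7 : 2 / (2 : ℝ) ^ b * (0.98 ^ k1 * pw (i, r) + 37.5) ≤ 2 / 2 ^ b * 38.5 := by
      apply mul_le_mul_of_nonneg_left _ (by positivity)
      linarith
    have h8 : (B * rho m + 480124 / 2 ^ b) + 1 / 2 ^ b * (6 * √ L) + 2 / 2 ^ b * 38.5 ≤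
        B * rho m + 480207 * √ L * (1 / 2 ^ b) := by
      have e : B * rho m + 480207 * √ L * (1 / 2 ^ b) -
          ((B * rho m + 480124 / 2 ^ b) + 1 / 2 ^ b * (6 * √ L) + 2 / 2 ^ b * 38.5) =
          480201 * (√ L - 1) * (1 / 2 ^ b) := by ring
      have : 0 ≤ 480201 * (√ L - 1) * (1 / (2 : ℝ) ^ b) := by
        apply mul_nonneg _ (by positivity)
        apply mul_nonneg (by norm_num)
        linarith
      linarith
    have h9 : q step (0, 0) k (i, r) ≤ B * rho m + 480207 * √ L * (1 / 2 ^ b) := by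
      have h10 : q step (0, 0) k (i, r) ≤ q step (0, 0) (k1 + (49000000 * (2 ^ b) ^ 2 * b + m)) (i, r) :=
        q_anti' (i, r) hsum
      linarith
    have h10 : 480207 * √ L * (1 / (2 : ℝ) ^ b) ≤ 480207 * √ L * (28000 * rho k) :=
      mul_le_mul_of_nonneg_left hb2 (by positivity)
    have h11 : B * rho m ≤ 3 * B * √ L * rho k := by
      calc B * rho m ≤ B * (3 * rho k) := mul_le_mul_of_nonneg_left hρm hB.le
        _ = (3 * B * rho k) * 1 := by ring
        _ ≤ (3 * B * rho k) * √ L := mul_le_mul_of_nonneg_left hsL (by positivity)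
        _ = 3 * B * √ L * rho k := by ring
    have h12 : C * √ L * rho k = 3 * B * √ L * rho k + 480207 * √ L * (28000 * rho k)
        + 100 * √ L * rho k := by rw [hC]; ring
    have h13 : 0 ≤ 100 * √ L * rho k := by positivity
    linarith
  · push Not at hbig
    have h1 := q_le_one step ((0 : ℕ), (0 : ℤ)) k (i, r)
    have hl := log_pos' hk
    have h2 : (1 : ℝ) ≤ 100 * (√ L * rho k) := by
      unfold rho
      rw [← Real.sqrt_mul (by linarith)]
      have h3 : (1 / 100 : ℝ) ≤ √ (L * (Real.log (k + 1) / k)) := by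
        apply Real.le_sqrt_of_sq_le
        have h4 : L * (Real.log ((k : ℝ) + 1) / k) = (L * Real.log (k + 1)) / k := by ring
        rw [h4, le_div_iff₀ hkr]
        nlinarith
      linarith
    have h3 : 100 * (√ L * rho k) ≤ C * √ L * rho k := by
      have h4 : (100 : ℝ) ≤ C := by rw [hC]; linarith
      calc 100 * (√ L * rho k) ≤ C * (√ L * rho k) := mul_le_mul_of_nonneg_right h4 (by positivity)
        _ = C * √ L * rho k := by ring
    linarith

end Pool.Agent.H499R2.CO
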