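import Mathlib
import Pool.Agent.H33.G.R_seed8.H499R2.CO.S

set_option autoImplicit false

namespace Pool.Agent.H499R2.CO

open Finset Filter Topology Pool.Agent.H499R2.ND

/-! Both signs. -/

theorem Tz_sign {s : ℤ} (hs : s = 1 ∨ s = -1) (x : ℤ) : s * Tz s x = Tz 1 (s * x) := by
  rcases hs with rfl | rfl
  · simp
  · unfold Tz
    rcases Int.emod_two_eq_zero_or_one x with h | h
    · rw [if_pos h, if_pos (by omega)]; omega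
    · rw [if_neg (by omega), if_neg (by omega)]; omega

theorem Tz_sign_iter {s : ℤ} (hs : s = 1 ∨ s = -1) (k : ℕ) : ∀ x : ℤ,
    s * (Tz s)^[k] x = (Tz 1)^[k] (s * x) := by
  induction k with
  | zero => intro x; rfl
  | succ k ih =>
    intro x
    rw [Function.iterate_succ_apply, Function.iterate_succ_apply, ih, Tz_sign hs]

theorem sign_pos {s : ℤ} (hs : s = 1 ∨ s = -1) (x : ℤ) : 0 < s * x ↔ 0 < s * Tz 1 x := by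
  unfold Tz
  rcases hs with rfl | rfl
  · split_ifs <;> omega
  · split_ifs <;> omega

theorem sign_pos_iter {s : ℤ} (hs : s = 1 ∨ s = -1) (k : ℕ) : ∀ x : ℤ,
    0 < s * x ↔ 0 < s * (Tz 1)^[k] x := by
  induction k with
  | zero => intro x; rfl
  | succ k ih => intro x; rw [Function.iterate_succ_apply, sign_pos hs, ih]

open Classical in
theorem solid_side {s : ℤ} (hs : s = 1 ∨ s = -1) {ε κ : ℝ} (hε : 0 < ε) (hκ : 0 < κ) :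
    ∃ θ : ℝ, 0 < θ ∧ ∃ N0 : ℕ, ∀ N ≥ N0,
    (#{n ∈ Icc 1 N | κ * ⌊(N : ℝ) ^ θ⌋₊ <
      (#{j ∈ Icc 1 ⌊(N : ℝ) ^ θ⌋₊ | ¬ ∃ t, 2 ^ t ≤ N ∧
        (Tz 1)^[t] (s * (n : ℕ)) = (Tz 1)^[t] (s * (n : ℕ) + (j : ℕ))} : ℝ)} : ℝ) ≤ ε * N := by
  obtain ⟨θ, hθ, N0, hN0⟩ := solidT (ε := ε * κ) (by positivity)
  refine ⟨θ, hθ, N0, fun N hN => ?_⟩
  apply markov N ⌊(N : ℝ) ^ θ⌋₊ (fun n j => ¬ ∃ t, 2 ^ t ≤ N ∧
        (Tz 1)^[t] (s * ((n : ℕ) : ℤ)) = (Tz 1)^[t] (s * ((n : ℕ) : ℤ) + ((j : ℕ) : ℤ))) hε.le hκ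
  intro j hj
  rw [mem_Icc] at hj
  have hsodd : s % 2 = 1 := by rcases hs with rfl | rfl <;> norm_num
  have h1 : (j : ℝ) ≤ ⌊(N : ℝ) ^ θ⌋₊ := by exact_mod_cast hj.2
  have h2 : |(((j : ℕ) : ℤ) : ℝ)| ≤ (N : ℝ) ^ θ := by
    rw [abs_of_nonneg (by positivity)]
    push_cast
    exact h1.trans (Nat.floor_le (by positivity))
  refine le_trans ?_ (hN0 N hN s hsodd ((j : ℕ) : ℤ) h2)
  have hss : s * s = 1 := by rcases hs with rfl | rfl <;> norm_num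
  have : #{n ∈ Icc 1 N | ¬ ∃ t, 2 ^ t ≤ N ∧
        (Tz 1)^[t] (s * ((n : ℕ) : ℤ)) = (Tz 1)^[t] (s * ((n : ℕ) : ℤ) + ((j : ℕ) : ℤ))} ≤
      #{n ∈ Icc 1 N | ¬ ∃ t, 2 ^ t ≤ N ∧
        (Tz s)^[t] ((n : ℕ) : ℤ) = (Tz s)^[t] ((n : ℤ) + s * ((j : ℕ) : ℤ))} := by
    apply card_le_card
    intro n hn
    rw [mem_filter] at hn ⊢
    refine ⟨hn.1, ?_⟩
    rintro ⟨t, ht, hh⟩
    apply hn.2
    refine ⟨t, ht, ?_⟩
    have e : s * ((n : ℕ) : ℤ) + ((j : ℕ) : ℤ) = s * ((n : ℤ) + s * ((j : ℕ) : ℤ)) := by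
      rw [mul_add, ← mul_assoc, hss, one_mul]
    rw [e, ← Tz_sign_iter hs, ← Tz_sign_iter hs, hh]
  exact_mod_cast this

/-- Coalescing integers merge. -/
theorem merge_of_coalT {x y : ℤ} {t : ℕ} (h : (Tz 1)^[t] x = (Tz 1)^[t] y) : x ∈ Kc y := by
  obtain ⟨a, ha⟩ := Td_iter_Ci t x
  obtain ⟨b, hb⟩ := Td_iter_Ci t y
  have e : ∀ z : ℤ, (Tz 1)^[t] z = (Td 1)^[t] z := fun z => rfl
  rw [e, e, ha, hb] at h
  exact ⟨a, b, h⟩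

/-- Sets invariant under `T` are invariant under the Collatz map. -/
theorem inv_Ci {R : Set ℤ} (hR : ∀ x, x ∈ R ↔ Tz 1 x ∈ R) (x : ℤ) : x ∈ R ↔ Ci x ∈ R := by
  rcases Int.emod_two_eq_zero_or_one x with h | h
  · have e : Ci x = Tz 1 x := by simp [Ci, Tz, h]
    rw [e]; exact hR x
  · have e : Ci x = 3 * x + 1 := by simp [Ci, h]
    have e2 : Tz 1 (3 * x + 1) = Tz 1 x := by
      unfold Tz
      rw [if_pos (by omega), if_neg (by omega)]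
    rw [e, hR x, hR (3 * x + 1), e2]

theorem inv_Kc {R : Set ℤ} (hR : ∀ x, x ∈ R ↔ Tz 1 x ∈ R) {x y : ℤ} (h : x ∈ Kc y) :
    x ∈ R ↔ y ∈ R := by
  have hit : ∀ (k : ℕ) (z : ℤ), z ∈ R ↔ Ci^[k] z ∈ R := by
    intro k
    induction k with
    | zero => intro z; rfl
    | succ k ih => intro z; rw [Function.iterate_succ_apply, inv_Ci hR, ih]
  obtain ⟨i, j, h⟩ := h
  rw [hit i x, hit j y, h]

open Classical in
theorem class_many_side {s : ℤ} (hs : s = 1 ∨ s = -1) {b : ℤ} (hb : 0 < s * b) :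
    ∃ δ : ℝ, 0 < δ ∧ ∀ᶠ N : ℕ in atTop,
    δ * N ≤ (#{n ∈ Icc 1 N | s * ((n : ℕ) : ℤ) ∈ Kc b} : ℝ) := by
  obtain ⟨δ, hδ, hlim⟩ := class_density hs hb
  have hlim' := nat_limit hlim
  refine ⟨δ / 2, by positivity, ?_⟩
  filter_upwards [hlim'.eventually (lt_mem_nhds (show δ / 2 < δ by linarith)), eventually_gt_atTop 0] with N hN hN0
  have hNr : (0 : ℝ) < N := by exact_mod_cast hN0
  rw [lt_div_iff₀ hNr] at hN
  refine hN.le.trans ?_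
  unfold G
  have : (pos (Ks s b) ((N : ℝ) + 1)).card ≤ #{n ∈ Icc 1 N | s * ((n : ℕ) : ℤ) ∈ Kc b} := by
    apply card_le_card_of_injOn (fun x : ℤ => x.toNat)
    · intro x hx
      rw [mem_coe, mem_pos] at hx
      rw [mem_coe, mem_filter, mem_Icc]
      beta_reduce
      obtain ⟨⟨h1, h2⟩, h3⟩ := hx
      have h4 : x < N + 1 := by
        have : (x : ℝ) < ((N + 1 : ℤ) : ℝ) := by push_cast; exact h2
        exact_mod_cast this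
      have h5 : ((x.toNat : ℕ) : ℤ) = x := Int.toNat_of_nonneg (by omega)
      refine ⟨⟨by omega, by omega⟩, ?_⟩
      rw [h5]
      exact h3
    · intro x hx y hy hxy
      rw [mem_coe, mem_pos] at hx hy
      simp only at hxy
      have := hx.1.1; have := hy.1.1
      omega
  exact_mod_cast this

open Classical in
/-- SUFFICIENT SETS for invariant sets of integers of one sign. -/
theorem sufficient_side {s : ℤ} (hs : s = 1 ∨ s = -1) {R : Set ℤ} (hR : ∀ x, x ∈ R ↔ Tz 1 x ∈ R)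
    (S : Set ℤ)
    (hS : ∀ ε : ℝ, 0 < ε → ∃ c : ℝ, 0 < c ∧ ∀ θ : ℝ, 0 < θ → ∃ᶠ N : ℕ in atTop,
      (#{n ∈ Icc 1 N | (#{j ∈ Icc 1 ⌊(N : ℝ) ^ θ⌋₊ | s * ((n : ℕ) : ℤ) + ((j : ℕ) : ℤ) ∈ S} : ℝ) <
        c * ⌊(N : ℝ) ^ θ⌋₊} : ℝ) ≤ ε * N)
    (h1 : ∀ x ∈ S, 0 < s * x → x ∈ R) : ∀ x, 0 < s * x → x ∈ R := by
  intro b hb
  by_contra hcon
  obtain ⟨δ, hδ, hclass⟩ := class_many_side hs hb
  obtain ⟨c, hc, hcθ⟩ := hS (δ / 4) (by positivity)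
  obtain ⟨θ, hθ, N0, hN0⟩ := solid_side hs (ε := δ / 4) (κ := c / 2) (by positivity) (by positivity)
  have hev : ∀ᶠ N : ℕ in atTop, 1 ≤ ⌊(N : ℝ) ^ θ⌋₊ := by
    filter_upwards [eventually_ge_atTop 1] with N hN
    rw [Nat.one_le_floor_iff]
    exact Real.one_le_rpow (by exact_mod_cast hN) hθ.le
  obtain ⟨N, hN1, ⟨⟨hN2, hN3⟩, hN4⟩, hN5⟩ :=
    ((hcθ θ hθ).and_eventually (((hclass.and (eventually_ge_atTop N0)).and hev).and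
      (eventually_gt_atTop 0))).exists
  have hNr : (0 : ℝ) < N := by exact_mod_cast hN5
  set Hh := ⌊(N : ℝ) ^ θ⌋₊ with hHh
  have h2 := hN0 N hN3
  set K := ({n ∈ Icc 1 N | s * ((n : ℕ) : ℤ) ∈ Kc b} : Finset ℕ) with hK
  set E1 := ({n ∈ Icc 1 N | (#{j ∈ Icc 1 Hh | s * ((n : ℕ) : ℤ) + ((j : ℕ) : ℤ) ∈ S} : ℝ) <
    c * Hh} : Finset ℕ) with hE1
  set E2 := ({n ∈ Icc 1 N | c / 2 * Hh <
      (#{j ∈ Icc 1 Hh | ¬ ∃ t, 2 ^ t ≤ N ∧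
        (Tz 1)^[t] (s * (n : ℕ)) = (Tz 1)^[t] (s * (n : ℕ) + (j : ℕ))} : ℝ)} : Finset ℕ) with hE2
  have hex : ∃ n ∈ K, n ∉ E1 ∧ n ∉ E2 := by
    by_contra hno
    push Not at hno
    have hsub : K ⊆ E1 ∪ E2 := by
      intro n hn
      rw [mem_union]
      by_cases h : n ∈ E1
      · exact Or.inl h
      · exact Or.inr (hno n hn h)
    have h3 : (#K : ℝ) ≤ #E1 + #E2 := by
      exact_mod_cast (card_le_card hsub).trans (card_union_le _ _)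
    have h4 : (#E1 : ℝ) ≤ δ / 4 * N := hN1
    have h5 : (#E2 : ℝ) ≤ δ / 4 * N := h2
    have h6 : 0 < δ * N := by positivity
    linarith
  obtain ⟨n, hnK, hn1, hn2⟩ := hex
  rw [hK, mem_filter, mem_Icc] at hnK
  have hnI : n ∈ Icc 1 N := mem_Icc.2 hnK.1
  have a1 : c * Hh ≤ (#{j ∈ Icc 1 Hh | s * ((n : ℕ) : ℤ) + ((j : ℕ) : ℤ) ∈ S} : ℝ) := by
    by_contra h
    rw [not_le] at h
    exact hn1 (by rw [hE1, mem_filter]; exact ⟨hnI, h⟩)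
  have a2 : (#{j ∈ Icc 1 Hh | ¬ ∃ t, 2 ^ t ≤ N ∧
        (Tz 1)^[t] (s * (n : ℕ)) = (Tz 1)^[t] (s * (n : ℕ) + (j : ℕ))} : ℝ) ≤ c / 2 * Hh := by
    by_contra h
    rw [not_le] at h
    exact hn2 (by rw [hE2, mem_filter]; exact ⟨hnI, h⟩)
  have hHr : (1 : ℝ) ≤ Hh := by exact_mod_cast hN4
  have a3 : ∃ j ∈ ({j ∈ Icc 1 Hh | s * ((n : ℕ) : ℤ) + ((j : ℕ) : ℤ) ∈ S} : Finset ℕ), j ∉
      ({j ∈ Icc 1 Hh | ¬ ∃ t, 2 ^ t ≤ N ∧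
        (Tz 1)^[t] (s * (n : ℕ)) = (Tz 1)^[t] (s * (n : ℕ) + (j : ℕ))} : Finset ℕ) := by
    by_contra hno
    have hno' : ∀ j ∈ ({j ∈ Icc 1 Hh | s * ((n : ℕ) : ℤ) + ((j : ℕ) : ℤ) ∈ S} : Finset ℕ), j ∈
      ({j ∈ Icc 1 Hh | ¬ ∃ t, 2 ^ t ≤ N ∧
        (Tz 1)^[t] (s * (n : ℕ)) = (Tz 1)^[t] (s * (n : ℕ) + (j : ℕ))} : Finset ℕ) := by
      intro j hj
      by_contra hcon2
      exact hno ⟨j, hj, hcon2⟩
    have h3 := card_le_card (show ({j ∈ Icc 1 Hh | s * ((n : ℕ) : ℤ) + ((j : ℕ) : ℤ) ∈ S} : Finset ℕ) ⊆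
      ({j ∈ Icc 1 Hh | ¬ ∃ t, 2 ^ t ≤ N ∧
        (Tz 1)^[t] (s * (n : ℕ)) = (Tz 1)^[t] (s * (n : ℕ) + (j : ℕ))} : Finset ℕ) from hno')
    have h4 : (#{j ∈ Icc 1 Hh | s * ((n : ℕ) : ℤ) + ((j : ℕ) : ℤ) ∈ S} : ℝ) ≤
      (#{j ∈ Icc 1 Hh | ¬ ∃ t, 2 ^ t ≤ N ∧
        (Tz 1)^[t] (s * (n : ℕ)) = (Tz 1)^[t] (s * (n : ℕ) + (j : ℕ))} : ℝ) := by exact_mod_cast h3
    have h5 : 0 < c * Hh := by positivity
    linarith
  obtain ⟨j, hj1, hj2⟩ := a3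
  rw [mem_filter] at hj1
  have hco : ∃ t, 2 ^ t ≤ N ∧ (Tz 1)^[t] (s * (n : ℕ)) = (Tz 1)^[t] (s * (n : ℕ) + (j : ℕ)) := by
    by_contra h
    exact hj2 (by rw [mem_filter]; exact ⟨hj1.1, h⟩)
  obtain ⟨t, _, ht⟩ := hco
  have hss : s * (s * ((n : ℕ) : ℤ)) = n := by rcases hs with rfl | rfl <;> ring
  have hpos : 0 < s * (s * ((n : ℕ) : ℤ) + ((j : ℕ) : ℤ)) := by
    rw [sign_pos_iter hs t, ← ht, ← sign_pos_iter hs t, hss]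
    omega
  have b2 := h1 _ hj1.2 hpos
  have b3 : s * ((n : ℕ) : ℤ) ∈ R := (inv_Kc hR (merge_of_coalT ht)).2 b2
  exact hcon ((inv_Kc hR hnK.2).1 b3)

end Pool.Agent.H499R2.CO
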