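import Mathlib
import Pool.Agent.H33.G.R_seed8.H499R2.CO.R2
import Pool.Agent.H33.G.R_seed8.H499R2.CO.S2

set_option autoImplicit false

namespace Pool.Agent.H499R2.CO

open Finset Filter Topology

/-! Counting with the rate. -/

/-- The rate in terms of `N`. -/
theorem rho_log {N : ℕ} (hN : 16 ≤ N) : 4 ≤ Nat.log 2 N ∧
    rho (Nat.log 2 N) ≤ √ (2 * Real.log (Real.log N) / Real.log N) := by
  have hN0 : N ≠ 0 := by omega
  set k := Nat.log 2 N with hk
  have hk4 : 4 ≤ k := (Nat.le_log_iff_pow_le (by norm_num) hN0).2 (by norm_num; exact hN)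
  refine ⟨hk4, ?_⟩
  have hkr : (4 : ℝ) ≤ k := by exact_mod_cast hk4
  have h1 : 2 ^ k ≤ N := Nat.pow_log_le_self 2 hN0
  have h2 : N < 2 ^ (k + 1) := Nat.lt_pow_succ_log_self (by norm_num) N
  have h1r : (2 : ℝ) ^ k ≤ N := by exact_mod_cast h1
  have h2r : (N : ℝ) ≤ 2 ^ (k + 1) := by exact_mod_cast h2.le
  have hNr : (16 : ℝ) ≤ N := by exact_mod_cast hN
  set y := Real.log N with hy
  have l2 := Real.log_two_gt_d9
  have l2' := Real.log_two_lt_d9
  have h3 : (k : ℝ) * Real.log 2 ≤ y := by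
    have := Real.log_le_log (by positivity) h1r
    rwa [Real.log_pow] at this
  have h4 : y ≤ ((k : ℝ) + 1) * Real.log 2 := by
    have := Real.log_le_log (by linarith) h2r
    rw [Real.log_pow] at this
    push_cast at this
    exact this
  have hy16 : 2.77 ≤ y := by
    have := Real.log_le_log (by norm_num) hNr
    rw [show (16 : ℝ) = 2 ^ 4 by norm_num, Real.log_pow] at this
    push_cast at this
    linarith
  have hy0 : 0 < y := by linarith
  have h5 : (k : ℝ) + 1 ≤ y ^ 2 := by nlinarith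
  have h6 : y ≤ k := by nlinarith
  have h7 : Real.log ((k : ℝ) + 1) ≤ 2 * Real.log y := by
    have := Real.log_le_log (by positivity) h5
    rw [Real.log_pow] at this
    push_cast at this
    exact this
  unfold rho
  apply Real.sqrt_le_sqrt
  have h8 : 0 < Real.log y := Real.log_pos (by linarith)
  rw [div_le_div_iff₀ (by linarith) hy0]
  calc Real.log ((k : ℝ) + 1) * y ≤ (2 * Real.log y) * y := mul_le_mul_of_nonneg_right h7 hy0.le
    _ ≤ (2 * Real.log y) * k := mul_le_mul_of_nonneg_left h6 (by linarith)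

theorem clog_bound (a : ℕ) : (Nat.clog 4 a : ℝ) ≤ 1 + Real.log (1 + a) := by
  rcases Nat.eq_zero_or_pos (Nat.clog 4 a) with h | h
  · rw [h]
    have : 0 ≤ Real.log (1 + (a : ℝ)) := Real.log_nonneg (by
      have : (0 : ℝ) ≤ a := by positivity
      linarith)
    push_cast; linarith
  · have h1 : 4 ^ (Nat.clog 4 a - 1) < a := by
      have := Nat.pow_pred_clog_lt_self (b := 4) (by norm_num) (x := a) (by
        by_contra hcon
        push Not at hcon
        rw [Nat.clog_of_right_le_one hcon] at h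
        omega)
      exact this
    have h2 : ((4 : ℝ)) ^ (Nat.clog 4 a - 1) ≤ 1 + a := by
      have : (4 : ℝ) ^ (Nat.clog 4 a - 1) < a := by exact_mod_cast h1
      linarith
    have h3 := Real.log_le_log (by positivity) h2
    rw [Real.log_pow] at h3
    have h4 : (1 : ℝ) ≤ Real.log 4 := by
      rw [show (4 : ℝ) = 2 ^ 2 by norm_num, Real.log_pow]
      have := Real.log_two_gt_d9
      push_cast; linarith
    have h5 : ((Nat.clog 4 a - 1 : ℕ) : ℝ) = (Nat.clog 4 a : ℝ) - 1 := by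
      rw [Nat.cast_sub h]; norm_num
    rw [h5] at h3
    have h6 : (1 : ℝ) ≤ Nat.clog 4 a := by exact_mod_cast h
    nlinarith

theorem L_bound (i a : ℕ) : 1 + (i : ℝ) ^ 2 + (Nat.clog 4 a : ℝ) ≤ 2 * (1 + (i : ℝ) ^ 2 + Real.log (1 + a)) := by
  have h := clog_bound a
  have h2 : 0 ≤ Real.log (1 + (a : ℝ)) := Real.log_nonneg (by
    have : (0 : ℝ) ≤ a := by positivity
    linarith)
  have h3 : (0 : ℝ) ≤ (i : ℝ) ^ 2 := by positivity
  linarith

/-- The bound for `q` in terms of `N`. -/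
theorem q_N : ∃ C : ℝ, 0 < C ∧ ∀ N : ℕ, 16 ≤ N → ∀ (i : ℕ) (r : ℤ) (G : ℕ), |r| ≤ G →
    ((N : ℝ) + 2 ^ (Nat.log 2 N / 4) + 1) * q step (0, 0) (Nat.log 2 N / 4) (i, r) ≤
      C * √ ((1 + (i : ℝ) ^ 2 + Real.log (1 + G)) * (Real.log (Real.log N) / Real.log N)) * N := by
  obtain ⟨C, hC, hq⟩ := q_rate
  refine ⟨3 * (C * 6), by positivity, fun N hN i r G hr => ?_⟩
  obtain ⟨hk4, hρ⟩ := rho_log hN
  set k := Nat.log 2 N with hk
  have hN0 : N ≠ 0 := by omega
  have h1 : 2 ^ k ≤ N := Nat.pow_log_le_self 2 hN0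
  set k' := k / 4 with hk'
  have hk'1 : 1 ≤ k' := by omega
  have hρ' : rho k' ≤ 3 * rho k := by
    apply rho_le hk'1 (by omega) (by norm_num)
    have : k ≤ 9 * k' := by omega
    have : (k : ℝ) ≤ 9 * k' := by exact_mod_cast this
    linarith
  have hr' : |(r : ℝ)| ≤ 4 ^ (Nat.clog 4 G) := by
    have h2 : G ≤ 4 ^ (Nat.clog 4 G) := Nat.le_pow_clog (by norm_num) G
    have h3 : |(r : ℝ)| ≤ G := by exact_mod_cast hr
    have h4 : (G : ℝ) ≤ 4 ^ (Nat.clog 4 G) := by exact_mod_cast h2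
    linarith
  have h2 := hq k' hk'1 i (Nat.clog 4 G) r hr'
  have hL := L_bound i G
  set X : ℝ := 1 + (i : ℝ) ^ 2 + Real.log (1 + G) with hX
  have hlog : 0 ≤ Real.log (1 + (G : ℝ)) := Real.log_nonneg (by
    have : (0 : ℝ) ≤ G := by positivity
    linarith)
  have hX0 : 0 < X := by rw [hX]; positivity
  have h3 : √ (1 + (i : ℝ) ^ 2 + (Nat.clog 4 G : ℝ)) ≤ √ (2 * X) := Real.sqrt_le_sqrt hL
  have h4 : √ (2 * X) * √ (2 * Real.log (Real.log N) / Real.log N) =
      2 * √ (X * (Real.log (Real.log N) / Real.log N)) := by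
    rw [← Real.sqrt_mul (by positivity)]
    have e : 2 * X * (2 * Real.log (Real.log N) / Real.log N) =
        2 ^ 2 * (X * (Real.log (Real.log N) / Real.log N)) := by ring
    rw [e, Real.sqrt_mul (by positivity), Real.sqrt_sq (by norm_num)]
  have h5 : q step (0, 0) k' (i, r) ≤ (C * 6) * √ (X * (Real.log (Real.log N) / Real.log N)) := by
    calc q step (0, 0) k' (i, r) ≤ C * √ (1 + (i : ℝ) ^ 2 + (Nat.clog 4 G : ℝ)) * rho k' := h2
      _ ≤ C * √ (2 * X) * (3 * √ (2 * Real.log (Real.log N) / Real.log N)) := by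
          apply mul_le_mul (mul_le_mul_of_nonneg_left h3 hC.le) _ (rho_nonneg _) (by positivity)
          linarith
      _ = C * 3 * (√ (2 * X) * √ (2 * Real.log (Real.log N) / Real.log N)) := by ring
      _ = (C * 6) * √ (X * (Real.log (Real.log N) / Real.log N)) := by rw [h4]; ring
  have hNr : (16 : ℝ) ≤ N := by exact_mod_cast hN
  have h6 : (2 : ℝ) ^ k' ≤ N := by
    have : 2 ^ k' ≤ N := (Nat.pow_le_pow_right (by norm_num) (by omega : k' ≤ k)).trans h1
    exact_mod_cast this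
  calc ((N : ℝ) + 2 ^ k' + 1) * q step (0, 0) k' (i, r)
      ≤ (3 * N) * ((C * 6) * √ (X * (Real.log (Real.log N) / Real.log N))) := by
        apply mul_le_mul _ h5 (q_nonneg _ _ _ _) (by positivity)
        linarith
    _ = 3 * (C * 6) * √ (X * (Real.log (Real.log N) / Real.log N)) * N := by ring

open Classical in
/-- Counting pairs which do not coalesce. -/
theorem pair_count : ∃ C : ℝ, 0 < C ∧ ∀ N : ℕ, 16 ≤ N → ∀ d : ℤ, d % 2 = 1 → ∀ (i : ℕ) (r : ℤ),
    (#{n ∈ Icc 1 N | surv d (Nat.log 2 N / 4) (i, r) (n : ℕ)} : ℝ) ≤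
      C * √ ((1 + (i : ℝ) ^ 2 + Real.log (1 + |(r : ℝ)|)) * (Real.log (Real.log N) / Real.log N)) * N := by
  obtain ⟨C, hC, h⟩ := q_N
  refine ⟨C, hC, fun N hN d hd i r => ?_⟩
  have h1 := h N hN i r r.natAbs (by rw [Int.natCast_natAbs])
  have e : ((r.natAbs : ℕ) : ℝ) = |(r : ℝ)| := by
    rw [Nat.cast_natAbs, Int.cast_abs]
  rw [e] at h1
  exact (count_le hd _ _ N).trans h1

open Classical in
/-- Counting the runs which do not coalesce. -/
theorem run_count : ∃ C : ℝ, 0 < C ∧ ∀ N : ℕ, 16 ≤ N → ∀ d : ℤ, d % 2 = 1 → ∀ G : ℕ,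
    (#{n ∈ Icc 1 N | ∃ h ∈ Icc 1 G, surv d (Nat.log 2 N / 4) (0, ((h : ℕ) : ℤ)) (n : ℕ)} : ℝ) ≤
      G * (C * √ ((1 + Real.log (1 + G)) * (Real.log (Real.log N) / Real.log N)) * N) := by
  obtain ⟨C, hC, h⟩ := q_N
  refine ⟨C, hC, fun N hN d hd G => ?_⟩
  have hsub : ({n ∈ Icc 1 N | ∃ h ∈ Icc 1 G, surv d (Nat.log 2 N / 4) (0, ((h : ℕ) : ℤ)) (n : ℕ)} : Finset ℕ) ⊆
      (Icc 1 G).biUnion (fun h => {n ∈ Icc 1 N | surv d (Nat.log 2 N / 4) (0, ((h : ℕ) : ℤ)) (n : ℕ)}) := by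
    intro n hn
    rw [mem_filter] at hn
    obtain ⟨hn1, j, hj, hs⟩ := hn
    rw [mem_biUnion]
    exact ⟨j, hj, mem_filter.2 ⟨hn1, hs⟩⟩
  have h1 : (#{n ∈ Icc 1 N | ∃ h ∈ Icc 1 G, surv d (Nat.log 2 N / 4) (0, ((h : ℕ) : ℤ)) (n : ℕ)} : ℝ) ≤
      ∑ j ∈ Icc 1 G, (#{n ∈ Icc 1 N | surv d (Nat.log 2 N / 4) (0, ((j : ℕ) : ℤ)) (n : ℕ)} : ℝ) := by
    have := (card_le_card hsub).trans card_biUnion_le
    exact_mod_cast this
  refine h1.trans ?_
  calc ∑ j ∈ Icc 1 G, (#{n ∈ Icc 1 N | surv d (Nat.log 2 N / 4) (0, ((j : ℕ) : ℤ)) (n : ℕ)} : ℝ)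
      ≤ ∑ j ∈ Icc 1 G, (C * √ ((1 + Real.log (1 + G)) * (Real.log (Real.log N) / Real.log N)) * N) := by
        apply sum_le_sum
        intro j hj
        rw [mem_Icc] at hj
        have h2 := h N hN 0 (j : ℤ) G (by rw [abs_of_nonneg (by positivity)]; exact_mod_cast hj.2)
        have e : 1 + ((0 : ℕ) : ℝ) ^ 2 + Real.log (1 + G) = 1 + Real.log (1 + G) := by norm_num
        rw [e] at h2
        exact (count_le hd _ _ N).trans h2
    _ = G * (C * √ ((1 + Real.log (1 + G)) * (Real.log (Real.log N) / Real.log N)) * N) := by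
        rw [sum_const, Nat.card_Icc, nsmul_eq_mul]; norm_num

end Pool.Agent.H499R2.CO
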