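import Mathlib
import Pool.Agent.H33.G.R_seed8.H499R2.CO.R3
import Pool.Agent.H33.G.R_seed8.H499R2.CO.G

set_option autoImplicit false

namespace Pool.Agent.H499R2.CO

open Finset Filter Topology

/-! Runs of consecutive integers which coalesce. -/

/-- Slow growth: `g n = o(√(log n) / log log n)`. -/
def Slow (g : ℕ → ℕ) : Prop :=
  Tendsto (fun n : ℕ => (g n : ℝ) * Real.log (Real.log n) / √ (Real.log n)) atTop (𝓝 0)

open Classical in
theorem run_small {g : ℕ → ℕ} (hg : Slow g) {ε : ℝ} (hε : 0 < ε) : ∃ N0 : ℕ, ∀ N ≥ N0,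
    ∀ d : ℤ, d % 2 = 1 →
    (#{n ∈ Icc 1 N | ¬ (4 ^ (Nat.log 2 N / 4) ≤ n ∧
      ∀ h ∈ Icc 1 (g n), ¬ surv d (Nat.log 2 N / 4) (0, ((h : ℕ) : ℤ)) (n : ℕ))} : ℝ) ≤ ε * N := by
  obtain ⟨C, hC, hcount⟩ := run_count
  set η : ℝ := min 1 (ε / (3 * C)) with hη
  have hη0 : 0 < η := lt_min one_pos (by positivity)
  have hη1 : η ≤ 1 := min_le_left _ _
  have hηC : C * η ≤ ε / 3 := by
    have : η ≤ ε / (3 * C) := min_le_right _ _
    calc C * η ≤ C * (ε / (3 * C)) := mul_le_mul_of_nonneg_left this hC.le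
      _ = ε / 3 := by field_simp
  obtain ⟨n0, hn0⟩ := eventually_atTop.1 (hg.eventually (gt_mem_nhds (show (0 : ℝ) < η / 2 by positivity)))
  obtain ⟨N1, hN1⟩ := exists_nat_ge (max (16 / ε ^ 2) (4 * (n0 + 1) / ε))
  refine ⟨max 100 N1, fun N hN d hd => ?_⟩
  have hN100 : 100 ≤ N := (le_max_left _ _).trans hN
  have hN1r : (N1 : ℝ) ≤ N := by exact_mod_cast (le_max_right _ _).trans hN
  have hNa : 16 / ε ^ 2 ≤ N := ((le_max_left _ _).trans hN1).trans hN1r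
  have hNb : 4 * ((n0 : ℝ) + 1) / ε ≤ N := ((le_max_right _ _).trans hN1).trans hN1r
  have hNr : (100 : ℝ) ≤ N := by exact_mod_cast hN100
  have hNpos : (0 : ℝ) < N := by linarith
  have hN0 : N ≠ 0 := by omega
  set y := Real.log N with hy
  have l2 := Real.log_two_gt_d9
  have l2' := Real.log_two_lt_d9
  have hy4 : 4 ≤ y := by
    have := Real.log_le_log (by norm_num) (show (64 : ℝ) ≤ N by linarith)
    rw [show (64 : ℝ) = 2 ^ 6 by norm_num, Real.log_pow] at this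
    push_cast at this
    linarith
  have hy0 : 0 < y := by linarith
  have hly : 2 * Real.log 2 ≤ Real.log y := by
    have := Real.log_le_log (by norm_num) hy4
    rw [show (4 : ℝ) = 2 ^ 2 by norm_num, Real.log_pow] at this
    push_cast at this
    exact this
  have hly1 : 1 ≤ Real.log y := by linarith
  have hsy : 0 < √ y := Real.sqrt_pos.2 hy0
  have hsy2 : √ y ^ 2 = y := Real.sq_sqrt hy0.le
  have hsy1 : 2 ≤ √ y := by
    apply Real.le_sqrt_of_sq_le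
    linarith
  set G : ℕ := ⌊η * √ y / Real.log y⌋₊ with hG
  have hGle : (G : ℝ) ≤ η * √ y / Real.log y := Nat.floor_le (by positivity)
  have hGs : (G : ℝ) ≤ √ y := by
    refine hGle.trans ?_
    rw [div_le_iff₀ (by linarith)]
    calc η * √ y ≤ 1 * √ y := mul_le_mul_of_nonneg_right hη1 hsy.le
      _ ≤ √ y * Real.log y := by rw [one_mul]; exact le_mul_of_one_le_right hsy.le hly1
  set m := max (Nat.sqrt N) n0 with hm
  -- the exceptional set
  have hsub : ({n ∈ Icc 1 N | ¬ (4 ^ (Nat.log 2 N / 4) ≤ n ∧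
      ∀ h ∈ Icc 1 (g n), ¬ surv d (Nat.log 2 N / 4) (0, ((h : ℕ) : ℤ)) (n : ℕ))} : Finset ℕ) ⊆
      Icc 1 m ∪ {n ∈ Icc 1 N | ∃ h ∈ Icc 1 G, surv d (Nat.log 2 N / 4) (0, ((h : ℕ) : ℤ)) (n : ℕ)} := by
    intro n hn
    rw [mem_filter, mem_Icc] at hn
    obtain ⟨⟨hn1, hn2⟩, hn3⟩ := hn
    rw [mem_union, mem_Icc, mem_filter, mem_Icc]
    by_cases hnm : n ≤ m
    · exact Or.inl ⟨hn1, hnm⟩
    right
    refine ⟨⟨hn1, hn2⟩, ?_⟩
    push Not at hnm
    have hnsq : Nat.sqrt N < n := lt_of_le_of_lt (le_max_left _ _) hnm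
    have hnn0 : n0 ≤ n := (lt_of_le_of_lt (le_max_right _ _) hnm).le
    have h4 : 4 ^ (Nat.log 2 N / 4) ≤ n := by
      have h5 : 4 ^ (Nat.log 2 N / 4) ≤ Nat.sqrt N := by
        rw [Nat.le_sqrt']
        calc (4 ^ (Nat.log 2 N / 4)) ^ 2 = 2 ^ (4 * (Nat.log 2 N / 4)) := by
              rw [show 4 = 2 ^ 2 by norm_num, ← pow_mul, ← pow_mul]
              norm_num
              ring_nf
          _ ≤ 2 ^ (Nat.log 2 N) := Nat.pow_le_pow_right (by norm_num) (by omega)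
          _ ≤ N := Nat.pow_log_le_self 2 hN0
      omega
    have hex : ¬ ∀ h ∈ Icc 1 (g n), ¬ surv d (Nat.log 2 N / 4) (0, ((h : ℕ) : ℤ)) (n : ℕ) :=
      fun hcon => hn3 ⟨h4, hcon⟩
    push Not at hex
    obtain ⟨j, hj, hs⟩ := hex
    refine ⟨j, ?_, hs⟩
    rw [mem_Icc] at hj ⊢
    refine ⟨hj.1, hj.2.trans ?_⟩
    -- `g n ≤ G`
    apply Nat.le_floor
    have hnr : (0 : ℝ) < n := by exact_mod_cast hn1
    have hnN : (n : ℝ) ≤ N := by exact_mod_cast hn2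
    have h6 : (N : ℝ) ≤ (n : ℝ) ^ 2 := by
      have : N < n ^ 2 := Nat.sqrt_lt'.1 hnsq
      exact_mod_cast this.le
    have h7 : y ≤ 2 * Real.log n := by
      have := Real.log_le_log hNpos h6
      rw [Real.log_pow] at this
      push_cast at this
      exact this
    have h8 : Real.log n ≤ y := Real.log_le_log hnr hnN
    have h9 : 0 < Real.log n := by linarith
    have h10 : Real.log y / 2 ≤ Real.log (Real.log n) := by
      have h11 := Real.log_le_log (by positivity) (show y / 2 ≤ Real.log n by linarith)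
      rw [Real.log_div hy0.ne' (by norm_num)] at h11
      linarith
    have h11 : 0 < Real.log (Real.log n) := by linarith
    have h12 : √ (Real.log n) ≤ √ y := Real.sqrt_le_sqrt h8
    have h13 : 0 < √ (Real.log n) := Real.sqrt_pos.2 h9
    have h14 : (g n : ℝ) * Real.log (Real.log n) / √ (Real.log n) < η / 2 := hn0 n hnn0
    rw [div_lt_iff₀ h13] at h14
    rw [le_div_iff₀ (by linarith)]
    have h15 : (0 : ℝ) ≤ g n := by positivity
    calc (g n : ℝ) * Real.log y = (g n : ℝ) * (Real.log y / 2) * 2 := by ring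
      _ ≤ (g n : ℝ) * Real.log (Real.log n) * 2 :=
          mul_le_mul_of_nonneg_right (mul_le_mul_of_nonneg_left h10 h15) (by norm_num)
      _ ≤ (η / 2 * √ (Real.log n)) * 2 := mul_le_mul_of_nonneg_right h14.le (by norm_num)
      _ = η * √ (Real.log n) := by ring
      _ ≤ η * √ y := mul_le_mul_of_nonneg_left h12 hη0.le
  have hcard : (#{n ∈ Icc 1 N | ¬ (4 ^ (Nat.log 2 N / 4) ≤ n ∧
      ∀ h ∈ Icc 1 (g n), ¬ surv d (Nat.log 2 N / 4) (0, ((h : ℕ) : ℤ)) (n : ℕ))} : ℝ) ≤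
      m + (#{n ∈ Icc 1 N | ∃ h ∈ Icc 1 G, surv d (Nat.log 2 N / 4) (0, ((h : ℕ) : ℤ)) (n : ℕ)} : ℝ) := by
    have h1 := (card_le_card hsub).trans (card_union_le _ _)
    rw [Nat.card_Icc, Nat.add_sub_cancel] at h1
    exact_mod_cast h1
  have hrun := hcount N (by omega) d hd G
  -- the small numbers
  have hmle : (m : ℝ) ≤ ε / 2 * N := by
    have h1 : (m : ℝ) ≤ (Nat.sqrt N : ℝ) + n0 := by
      have : m ≤ Nat.sqrt N + n0 := by omega
      exact_mod_cast this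
    have h2 : (Nat.sqrt N : ℝ) ≤ ε / 4 * N := by
      have h3 : ((Nat.sqrt N : ℕ) : ℝ) ^ 2 ≤ N := by
        have : (Nat.sqrt N) ^ 2 ≤ N := Nat.sqrt_le' N
        exact_mod_cast this
      have h4 : (N : ℝ) ≤ (ε / 4 * N) ^ 2 := by
        rw [div_le_iff₀ (by positivity)] at hNa
        have : (ε / 4 * N) ^ 2 = (N * ε ^ 2) * N / 16 := by ring
        rw [this]
        nlinarith
      exact le_of_sq_le_sq (h3.trans h4) (by positivity)
    have h3 : (n0 : ℝ) ≤ ε / 4 * N := by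
      rw [div_le_iff₀ hε] at hNb
      linarith
    linarith
  -- the runs
  have hlog1 : Real.log (1 + (G : ℝ)) ≤ Real.log y := by
    apply Real.log_le_log (by positivity)
    nlinarith
  have hsq : √ ((1 + Real.log (1 + (G : ℝ))) * (Real.log y / y)) ≤ 3 / 2 * (Real.log y / √ y) := by
    rw [Real.sqrt_le_left (by positivity)]
    have h1 : (3 / 2 * (Real.log y / √ y)) ^ 2 = 9 / 4 * (Real.log y * (Real.log y / y)) := by
      rw [mul_pow, div_pow (Real.log y), hsy2]; ring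
    rw [h1]
    have h2 : 0 ≤ Real.log y / y := by positivity
    have h3 : (1 + Real.log (1 + (G : ℝ))) * (Real.log y / y) ≤ (2 * Real.log y) * (Real.log y / y) :=
      mul_le_mul_of_nonneg_right (by linarith) h2
    have h4 : 0 ≤ Real.log y * (Real.log y / y) := by positivity
    nlinarith
  have hfin : (G : ℝ) * (C * √ ((1 + Real.log (1 + (G : ℝ))) * (Real.log y / y)) * N) ≤ ε / 2 * N := by
    have h1 : (G : ℝ) * (C * √ ((1 + Real.log (1 + (G : ℝ))) * (Real.log y / y))) ≤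
        (η * √ y / Real.log y) * (C * (3 / 2 * (Real.log y / √ y))) := by
      apply mul_le_mul hGle (mul_le_mul_of_nonneg_left hsq hC.le) (by positivity) (by positivity)
    have h2 : (η * √ y / Real.log y) * (C * (3 / 2 * (Real.log y / √ y))) = 3 / 2 * (C * η) := by
      have : Real.log y ≠ 0 := by linarith
      field_simp
    rw [h2] at h1
    have h3 : 3 / 2 * (C * η) ≤ ε / 2 := by linarith
    calc (G : ℝ) * (C * √ ((1 + Real.log (1 + (G : ℝ))) * (Real.log y / y)) * N)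
        = ((G : ℝ) * (C * √ ((1 + Real.log (1 + (G : ℝ))) * (Real.log y / y)))) * N := by ring
      _ ≤ ε / 2 * N := mul_le_mul_of_nonneg_right (h1.trans h3) hNpos.le
  linarith

theorem iter_persist {α : Type*} {f : α → α} {a b : α} {t k : ℕ} (h : f^[t] a = f^[t] b) (htk : t ≤ k) :
    f^[k] a = f^[k] b := by
  obtain ⟨j, rfl⟩ : ∃ j, k = j + t := ⟨k - t, by omega⟩
  rw [Function.iterate_add_apply, Function.iterate_add_apply, h]

open Classical in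
/-- For almost all `n` the run `s n, ..., s n + g n` coalesces. -/
theorem run_T {s : ℤ} (hs : s = 1 ∨ s = -1) {g : ℕ → ℕ} (hg : Slow g) :
    Tendsto (fun N : ℕ => (#{n ∈ Icc 1 N | ∃ t : ℕ, 4 ^ t ≤ n ∧ ∀ h : ℕ, h ≤ g n →
      (Tz 1)^[t] (s * ((n : ℕ) : ℤ) + h) = (Tz 1)^[t] (s * ((n : ℕ) : ℤ))} : ℝ) / N) atTop (𝓝 1) := by
  apply density_one
  intro ε hε
  obtain ⟨N0, hN0⟩ := run_small hg hε
  refine ⟨N0, fun N => ?_⟩
  rcases Nat.lt_or_ge N N0 with h | h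
  · have h1 : (#{n ∈ Icc 1 N | ¬ ∃ t : ℕ, 4 ^ t ≤ n ∧ ∀ h : ℕ, h ≤ g n →
      (Tz 1)^[t] (s * ((n : ℕ) : ℤ) + h) = (Tz 1)^[t] (s * ((n : ℕ) : ℤ))} : ℝ) ≤ N := by
      have := card_filter_le (Icc 1 N) (fun n => ¬ ∃ t : ℕ, 4 ^ t ≤ n ∧ ∀ h : ℕ, h ≤ g n →
        (Tz 1)^[t] (s * ((n : ℕ) : ℤ) + h) = (Tz 1)^[t] (s * ((n : ℕ) : ℤ)))
      rw [Nat.card_Icc, Nat.add_sub_cancel] at this
      exact_mod_cast this
    have h2 : (N : ℝ) ≤ N0 := by exact_mod_cast h.le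
    have h3 : 0 ≤ ε * N := by positivity
    linarith
  · have hsodd : s % 2 = 1 := by rcases hs with rfl | rfl <;> norm_num
    have h1 := hN0 N h s hsodd
    have h2 : #{n ∈ Icc 1 N | ¬ ∃ t : ℕ, 4 ^ t ≤ n ∧ ∀ h : ℕ, h ≤ g n →
      (Tz 1)^[t] (s * ((n : ℕ) : ℤ) + h) = (Tz 1)^[t] (s * ((n : ℕ) : ℤ))} ≤
      #{n ∈ Icc 1 N | ¬ (4 ^ (Nat.log 2 N / 4) ≤ n ∧
        ∀ h ∈ Icc 1 (g n), ¬ surv s (Nat.log 2 N / 4) (0, ((h : ℕ) : ℤ)) (n : ℕ))} := by
      apply card_le_card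
      intro n hn
      rw [mem_filter] at hn ⊢
      refine ⟨hn.1, ?_⟩
      rintro ⟨h3, h4⟩
      apply hn.2
      refine ⟨Nat.log 2 N / 4, h3, fun j hj => ?_⟩
      rcases Nat.eq_zero_or_pos j with rfl | hj0
      · simp
      · obtain ⟨t, ht, hh⟩ := coal hsodd _ 0 _ _ (h4 j (mem_Icc.2 ⟨hj0, hj⟩))
        have h5 := iter_persist hh ht
        have h6 := congrArg (fun z => s * z) h5
        rw [Tz_sign_iter hs, Tz_sign_iter hs] at h6
        rw [h6]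
        congr 1
        rcases hs with rfl | rfl <;> ring
    have h3 : (#{n ∈ Icc 1 N | ¬ ∃ t : ℕ, 4 ^ t ≤ n ∧ ∀ h : ℕ, h ≤ g n →
      (Tz 1)^[t] (s * ((n : ℕ) : ℤ) + h) = (Tz 1)^[t] (s * ((n : ℕ) : ℤ))} : ℝ) ≤
      #{n ∈ Icc 1 N | ¬ (4 ^ (Nat.log 2 N / 4) ≤ n ∧
        ∀ h ∈ Icc 1 (g n), ¬ surv s (Nat.log 2 N / 4) (0, ((h : ℕ) : ℤ)) (n : ℕ))} := by
      exact_mod_cast h2
    have h4 : (0 : ℝ) ≤ N0 := by positivity
    linarith

open Classical in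
/-- The same for the Collatz map on the natural numbers. -/
theorem run_C {g : ℕ → ℕ} (hg : Slow g) :
    Tendsto (fun N : ℕ => (#{n ∈ Icc 1 N | ∃ t : ℕ, 2 ^ t ≤ n ∧ ∀ h : ℕ, h ≤ g n →
      Cn^[t] (n + h) = Cn^[t] n} : ℝ) / N) atTop (𝓝 1) := by
  apply density_one
  intro ε hε
  obtain ⟨N0, hN0⟩ := run_small hg hε
  refine ⟨N0, fun N => ?_⟩
  rcases Nat.lt_or_ge N N0 with h | h
  · have h1 : (#{n ∈ Icc 1 N | ¬ ∃ t : ℕ, 2 ^ t ≤ n ∧ ∀ h : ℕ, h ≤ g n →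
      Cn^[t] (n + h) = Cn^[t] n} : ℝ) ≤ N := by
      have := card_filter_le (Icc 1 N) (fun n => ¬ ∃ t : ℕ, 2 ^ t ≤ n ∧ ∀ h : ℕ, h ≤ g n →
        Cn^[t] (n + h) = Cn^[t] n)
      rw [Nat.card_Icc, Nat.add_sub_cancel] at this
      exact_mod_cast this
    have h2 : (N : ℝ) ≤ N0 := by exact_mod_cast h.le
    have h3 : 0 ≤ ε * N := by positivity
    linarith
  · have h1 := hN0 N h 1 (by norm_num)
    have h2 : #{n ∈ Icc 1 N | ¬ ∃ t : ℕ, 2 ^ t ≤ n ∧ ∀ h : ℕ, h ≤ g n → Cn^[t] (n + h) = Cn^[t] n} ≤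
      #{n ∈ Icc 1 N | ¬ (4 ^ (Nat.log 2 N / 4) ≤ n ∧
        ∀ h ∈ Icc 1 (g n), ¬ surv 1 (Nat.log 2 N / 4) (0, ((h : ℕ) : ℤ)) (n : ℕ))} := by
      apply card_le_card
      intro n hn
      rw [mem_filter] at hn ⊢
      refine ⟨hn.1, ?_⟩
      rintro ⟨h3, h4⟩
      apply hn.2
      refine ⟨2 * (Nat.log 2 N / 4), ?_, fun j hj => ?_⟩
      · rw [pow_mul]; exact h3
      rcases Nat.eq_zero_or_pos j with rfl | hj0
      · simp
      · obtain ⟨a, b, ha, hb, hab, hh⟩ := coalC _ 0 _ _ (h4 j (mem_Icc.2 ⟨hj0, hj⟩))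
        rw [add_zero] at hab
        subst hab
        have h5 := iter_persist hh ha
        have e : (3 : ℤ) ^ 0 * (n : ℤ) + (j : ℤ) = ((n + j : ℕ) : ℤ) := by push_cast; ring
        rw [e, Cz_iter_cast, Cz_iter_cast] at h5
        exact_mod_cast h5.symm
    have h3 : (#{n ∈ Icc 1 N | ¬ ∃ t : ℕ, 2 ^ t ≤ n ∧ ∀ h : ℕ, h ≤ g n →
      Cn^[t] (n + h) = Cn^[t] n} : ℝ) ≤
      #{n ∈ Icc 1 N | ¬ (4 ^ (Nat.log 2 N / 4) ≤ n ∧
        ∀ h ∈ Icc 1 (g n), ¬ surv 1 (Nat.log 2 N / 4) (0, ((h : ℕ) : ℤ)) (n : ℕ))} := by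
      exact_mod_cast h2
    have h4 : (0 : ℝ) ≤ N0 := by positivity
    linarith

open Classical in
/-- Changing a set on a set of density zero. -/
theorem dens_congr {E P Q : ℕ → Prop} {l : ℝ}
    (hE : Tendsto (fun N : ℕ => (#{n ∈ Icc 1 N | E n} : ℝ) / N) atTop (𝓝 1))
    (hP : Tendsto (fun N : ℕ => (#{n ∈ Icc 1 N | P n} : ℝ) / N) atTop (𝓝 l))
    (h : ∀ n, 1 ≤ n → E n → (P n ↔ Q n)) :
    Tendsto (fun N : ℕ => (#{n ∈ Icc 1 N | Q n} : ℝ) / N) atTop (𝓝 l) := by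
  have h1 : Tendsto (fun N : ℕ => (#{n ∈ Icc 1 N | Q n} : ℝ) / N - (#{n ∈ Icc 1 N | P n} : ℝ) / N)
      atTop (𝓝 0) := by
    have hE' : Tendsto (fun N : ℕ => 1 - (#{n ∈ Icc 1 N | E n} : ℝ) / N) atTop (𝓝 0) := by
      have := (tendsto_const_nhds (x := (1 : ℝ))).sub hE
      simpa using this
    apply squeeze_zero_norm' _ hE'
    filter_upwards [eventually_gt_atTop 0] with N hN
    have hNr : (0 : ℝ) < N := by exact_mod_cast hN
    rw [Real.norm_eq_abs, ← sub_div, abs_div, abs_of_pos hNr, div_le_iff₀ hNr, sub_mul, one_mul,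
      div_mul_cancel₀ _ hNr.ne']
    have hc : #{n ∈ Icc 1 N | E n} + #{n ∈ Icc 1 N | ¬ E n} = N := by
      rw [card_filter_add_card_filter_not]; simp
    have hc' : (#{n ∈ Icc 1 N | E n} : ℝ) + #{n ∈ Icc 1 N | ¬ E n} = N := by exact_mod_cast hc
    have key : ∀ {A B : ℕ → Prop}, (∀ n, 1 ≤ n → E n → (A n → B n)) →
        (#{n ∈ Icc 1 N | A n} : ℝ) ≤ #{n ∈ Icc 1 N | B n} + #{n ∈ Icc 1 N | ¬ E n} := by
      intro A B hAB
      have hsub : ({n ∈ Icc 1 N | A n} : Finset ℕ) ⊆ {n ∈ Icc 1 N | B n} ∪ {n ∈ Icc 1 N | ¬ E n} := by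
        intro n hn
        rw [mem_filter] at hn
        rw [mem_union, mem_filter, mem_filter]
        by_cases hEn : E n
        · exact Or.inl ⟨hn.1, hAB n (mem_Icc.1 hn.1).1 hEn hn.2⟩
        · exact Or.inr ⟨hn.1, hEn⟩
      have := (card_le_card hsub).trans (card_union_le _ _)
      exact_mod_cast this
    have k1 := key (A := P) (B := Q) (fun n hn hE => (h n hn hE).1)
    have k2 := key (A := Q) (B := P) (fun n hn hE => (h n hn hE).2)
    rw [abs_le]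
    constructor <;> linarith
  have h2 := h1.add hP
  simpa using h2

end Pool.Agent.H499R2.CO
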