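import Mathlib
import Pool.Agent.H33.G.R_seed8.H499R2.CO.R5

set_option autoImplicit false

namespace Pool.Agent.H499R2.CO

open Finset Filter Topology

theorem side_ncard {s : ℤ} (hs : s = 1 ∨ s = -1) (R : Set ℤ) (N : ℕ) :
    {n : ℤ | 0 < s * n ∧ s * n ≤ N ∧ n ∈ R}.ncard = {n : ℕ | 1 ≤ n ∧ n ≤ N ∧ s * (n : ℤ) ∈ R}.ncard := by
  have hss : ∀ x : ℤ, s * (s * x) = x := by intro x; rcases hs with rfl | rfl <;> ring
  have : {n : ℤ | 0 < s * n ∧ s * n ≤ N ∧ n ∈ R} =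
      (fun n : ℕ => s * (n : ℤ)) '' {n : ℕ | 1 ≤ n ∧ n ≤ N ∧ s * (n : ℤ) ∈ R} := by
    ext x
    rw [Set.mem_image]
    constructor
    · rintro ⟨h1, h2, h3⟩
      have e : (((s * x).toNat : ℕ) : ℤ) = s * x := Int.toNat_of_nonneg h1.le
      refine ⟨(s * x).toNat, ⟨by omega, by omega, ?_⟩, ?_⟩
      · rw [e, hss]; exact h3
      · rw [e, hss]
    · rintro ⟨n, ⟨h1, h2, h3⟩, rfl⟩
      refine ⟨?_, ?_, h3⟩
      · rw [hss]; exact_mod_cast h1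
      · rw [hss]; exact_mod_cast h2
  rw [this, Set.ncard_image_of_injective]
  intro a b hab
  simp only at hab
  have h1 := congrArg (fun z => s * z) hab
  simp only [hss] at h1
  exact_mod_cast h1

/-- Invariant sets have natural densities. -/
theorem side_density {s : ℤ} (hs : s = 1 ∨ s = -1) {R : Set ℤ} (hR : ∀ x, x ∈ R ↔ Tz 1 x ∈ R) :
    ∃ l : ℝ, 0 ≤ l ∧ l ≤ 1 ∧ HD (fun n => s * (n : ℤ) ∈ R) l ∧
      (0 < l ↔ ∃ x ∈ R, 0 < s * x) ∧ (l = 1 ↔ ∀ x, 0 < s * x → x ∈ R) := by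
  have hinv : Pool.Agent.H499R2.ND.Inv 1 R := hR
  obtain ⟨l, hl0, hl1, hl⟩ := Pool.Agent.H499R2.ND.dens_side odd_one isCoprime_one_left hs hinv
  refine ⟨l, hl0, hl1, ?_, ?_, ?_⟩
  · refine (Pool.Agent.H499R2.ND.HD_ncard hs hl).congr fun N => ?_
    rw [side_ncard hs]
  · constructor
    · intro h
      by_contra hcon
      push Not at hcon
      have := Pool.Agent.H499R2.ND.one_eq_zero hs (S := R) (fun a ha => not_lt.2 (hcon a ha)) hl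
      linarith
    · rintro ⟨x, hx, hsx⟩
      exact Pool.Agent.H499R2.ND.one_pos hs hinv hx hsx hl
  · constructor
    · intro h x hsx
      by_contra hx
      have := Pool.Agent.H499R2.ND.one_lt hs hinv hx hsx hl
      linarith
    · intro h
      obtain ⟨l', _, _, hl'⟩ := Pool.Agent.H499R2.ND.dens_side odd_one isCoprime_one_left hs hinv.compl
      have h1 := Pool.Agent.H499R2.ND.HD_compl hl hl'
      have h2 := Pool.Agent.H499R2.ND.one_eq_zero hs (S := Rᶜ) (fun a ha hsa => ha (h a hsa)) hl'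
      linarith

/-- Runs and invariant sets on one side. -/
theorem run_side {s : ℤ} (hs : s = 1 ∨ s = -1) {R : Set ℤ} (hR : ∀ x, x ∈ R ↔ Tz 1 x ∈ R) :
    ∃ l : ℝ, 0 ≤ l ∧ l ≤ 1 ∧ (0 < l ↔ ∃ x ∈ R, 0 < s * x) ∧ (l = 1 ↔ ∀ x, 0 < s * x → x ∈ R) ∧
      ∀ g : ℕ → ℕ, Slow g → HD (fun n => ∀ h : ℕ, h ≤ g n → s * (n : ℤ) + h ∈ R) l ∧
        HD (fun n => ∀ h : ℕ, h ≤ g n → s * (n : ℤ) + h ∉ R) (1 - l) := by
  obtain ⟨l, h0, h1, h2, h3, h4⟩ := side_density hs hR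
  exact ⟨l, h0, h1, h3, h4, fun g hg => run_inv hs hg hR h2⟩

theorem run_T' {s : ℤ} (hs : s = 1 ∨ s = -1) {g : ℕ → ℕ} (hg : Slow g) :
    HD (fun n : ℕ => ∃ t : ℕ, 4 ^ t ≤ n ∧ ∀ h : ℕ, h ≤ g n →
      (Tz 1)^[t] (s * ((n : ℕ) : ℤ) + h) = (Tz 1)^[t] (s * ((n : ℕ) : ℤ))) 1 := by
  classical
  rw [HD_iff]
  exact run_T hs hg

/-- A property which holds for one member of almost all runs holds everywhere. -/
theorem sparse_side {s : ℤ} (hs : s = 1 ∨ s = -1) {R : Set ℤ} (hR : ∀ x, x ∈ R ↔ Tz 1 x ∈ R)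
    {g : ℕ → ℕ} (hg : Slow g) (h : ∀ n : ℕ, 1 ≤ n → ∃ j : ℕ, j ≤ g n ∧ s * (n : ℤ) + j ∈ R) :
    ∀ x, 0 < s * x → x ∈ R := by
  obtain ⟨l, _, _, _, h4, h5⟩ := run_side hs hR
  have h6 := (h5 g hg).2
  have h7 : HD (fun n => ∀ h : ℕ, h ≤ g n → s * (n : ℤ) + h ∉ R) 0 := by
    have e : ∀ N : ℕ, {n : ℕ | 1 ≤ n ∧ n ≤ N ∧ ∀ h : ℕ, h ≤ g n → s * (n : ℤ) + h ∉ R} = ∅ := by
      intro N
      rw [Set.eq_empty_iff_forall_notMem]
      rintro n ⟨h1, _, h3⟩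
      obtain ⟨j, hj, hjR⟩ := h n h1
      exact h3 j hj hjR
    unfold HD
    simp only [e, Set.ncard_empty, Nat.cast_zero, zero_div]
    exact tendsto_const_nhds
  have h8 : 1 - l = 0 := tendsto_nhds_unique h6 h7
  exact h4.1 (by linarith)

theorem Tn_cast (n : ℕ) : Tz 1 (n : ℤ) = ((Pool.Agent.H499R2.ND.Tn n : ℕ) : ℤ) := by
  unfold Tz Pool.Agent.H499R2.ND.Tn
  rcases Nat.mod_two_eq_zero_or_one n with h | h
  · rw [if_pos (by omega), if_pos h]; omega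
  · rw [if_neg (by omega), if_neg (by omega)]; omega

theorem Tn_iter_cast (k : ℕ) : ∀ n : ℕ, (Tz 1)^[k] (n : ℤ) = (((Pool.Agent.H499R2.ND.Tn)^[k] n : ℕ) : ℤ) := by
  induction k with
  | zero => intro n; rfl
  | succ k ih => intro n; rw [Function.iterate_succ_apply, Function.iterate_succ_apply, Tn_cast, ih]

/-- Coalescing runs on the natural numbers. -/
theorem run_Tn {g : ℕ → ℕ} (hg : Slow g) :
    HD (fun n : ℕ => ∃ t : ℕ, 4 ^ t ≤ n ∧ ∀ h : ℕ, h ≤ g n →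
      (Pool.Agent.H499R2.ND.Tn)^[t] (n + h) = (Pool.Agent.H499R2.ND.Tn)^[t] n) 1 := by
  have hE := run_T' (s := 1) (Or.inl rfl) hg
  refine HD_congr hE hE (fun n _ hn => ⟨fun _ => ?_, fun _ => hn⟩)
  obtain ⟨t, ht, hh⟩ := hn
  refine ⟨t, ht, fun h hg' => ?_⟩
  have h5 := hh h hg'
  have e : 1 * (n : ℤ) + (h : ℤ) = ((n + h : ℕ) : ℤ) := by push_cast; ring
  rw [e, one_mul, Tn_iter_cast, Tn_iter_cast] at h5
  exact_mod_cast h5

/-- A property which holds for one member of all runs holds everywhere. -/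
theorem sparse_N {g : ℕ → ℕ} (hg : Slow g) {P : ℕ → Prop}
    (hP : ∀ n, 1 ≤ n → (P n ↔ P (Pool.Agent.H499R2.ND.Tn n)))
    (h : ∀ n : ℕ, 1 ≤ n → ∃ j : ℕ, j ≤ g n ∧ P (n + j)) : ∀ n, 1 ≤ n → P n := by
  obtain ⟨l, _, _, h1, _, h3⟩ := Pool.Agent.H499R2.ND.nat_density (P := P) hP
  have h6 := (run_invN hg hP (l := l) h1).2
  have h7 : HD (fun n => ∀ h : ℕ, h ≤ g n → ¬ P (n + h)) 0 := by
    have e : ∀ N : ℕ, {n : ℕ | 1 ≤ n ∧ n ≤ N ∧ ∀ h : ℕ, h ≤ g n → ¬ P (n + h)} = ∅ := by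
      intro N
      rw [Set.eq_empty_iff_forall_notMem]
      rintro n ⟨h1, _, h3⟩
      obtain ⟨j, hj, hjR⟩ := h n h1
      exact h3 j hj hjR
    unfold HD
    simp only [e, Set.ncard_empty, Nat.cast_zero, zero_div]
    exact tendsto_const_nhds
  have h8 : 1 - l = 0 := tendsto_nhds_unique h6 h7
  exact h3.1 (by linarith)

end Pool.Agent.H499R2.CO
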